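import Pool.Agent.H515.Cl
import Pool.Graph.R_pool_sql_team_seeded_3997aac3.Q53.EX.Tw0
import Pool.Graph.R_pool_sql_team_seeded_3997aac3.Q16.EX.Kum

/-! # Comparing the ambiguous divisors in a square of fields -/

set_option autoImplicit false
set_option linter.unusedSectionVars false
set_option linter.deprecated false

namespace Pool.Agent.H515.CH

open NumberField IsDedekindDomain Pool.Agent.Q5.BR Pool.Agent.Q92.AR Pool.Agent.Q106.AR
open Pool.Agent.TeamU (act mem_act)
open Pool.Agent.Q280.AR (under_under rdeg_tower)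

section
variable {F E : Type} [Field F] [NumberField F] [Field E] [NumberField E] [Algebra F E]

theorem fixed_act {σ : E ≃ₐ[F] E} (hσ : ∀ g : E ≃ₐ[F] E, g ∈ Subgroup.zpowers σ) {D : Dv E}
    (hD : sD σ D = D) (g : E ≃ₐ[F] E) (w : HeightOneSpectrum (𝓞 E)) : D (act g w) = D w := by
  let H : Subgroup (E ≃ₐ[F] E) :=
    { carrier := {g | ∀ w, D (act g w) = D w}
      mul_mem' := by
        intro a b ha hb w
        rw [Pool.Agent.TeamU.act_mul, ha, hb]
      one_mem' := by
        intro w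
        rw [Pool.Agent.TeamU.act_one]
      inv_mem' := by
        intro a ha w
        have h := ha (act a⁻¹ w)
        rw [← Pool.Agent.TeamU.act_mul, mul_inv_cancel, Pool.Agent.TeamU.act_one] at h
        exact h.symm }
  have h1 : σ ∈ H := by
    intro w
    conv_lhs => rw [← hD]
    rw [Pool.Agent.Q225.AR.sD_act]
  have h2 : Subgroup.zpowers σ ≤ H := by
    rw [Subgroup.zpowers_le]
    exact h1
  exact h2 (hσ g) w

theorem fixed_const [IsGalois F E] {σ : E ≃ₐ[F] E} (hσ : ∀ g : E ≃ₐ[F] E, g ∈ Subgroup.zpowers σ)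
    {D : Dv E} (hD : sD σ D = D) {w w' : HeightOneSpectrum (𝓞 E)}
    (hw : w.under (𝓞 F) = w'.under (𝓞 F)) : D w = D w' := by
  obtain ⟨g, hg⟩ := Pool.Agent.Q149.AR.trans_act (F := F) (w := w) (w' := w') hw
  rw [← hg, fixed_act hσ hD]

theorem ri_const [IsGalois F E] {w w' : HeightOneSpectrum (𝓞 E)}
    (hw : w.under (𝓞 F) = w'.under (𝓞 F)) : ri F w = ri F w' := by
  obtain ⟨g, hg⟩ := Pool.Agent.Q149.AR.trans_act (F := F) (w := w) (w' := w') hw
  rw [← hg, ri_act]

/-- the extended divisors among the ambiguous divisors -/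
theorem mem_range_cn [IsGalois F E] {σ : E ≃ₐ[F] E}
    (hσ : ∀ g : E ≃ₐ[F] E, g ∈ Subgroup.zpowers σ) {D : Dv E} (hD : sD σ D = D)
    (hd : ∀ w, (ri F w : ℤ) ∣ D w) : D ∈ (cn F E).range := by
  classical
  choose W hW using fun v : HeightOneSpectrum (𝓞 F) =>
    Pool.Agent.Q182.AR.exists_above (F := F) (E := E) v
  have hinj : Function.Injective W := by
    intro v v' h
    rw [← hW v, ← hW v', h]
  have hfin : (Function.support fun v => D (W v) / (ri F (W v) : ℤ)).Finite := by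
    refine Set.Finite.subset ((D.support.finite_toSet).preimage hinj.injOn) ?_
    intro v hv
    rw [Set.mem_preimage, Finset.mem_coe, Finsupp.mem_support_iff]
    intro h
    apply hv
    change D (W v) / (ri F (W v) : ℤ) = 0
    rw [h, Int.zero_ediv]
  refine ⟨Finsupp.ofSupportFinite _ hfin, ?_⟩
  ext w
  rw [cn_apply]
  change (ri F w : ℤ) * (D (W (w.under (𝓞 F))) / (ri F (W (w.under (𝓞 F))) : ℤ)) = D w
  rw [fixed_const hσ hD (hW (w.under (𝓞 F))), ri_const (hW (w.under (𝓞 F))),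
    Int.mul_ediv_cancel' (hd w)]

end

section
variable {k k' F F' : Type} [Field k] [NumberField k] [Field k'] [NumberField k'] [Field F]
  [NumberField F] [Field F'] [NumberField F'] [Algebra k k'] [Algebra k F] [Algebra k F']
  [Algebra k' F'] [Algebra F F'] [IsScalarTower k k' F'] [IsScalarTower k F F']

/-- the fibre-product squares of fields -/
structure Sqr (k k' F F' : Type) [Field k] [NumberField k] [Field k'] [NumberField k'] [Field F]
    [NumberField F] [Field F'] [NumberField F'] [Algebra k k'] [Algebra k F] [Algebra k F']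
    [Algebra k' F'] [Algebra F F'] [IsScalarTower k k' F'] [IsScalarTower k F F'] : Prop where
  res : ∀ g : F' ≃ₐ[F] F', ∃ h : k' ≃ₐ[k] k', Xt g h
  inj : ∀ g : F' ≃ₐ[F] F', (∀ x : k', g (algebraMap k' F' x) = algebraMap k' F' x) → g = 1
  ext : ∀ h : k' ≃ₐ[k] k', ∃ g : F' ≃ₐ[F] F', Xt g h

theorem Xt.mul {g g' : F' ≃ₐ[F] F'} {h h' : k' ≃ₐ[k] k'} (a : Xt g h) (b : Xt g' h') :
    Xt (g * g') (h * h') := by
  intro x
  change g (g' (algebraMap k' F' x)) = algebraMap k' F' (h (h' x))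
  rw [b, a]

theorem Xt.one : Xt (1 : F' ≃ₐ[F] F') (1 : k' ≃ₐ[k] k') := fun _ => rfl

theorem Xt.unique {g : F' ≃ₐ[F] F'} {h h' : k' ≃ₐ[k] k'} (a : Xt g h) (b : Xt g h') : h = h' := by
  apply AlgEquiv.ext
  intro x
  apply (algebraMap k' F').injective
  rw [← a x, b x]

/-- the extension of a generator is a generator -/
theorem Sqr.gen (S : Sqr k k' F F') {σ : F' ≃ₐ[F] F'} {τ : k' ≃ₐ[k] k'} (h : Xt σ τ)
    (hτ : ∀ g : k' ≃ₐ[k] k', g ∈ Subgroup.zpowers τ) (g : F' ≃ₐ[F] F') :
    g ∈ Subgroup.zpowers σ := by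
  obtain ⟨g', hg'⟩ := S.res g
  have hfin : IsOfFinOrder τ := isOfFinOrder_of_finite τ
  obtain ⟨n, hn⟩ := (Subgroup.mem_zpowers_iff).1 (hτ g')
  obtain ⟨m, hm⟩ : ∃ m : ℕ, τ ^ m = g' := by
    have := hτ g'
    rw [← hfin.mem_powers_iff_mem_zpowers] at this
    exact this
  have hpow : ∀ m : ℕ, Xt (σ ^ m) (τ ^ m) := by
    intro m
    induction m with
    | zero => rw [pow_zero, pow_zero]; exact Xt.one
    | succ m ih => rw [pow_succ, pow_succ]; exact ih.mul h
  have h1 : Xt (σ ^ m) g' := by rw [← hm]; exact hpow m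
  have h2 : (σ ^ m)⁻¹ * g = 1 := by
    apply S.inj
    intro x
    change (σ ^ m).symm (g (algebraMap k' F' x)) = _
    rw [AlgEquiv.symm_apply_eq, hg', h1]
  rw [inv_mul_eq_one] at h2
  rw [← h2]
  exact Subgroup.npow_mem_zpowers σ m

theorem unram_sq [IsGalois k k'] [IsGalois F F'] (S : Sqr k k' F F')
    (W : HeightOneSpectrum (𝓞 F')) (hu : Unramified k' (W.under (𝓞 k))) : ri F W = 1 := by
  apply ri_eq_one (v := W.under (𝓞 F)) _ rfl
  refine Pool.Agent.Q16.EX.unr_of_inertia _ fun W' hW' g hg => ?_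
  obtain ⟨h, hh⟩ := S.res g
  have e : (W'.under (𝓞 k')).under (𝓞 k) = W.under (𝓞 k) := by
    rw [under_under k k' F' W', ← under_under k F F' W', hW', under_under k F F' W]
  have h1 : h = 1 := by
    refine Pool.Agent.Q53.EX.inert_eq_one (w := W'.under (𝓞 k')) (by rw [e]; exact hu) ?_
    intro x
    have hx : IsIntegral ℤ (h (x : k')) := x.2.map h
    obtain ⟨y, hy⟩ : ∃ y : 𝓞 k', (y : k') = h (x : k') := ⟨⟨h (x : k'), hx⟩, rfl⟩
    have h3 : y - x ∈ (W'.under (𝓞 k')).asIdeal := by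
      change algebraMap (𝓞 k') (𝓞 F') (y - x) ∈ W'.asIdeal
      have h4 := hg (algebraMap (𝓞 k') (𝓞 F') x)
      have e2 : g • (algebraMap (𝓞 k') (𝓞 F') x) - (algebraMap (𝓞 k') (𝓞 F') x) =
          algebraMap (𝓞 k') (𝓞 F') (y - x) := by
        apply RingOfIntegers.ext
        change g (algebraMap k' F' (x : k')) - algebraMap k' F' (x : k') =
          algebraMap k' F' ((y : k') - (x : k'))
        rw [hh, hy, map_sub]
      rw [e2] at h4
      exact h4
    have h5 := ((W'.under (𝓞 k')).valuation_lt_one_iff_mem (K := k') (y - x)).2 h3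
    rw [← hy]
    exact h5
  subst h1
  exact S.inj g fun x => hh x

end

end Pool.Agent.H515.CH
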