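import Pool.Agent.H515.Amb

/-! # Comparing the ambiguous divisors in a square of fields, part 2 -/

set_option autoImplicit false
set_option linter.unusedSectionVars false
set_option linter.deprecated false

namespace Pool.Agent.H515.CH

open NumberField IsDedekindDomain Pool.Agent.Q5.BR Pool.Agent.Q92.AR Pool.Agent.Q106.AR
open Pool.Agent.TeamU (act mem_act)
open Pool.Agent.Q280.AR (under_under rdeg_tower)

section
variable {k k' F F' : Type} [Field k] [NumberField k] [Field k'] [NumberField k'] [Field F]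
  [NumberField F] [Field F'] [NumberField F'] [Algebra k k'] [Algebra k F] [Algebra k F']
  [Algebra k' F'] [Algebra F F'] [IsScalarTower k k' F'] [IsScalarTower k F F']

theorem ld_sq [IsGalois k k'] (hc : (Module.finrank k F).Coprime (Module.finrank k k'))
    (hm : Module.finrank k' F' = Module.finrank k F) (W : HeightOneSpectrum (𝓞 F'))
    (hns : ld k (W.under (𝓞 F)) = Module.finrank k F) : ld k' W = Module.finrank k' F' := by
  have h1 := ld_tower k k' F' W
  have h2 := ld_tower k F F' W
  rw [hns, h1] at h2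
  have h3 : Module.finrank k F ∣ ld k' W * ld k (W.under (𝓞 k')) := ⟨ld F W, by rw [h2, mul_comm]⟩
  have h4 : (Module.finrank k F).Coprime (ld k (W.under (𝓞 k'))) :=
    Nat.Coprime.coprime_dvd_right (ld_dvd _) hc
  have h5 : Module.finrank k F ∣ ld k' W := h4.dvd_of_dvd_mul_right h3
  have h6 := ld_le (F := k') W
  have h7 := Nat.le_of_dvd (ld_pos W) h5
  omega

theorem ri_sq [IsGalois k k'] [IsGalois F F']
    (hc : (Module.finrank k F).Coprime (Module.finrank k k'))
    (hm : Module.finrank k' F' = Module.finrank k F)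
    (hn : Module.finrank F F' = Module.finrank k k') (W : HeightOneSpectrum (𝓞 F'))
    (hns : ld k (W.under (𝓞 F)) = Module.finrank k F) : ri F W = ri k (W.under (𝓞 k')) := by
  have h0 := ld_sq hc hm W hns
  have h1 := ri_tower k k' F' W
  have h2 := ri_tower k F F' W
  rw [h1] at h2
  -- `ri k' W * ri k q = ri F W * ri k w`
  have a1 : ri k' W ∣ Module.finrank k F := by
    rw [← hm, ← h0]; exact dvd_mul_left _ _
  have a2 : ri k (W.under (𝓞 F)) ∣ Module.finrank k F := by
    rw [← hns]; exact dvd_mul_left _ _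
  have b1 : ri F W ∣ Module.finrank k k' := by
    rw [← hn]; exact (dvd_mul_left _ _).trans (ld_dvd W)
  have b2 : ri k (W.under (𝓞 k')) ∣ Module.finrank k k' :=
    (dvd_mul_left _ _).trans (ld_dvd (W.under (𝓞 k')))
  apply Nat.dvd_antisymm
  · have c1 : (ri F W).Coprime (ri k' W) :=
      (Nat.Coprime.coprime_dvd_left a1 (Nat.Coprime.coprime_dvd_right b1 hc)).symm
    exact c1.dvd_of_dvd_mul_left (h2 ▸ dvd_mul_right _ _)
  · have c1 : (ri k (W.under (𝓞 k'))).Coprime (ri k (W.under (𝓞 F))) :=
      (Nat.Coprime.coprime_dvd_left a2 (Nat.Coprime.coprime_dvd_right b2 hc)).symm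
    exact c1.dvd_of_dvd_mul_right (h2 ▸ dvd_mul_left _ _)

theorem ai_dvd (S : Sqr k k' F F') [IsGalois k k'] [IsGalois F F']
    (hc : (Module.finrank k F).Coprime (Module.finrank k k'))
    (hm : Module.finrank k' F' = Module.finrank k F)
    (hn : Module.finrank F F' = Module.finrank k k')
    {σ : F' ≃ₐ[F] F'} {τ : k' ≃ₐ[k] k'} (h : Xt σ τ)
    (hτ : ∀ g : k' ≃ₐ[k] k', g ∈ Subgroup.zpowers τ)
    (hns : ∀ W : HeightOneSpectrum (𝓞 F'), ¬ Unramified k' (W.under (𝓞 k)) →
      ld k (W.under (𝓞 F)) = Module.finrank k F) : ai σ ∣ ai τ := by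
  classical
  unfold ai
  have h1 : ((cn k k').range.comap (nmD k' F')) ⊓ (df (sD σ)).ker ≤ (cn F F').range := by
    rintro D ⟨⟨D0, hD0⟩, hD⟩
    have hD' : sD σ D = D := by
      have := (AddMonoidHom.mem_ker).1 hD
      rw [df_apply, sub_eq_zero] at this
      exact this
    refine mem_range_cn (S.gen h hτ) hD' fun W => ?_
    by_cases hu : Unramified k' (W.under (𝓞 k))
    · rw [unram_sq S W hu]
      simp
    · have h2 := hns W hu
      have h3 := ld_sq hc hm W h2
      have h4 := ri_sq hc hm hn W h2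
      have h5 := (ld_eq_iff W).1 h3
      have h6 : above F' (W.under (𝓞 k')) = {W} := by
        ext W'
        rw [mem_above, Finset.mem_singleton]
        exact ⟨fun h => h5 W' h, fun h => by rw [h]⟩
      have h7 := DFunLike.congr_fun hD0 (W.under (𝓞 k'))
      rw [cn_apply, Pool.Agent.Q149.AR.nmD_apply, h6, Finset.sum_singleton] at h7
      rw [h4]
      have h8 : (ri k (W.under (𝓞 k')) : ℤ) ∣ (rdeg k' W : ℤ) * D W := ⟨_, h7.symm⟩
      refine IsCoprime.dvd_of_dvd_mul_left ?_ h8
      rw [Nat.isCoprime_iff_coprime]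
      have b2 : ri k (W.under (𝓞 k')) ∣ Module.finrank k k' :=
        (dvd_mul_left _ _).trans (ld_dvd (W.under (𝓞 k')))
      have a1 : rdeg k' W ∣ Module.finrank k F := by
        rw [← hm, ← h3]; exact dvd_mul_right _ _
      exact (Nat.Coprime.coprime_dvd_left a1 (Nat.Coprime.coprime_dvd_right b2 hc)).symm
  have h2 : (cn F F').range.relIndex (df (sD σ)).ker ∣
      ((cn k k').range.comap (nmD k' F')).relIndex (df (sD σ)).ker := by
    rw [← AddSubgroup.inf_relIndex_right ((cn k k').range.comap (nmD k' F'))]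
    exact AddSubgroup.relIndex_dvd_of_le_left _ h1
  refine h2.trans ?_
  rw [AddSubgroup.relIndex_comap]
  apply relIndex_dvd_right
  rintro _ ⟨D, hD, rfl⟩
  have hD2 := (AddMonoidHom.mem_ker).1 hD
  rw [df_apply, sub_eq_zero] at hD2
  rw [AddMonoidHom.mem_ker, df_apply, sub_eq_zero, ← nmD_sD' h, hD2]

end

end Pool.Agent.H515.CH
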