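import Mathlib

/-! # Algebra of the ambiguous class number formula -/

set_option autoImplicit false

namespace Pool.Agent.H515.CH

section
variable {M I : Type} [AddCommGroup M] [AddCommGroup I]

theorem relIndex_map_map' {A B : Type} [AddCommGroup A] [AddCommGroup B] (f : A →+ B)
    {H K : AddSubgroup A} (hH : f.ker ≤ H) (hK : f.ker ≤ K) :
    (H.map f).relIndex (K.map f) = H.relIndex K := by
  rw [AddSubgroup.relIndex_map_map, sup_eq_left.2 hH, sup_eq_left.2 hK]

theorem relIndex_map_of_inj {A B : Type} [AddCommGroup A] [AddCommGroup B] (f : A →+ B)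
    (hf : Function.Injective f) (H K : AddSubgroup A) :
    (H.map f).relIndex (K.map f) = H.relIndex K :=
  AddSubgroup.relIndex_map_map_of_injective H K hf

/-- first part of the ambiguous class number formula -/
theorem chev_alg (π : M →+ I) (d N : M →+ M) (dI tI : I →+ I)
    (hd : ∀ x, π (d x) = dI (π x)) (ht : ∀ x, π (N x) = tI (π x))
    (h1 : d.range = N.ker) (h2 : dI.range = tI.ker) :
    π.range.relIndex (π.range.comap dI) =
      (π.ker.map N).relIndex (π.ker ⊓ N.range) * (π.range ⊓ dI.ker).relIndex dI.ker := by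
  have e0 : dI.ker ≤ π.range.comap dI := by
    intro x hx
    rw [AddSubgroup.mem_comap, AddMonoidHom.mem_ker.1 hx]
    exact zero_mem _
  have e1 : π.range ≤ π.range.comap dI := by
    rintro _ ⟨y, rfl⟩
    exact ⟨d y, hd y⟩
  have e2 : π.range ⊔ dI.ker ≤ π.range.comap dI := sup_le e1 e0
  rw [← AddSubgroup.relIndex_mul_relIndex π.range (π.range ⊔ dI.ker) _ le_sup_left e2, mul_comm]
  congr 1
  · -- the index of `P ⊔ I^σ`
    rw [← relIndex_map_map' dI le_sup_right e0]
    have e3 : (π.range ⊔ dI.ker).map dI = (d.range).map π := by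
      rw [AddSubgroup.map_sup]
      have : dI.ker.map dI = ⊥ := by
        rw [eq_bot_iff]
        rintro _ ⟨x, hx, rfl⟩
        exact hx
      rw [this, sup_bot_eq]
      ext y
      constructor
      · rintro ⟨_, ⟨x, rfl⟩, rfl⟩
        exact ⟨d x, ⟨x, rfl⟩, hd x⟩
      · rintro ⟨_, ⟨x, rfl⟩, rfl⟩
        exact ⟨π x, ⟨x, rfl⟩, (hd x).symm⟩
    have e4 : (π.range.comap dI).map dI = (π.ker.comap N).map π := by
      ext y
      constructor
      · rintro ⟨x, hx, rfl⟩
        obtain ⟨z, hz⟩ := hx
        refine ⟨z, ?_, hz⟩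
        show π (N z) = 0
        rw [ht, hz]
        have : dI x ∈ tI.ker := by
          rw [← h2]
          exact ⟨x, rfl⟩
        exact this
      · rintro ⟨z, hz, rfl⟩
        have h3 : π z ∈ tI.ker := by
          show tI (π z) = 0
          rw [← ht]
          exact hz
        rw [← h2] at h3
        obtain ⟨x, hx⟩ := h3
        exact ⟨x, ⟨z, hx.symm⟩, hx⟩
    rw [e3, e4, AddSubgroup.relIndex_map_map]
    have e5 : π.ker ≤ π.ker.comap N := by
      intro x hx
      show π (N x) = 0
      rw [ht, AddMonoidHom.mem_ker.1 hx, map_zero]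
    rw [sup_eq_left.2 e5]
    have e6 : N.ker ≤ d.range ⊔ π.ker := by
      rw [h1]
      exact le_sup_left
    have e7 : N.ker ≤ π.ker.comap N := by
      intro x hx
      show π (N x) = 0
      rw [AddMonoidHom.mem_ker.1 hx, map_zero]
    rw [← relIndex_map_map' N e6 e7]
    congr 1
    · rw [AddSubgroup.map_sup, h1]
      have : N.ker.map N = ⊥ := by
        rw [eq_bot_iff]
        rintro _ ⟨x, hx, rfl⟩
        exact hx
      rw [this, bot_sup_eq]
    · rw [AddSubgroup.map_comap_eq, inf_comm]
  · rw [sup_comm, AddSubgroup.relIndex_sup_right, AddSubgroup.inf_relIndex_right]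

/-- second part -/
theorem chev_alg2 (π : M →+ I) (d N : M →+ M) (dI : I →+ I)
    (hd : ∀ x, π (d x) = dI (π x)) (h1 : d.range = N.ker) :
    (d.ker.map π).relIndex (π.range ⊓ dI.ker) = (π.ker.map d).relIndex (π.ker ⊓ N.ker) := by
  have e1 : π.range ⊓ dI.ker = (π.ker.comap d).map π := by
    ext y
    constructor
    · rintro ⟨⟨x, rfl⟩, hx⟩
      refine ⟨x, ?_, rfl⟩
      show π (d x) = 0
      rw [hd]
      exact hx
    · rintro ⟨x, hx, rfl⟩
      refine ⟨⟨x, rfl⟩, ?_⟩
      show dI (π x) = 0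
      rw [← hd]
      exact hx
  have e2 : π.ker ≤ π.ker.comap d := by
    intro x hx
    show π (d x) = 0
    rw [hd, AddMonoidHom.mem_ker.1 hx, map_zero]
  have e3 : d.ker ≤ π.ker.comap d := by
    intro x hx
    show π (d x) = 0
    rw [AddMonoidHom.mem_ker.1 hx, map_zero]
  rw [e1, AddSubgroup.relIndex_map_map, sup_eq_left.2 e2,
    ← relIndex_map_map' d (le_sup_left : d.ker ≤ d.ker ⊔ π.ker) e3]
  congr 1
  · rw [AddSubgroup.map_sup]
    have : d.ker.map d = ⊥ := by
      rw [eq_bot_iff]
      rintro _ ⟨x, hx, rfl⟩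
      exact hx
    rw [this, bot_sup_eq]
  · rw [AddSubgroup.map_comap_eq, h1, inf_comm]

end
end Pool.Agent.H515.CH
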