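import Pool.Agent.H515.Lay4
import Pool.Graph.R_pool_sql_team_seeded_3997aac3.Q14.AR.Cheb

/-! # Primes whose Frobenius generates a cyclic normal subgroup -/

set_option autoImplicit false
set_option linter.unusedSectionVars false
set_option linter.deprecated false

namespace Pool.Agent.H515.CH

open NumberField IsDedekindDomain Pool.Agent.Q5.BR Pool.Agent.Q92.AR Pool.Agent.Q106.AR
open Pool.Agent.Q280.AR (under_under rdeg_tower)

/-- two primes of `ℤ` above the same prime number are equal -/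
theorem rat_prime_unique {p : ℕ} (hp : p.Prime) {v w : HeightOneSpectrum (𝓞 ℚ)}
    (hv : (p : 𝓞 ℚ) ∈ v.asIdeal) (hw : (p : 𝓞 ℚ) ∈ w.asIdeal) : v = w := by
  have key : ∀ {v w : HeightOneSpectrum (𝓞 ℚ)}, (p : 𝓞 ℚ) ∈ v.asIdeal →
      (p : 𝓞 ℚ) ∈ w.asIdeal → ∀ x : 𝓞 ℚ, x ∈ v.asIdeal → x ∈ w.asIdeal := by
    intro v w hv hw x hx
    obtain ⟨a, rfl⟩ : ∃ a : ℤ, (a : 𝓞 ℚ) = x := by
      refine ⟨Rat.ringOfIntegersEquiv x, ?_⟩
      apply Rat.ringOfIntegersEquiv.injective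
      rw [map_intCast]
      simp
    by_cases hpa : (p : ℤ) ∣ a
    · obtain ⟨b, rfl⟩ := hpa
      rw [Int.cast_mul, Int.cast_natCast]
      exact Ideal.mul_mem_right _ _ hw
    · exfalso
      have hcop : IsCoprime (p : ℤ) a :=
        (Prime.coprime_iff_not_dvd (Nat.prime_iff_prime_int.1 hp)).2 hpa
      obtain ⟨r, s, hrs⟩ := hcop
      apply v.isPrime.ne_top
      rw [Ideal.eq_top_iff_one]
      have h1 : ((r * p + s * a : ℤ) : 𝓞 ℚ) ∈ v.asIdeal := by
        rw [Int.cast_add, Int.cast_mul, Int.cast_mul, Int.cast_natCast]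
        exact add_mem (Ideal.mul_mem_left _ _ hv) (Ideal.mul_mem_left _ _ hx)
      rw [hrs, Int.cast_one] at h1
      exact h1
  apply HeightOneSpectrum.ext
  ext x
  exact ⟨key hv hw x, key hw hv x⟩

/-- each prime contains a prime number -/
theorem exists_prime_in {F : Type} [Field F] [NumberField F] (v : HeightOneSpectrum (𝓞 F)) :
    ∃ p : ℕ, p.Prime ∧ (p : 𝓞 F) ∈ v.asIdeal := by
  have key : ∀ n : ℕ, n ≠ 0 → (n : 𝓞 F) ∈ v.asIdeal → ∃ p : ℕ, p.Prime ∧ (p : 𝓞 F) ∈ v.asIdeal := by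
    intro n
    induction n using Nat.strong_induction_on with
    | _ n ih =>
      intro hn hv
      have hn1 : n ≠ 1 := by
        rintro rfl
        apply v.isPrime.ne_top
        rw [Ideal.eq_top_iff_one]
        rw [Nat.cast_one] at hv
        exact hv
      obtain ⟨q, hq, c, rfl⟩ := Nat.exists_prime_and_dvd hn1
      rw [Nat.cast_mul] at hv
      rcases v.isPrime.mem_or_mem hv with h | h
      · exact ⟨q, hq, h⟩
      · have hc0 : c ≠ 0 := right_ne_zero_of_mul hn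
        exact ih c (by nlinarith [hq.two_le, Nat.pos_of_ne_zero hc0]) hc0 h
  exact key _ (fun h => v.ne_bot (Ideal.absNorm_eq_zero_iff.1 h)) (Ideal.absNorm_mem v.asIdeal)

section
variable {k M : Type} [Field k] [NumberField k] [Field M] [NumberField M] [Algebra k M]
  [IsGalois ℚ M] [IsGalois ℚ k]

theorem frob_inert {g : M ≃ₐ[ℚ] M} (hg : ∀ x : k, g (algebraMap k M x) = algebraMap k M x)
    (ho : orderOf g = Module.finrank k M) {v : HeightOneSpectrum (𝓞 ℚ)} (hu : Unramified M v)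
    (hF : IsFrobenius v g) {w : HeightOneSpectrum (𝓞 M)} (hw : w.under (𝓞 ℚ) = v) :
    ld k w = Module.finrank k M := by
  have t : IsScalarTower ℚ k M := inferInstance
  have h1 : orderOf g = rdeg ℚ w := Pool.Agent.Q225.AR.fr4 ℚ M w g (by rw [hw]; exact hu)
    (by rw [hw]; exact hF)
  have h2 : ri ℚ w = 1 := ri_eq_one hu hw
  have hres : AlgEquiv.restrictNormal g k = 1 := by
    ext x
    apply (algebraMap k M).injective
    rw [AlgEquiv.restrictNormal_commutes, hg]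
    rfl
  have h3 := Pool.Agent.Q225.AR.fr1 ℚ k M v g hF
  rw [hres] at h3
  have hwk : (w.under (𝓞 k)).under (𝓞 ℚ) = v := by rw [under_under ℚ k M w, hw]
  have h4 : orderOf (1 : k ≃ₐ[ℚ] k) = rdeg ℚ (w.under (𝓞 k)) :=
    Pool.Agent.Q225.AR.fr4 ℚ k _ _ (by rw [hwk]; exact hu.sub) (by rw [hwk]; exact h3)
  rw [orderOf_one] at h4
  have h5 : ri ℚ (w.under (𝓞 k)) = 1 := ri_eq_one (v := v) hu.sub hwk
  have h6 := ld_tower ℚ k M w
  unfold ld at h6 ⊢
  rw [h2, ← h4, h5, ← h1, ho] at h6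
  omega

theorem exists_good {g : M ≃ₐ[ℚ] M} (hg : ∀ x : k, g (algebraMap k M x) = algebraMap k M x)
    (ho : orderOf g = Module.finrank k M) (B0 : ℕ) : ∃ p : ℕ, p.Prime ∧ B0 < p ∧
      ∀ w : HeightOneSpectrum (𝓞 M), (p : 𝓞 M) ∈ w.asIdeal → ld k w = Module.finrank k M := by
  have hfin : {v : HeightOneSpectrum (𝓞 ℚ) | ((B0.factorial : ℕ) : 𝓞 ℚ) ∈ v.asIdeal}.Finite :=
    Pool.Agent.Q125.AR.finite_dvd (Nat.factorial_ne_zero B0)
  obtain ⟨v, hvB, hu, hF⟩ := Pool.Agent.Q14.AR.cheb ℚ M g _ hfin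
  obtain ⟨p, hp, hpv⟩ := exists_prime_in v
  refine ⟨p, hp, ?_, ?_⟩
  · by_contra hle
    apply hvB
    obtain ⟨c, hc⟩ := Nat.dvd_factorial hp.pos (not_lt.1 hle)
    change ((B0.factorial : ℕ) : 𝓞 ℚ) ∈ v.asIdeal
    rw [hc, Nat.cast_mul]
    exact Ideal.mul_mem_right _ _ hpv
  · intro w hw
    apply frob_inert hg ho hu hF
    exact rat_prime_unique hp (mem_under.2 hw) hpv

end

end Pool.Agent.H515.CH
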