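import Pool.Agent.H515.Cn
import Pool.Agent.H515.ChAlg

/-! # Chevalley's ambiguous class number formula -/

set_option autoImplicit false
set_option linter.unusedSectionVars false
set_option linter.deprecated false

namespace Pool.Agent.H515.CH

open NumberField IsDedekindDomain Pool.Agent.Q5.BR Pool.Agent.Q92.AR Pool.Agent.Q106.AR
open Pool.Agent.Q182.AR (upA nuA upA_injective tr_sE fixed_up resE resE_isRes)

section
variable {F E : Type} [Field F] [NumberField F] [Field E] [NumberField E] [Algebra F E]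

/-- the units of the ring of integers -/
noncomputable abbrev UU (E : Type) [Field E] [NumberField E] : AddSubgroup (Additive Eˣ) :=
  (prinHom (F := E)).ker

/-- the principal divisors -/
noncomputable abbrev PP (E : Type) [Field E] [NumberField E] : AddSubgroup (Dv E) :=
  (prinHom (F := E)).range

/-- the divisors whose class is fixed -/
noncomputable abbrev AA (σ : E ≃ₐ[F] E) : AddSubgroup (Dv E) := (PP E).comap (df (sD σ))

theorem prinHom_sE (σ : E ≃ₐ[F] E) (x : Additive Eˣ) : prinHom (sE σ x) = sD σ (prinHom x) :=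
  Pool.Agent.Q149.AR.prin_sE σ x

theorem prinHom_df (σ : E ≃ₐ[F] E) (x : Additive Eˣ) :
    prinHom (df (sE σ) x) = df (sD σ) (prinHom x) := by
  rw [df_apply, df_apply, map_sub, prinHom_sE]

theorem prinHom_tr (σ : E ≃ₐ[F] E) (n : ℕ) (x : Additive Eˣ) :
    prinHom (tr (sE σ) n x) = tr (sD σ) n (prinHom x) :=
  Pool.Agent.Q149.AR.tr_comm (prinHom (F := E)) (sE σ) (sD σ) (prinHom_sE σ) n x

/-- Hilbert 90 -/
theorem hilb90 [IsGalois F E] (σ : E ≃ₐ[F] E) (hσ : ∀ g : E ≃ₐ[F] E, g ∈ Subgroup.zpowers σ) :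
    (df (sE σ)).range = (tr (sE σ) (Module.finrank F E)).ker := by
  apply le_antisymm
  · rintro _ ⟨x, rfl⟩
    exact Pool.Agent.Q150.AR.tr_df _ _ (Pool.Agent.Q182.AR.sE_pow_finrank σ) x
  · intro x hx
    rw [AddMonoidHom.mem_ker, tr_sE σ hσ] at hx
    have h1 : nuA F E x = 0 := by
      apply upA_injective (F := F) (E := E)
      rw [hx, map_zero]
    have hnorm : Algebra.norm F (((x : Additive Eˣ).toMul : Eˣ) : E) = 1 := by
      have h2 := congrArg (fun z : Additive Fˣ => ((z.toMul : Fˣ) : F)) h1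
      exact h2
    have hcyc : IsCyclic (E ≃ₐ[F] E) := ⟨σ, hσ⟩
    obtain ⟨y, hy⟩ := groupCohomology.exists_div_of_norm_eq_one hσ hnorm
    refine ⟨Additive.ofMul y⁻¹, ?_⟩
    apply Additive.toMul.injective
    apply Units.ext
    rw [← hy]
    show ((Units.map (σ : E →* E) y⁻¹ / y⁻¹ : Eˣ) : E) = _
    simp [div_eq_mul_inv, mul_comm]

/-- the divisors of `E` have no `H¹` -/
theorem h1Dv [IsGalois F E] (σ : E ≃ₐ[F] E) (hσ : ∀ g : E ≃ₐ[F] E, g ∈ Subgroup.zpowers σ) :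
    (df (sD σ)).range = (tr (sD σ) (Module.finrank F E)).ker := by
  classical
  apply le_antisymm
  · rintro _ ⟨x, rfl⟩
    exact Pool.Agent.Q150.AR.tr_df _ _ (Pool.Agent.Q182.AR.sD_pow_finrank σ) x
  · intro D hD
    obtain ⟨-, -, -, -, -, -, s7⟩ := all_SD F E σ hσ
    let T : Set (HeightOneSpectrum (𝓞 F)) :=
      (fun w : HeightOneSpectrum (𝓞 E) => w.under (𝓞 F)) '' (D.support : Set _)
    have hT : T.Finite := D.support.finite_toSet.image _
    have hDT : D ∈ SupE F E T := by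
      intro w hw
      by_contra h
      exact hw ⟨w, Finset.mem_coe.2 (Finsupp.mem_support_iff.2 h), rfl⟩
    obtain ⟨-, h1⟩ := s7 T hT (resE (sD σ) (SupE F E T)
      fun D hD => Pool.Agent.Q182.AR.sD_mem σ T hD) (resE_isRes _ _ _)
    unfold q1 at h1
    rw [AddSubgroup.relIndex_eq_one] at h1
    have h2 : (⟨D, hDT⟩ : SupE F E T) ∈ (tr (resE (sD σ) (SupE F E T)
        fun D hD => Pool.Agent.Q182.AR.sD_mem σ T hD) (Module.finrank F E)).ker := by
      rw [AddMonoidHom.mem_ker]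
      apply Subtype.ext
      rw [Pool.Agent.Q225.AR.isRes_tr (resE_isRes _ _ _)]
      exact hD
    obtain ⟨D', hD'⟩ := h1 h2
    refine ⟨(D' : Dv E), ?_⟩
    have h3 := congrArg Subtype.val hD'
    exact h3

theorem ker_df_sE [IsGalois F E] (σ : E ≃ₐ[F] E) (hσ : ∀ g : E ≃ₐ[F] E, g ∈ Subgroup.zpowers σ) :
    (df (sE σ)).ker = (upA F E).range := by
  ext x
  constructor
  · intro hx
    rw [AddMonoidHom.mem_ker, df_apply, sub_eq_zero] at hx
    exact fixed_up σ hσ x hx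
  · rintro ⟨c, rfl⟩
    rw [AddMonoidHom.mem_ker, df_apply, sub_eq_zero]
    apply Additive.toMul.injective
    apply Units.ext
    exact σ.commutes _

theorem cn_prinHom (c : Additive Fˣ) : prinHom (upA F E c) = cn F E (prinHom c) :=
  (cn_prin c.toMul).symm

theorem sD_cn (σ : E ≃ₐ[F] E) (D : Dv F) : sD σ (cn F E D) = cn F E D := by
  ext w
  obtain ⟨w', rfl⟩ := Pool.Agent.Q225.AR.act_surj σ w
  rw [Pool.Agent.Q225.AR.sD_act, cn_apply, cn_apply, ri_act, Pool.Agent.Q225.AR.under_act]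

theorem prinHom_upA_eq_zero (c : Additive Fˣ) : upA F E c ∈ UU E ↔ c ∈ UU F := by
  rw [AddMonoidHom.mem_ker, AddMonoidHom.mem_ker, cn_prinHom]
  constructor
  · intro h
    exact cn_injective (by rw [h, map_zero])
  · intro h
    rw [h, map_zero]

theorem map_cn_PP : (PP F).map (cn F E) = ((upA F E).range).map (prinHom (F := E)) := by
  ext D
  constructor
  · rintro ⟨_, ⟨c, rfl⟩, rfl⟩
    exact ⟨upA F E c, ⟨c, rfl⟩, cn_prinHom c⟩
  · rintro ⟨_, ⟨c, rfl⟩, rfl⟩
    exact ⟨_, ⟨c, rfl⟩, (cn_prinHom c).symm⟩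

/-- the norm index of units -/
noncomputable def ni (F E : Type) [Field F] [NumberField F] [Field E] [NumberField E] [Algebra F E] :
    ℕ := (nuA F E).range.relIndex (UU F)

/-- the index of the extended divisors in the ambiguous divisors -/
noncomputable def ai (σ : E ≃ₐ[F] E) : ℕ := (cn F E).range.relIndex ((df (sD σ)).ker)

theorem chevalley_aux [IsGalois F E] (σ : E ≃ₐ[F] E)
    (hσ : ∀ g : E ≃ₐ[F] E, g ∈ Subgroup.zpowers σ) : ni F E ≠ 0 ∧
    (PP E).relIndex (AA σ) * ni F E * Module.finrank F E =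
      2 ^ Nat.card (RealRam F E) * ((PP F).index * ai σ) := by
  have hU : ∀ x ∈ UU E, sE σ x ∈ UU E := by
    intro x hx
    rw [AddMonoidHom.mem_ker] at hx ⊢
    rw [prinHom_sE, hx, map_zero]
  set τ := resE (sE σ) (UU E) hU with hτdef
  have hτ : IsRes (sE σ) τ := resE_isRes _ _ _
  obtain ⟨hq0, hq1, hq⟩ := all_UH F E σ hσ (UU E) τ hτ (fun u hu => hu)
    ⟨1, one_ne_zero, fun x hx => by rw [pow_one]; exact hx⟩
  set n := Module.finrank F E with hn
  have H1 := hilb90 σ hσ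
  have H2 := h1Dv σ hσ
  have A1 := chev_alg (prinHom (F := E)) (df (sE σ)) (tr (sE σ) n) (df (sD σ)) (tr (sD σ) n)
    (prinHom_df σ) (prinHom_tr σ n) H1 H2
  have A2 := chev_alg2 (prinHom (F := E)) (df (sE σ)) (tr (sE σ) n) (df (sD σ)) (prinHom_df σ) H1
  -- translate `q0`, `q1`
  have B0 : q0 τ n = ((UU E).map (tr (sE σ) n)).relIndex (UU E ⊓ (df (sE σ)).ker) := by
    unfold q0
    rw [← relIndex_map_of_inj (UU E).subtype Subtype.val_injective]
    congr 1
    · ext x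
      constructor
      · rintro ⟨_, ⟨u, rfl⟩, rfl⟩
        exact ⟨u, u.2, (Pool.Agent.Q225.AR.isRes_tr hτ n u).symm⟩
      · rintro ⟨u, hu, rfl⟩
        exact ⟨_, ⟨⟨u, hu⟩, rfl⟩, Pool.Agent.Q225.AR.isRes_tr hτ n ⟨u, hu⟩⟩
    · ext x
      constructor
      · rintro ⟨u, hu, rfl⟩
        exact ⟨u.2, congrArg Subtype.val (hu : df τ u = 0)⟩
      · rintro ⟨hx1, hx2⟩
        exact ⟨⟨x, hx1⟩, Subtype.ext hx2, rfl⟩
  have B1 : q1 τ n = ((UU E).map (df (sE σ))).relIndex (UU E ⊓ (tr (sE σ) n).ker) := by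
    unfold q1
    rw [← relIndex_map_of_inj (UU E).subtype Subtype.val_injective]
    congr 1
    · ext x
      constructor
      · rintro ⟨_, ⟨u, rfl⟩, rfl⟩
        exact ⟨u, u.2, rfl⟩
      · rintro ⟨u, hu, rfl⟩
        exact ⟨_, ⟨⟨u, hu⟩, rfl⟩, rfl⟩
    · ext x
      constructor
      · rintro ⟨u, hu, rfl⟩
        refine ⟨u.2, ?_⟩
        have h1 := Pool.Agent.Q225.AR.isRes_tr hτ n u
        rw [(hu : tr τ n u = 0)] at h1
        exact h1.symm
      · rintro ⟨hx1, hx2⟩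
        refine ⟨⟨x, hx1⟩, Subtype.ext ?_, rfl⟩
        rw [Pool.Agent.Q225.AR.isRes_tr hτ n ⟨x, hx1⟩]
        exact hx2
  have Hker := ker_df_sE (F := F) σ hσ
  have Htr : ∀ x, tr (sE σ) n x = upA F E (nuA F E x) := tr_sE σ hσ
  -- the norm index
  have C1 : UU E ⊓ (df (sE σ)).ker = (UU F).map (upA F E) := by
    rw [Hker]
    ext x
    constructor
    · rintro ⟨h1, ⟨c, rfl⟩⟩
      exact ⟨c, (prinHom_upA_eq_zero c).1 h1, rfl⟩
    · rintro ⟨c, hc, rfl⟩
      exact ⟨(prinHom_upA_eq_zero c).2 hc, ⟨c, rfl⟩⟩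
  have C2 : UU E ⊓ (tr (sE σ) n).range = (UU F ⊓ (nuA F E).range).map (upA F E) := by
    ext x
    constructor
    · rintro ⟨h1, ⟨y, rfl⟩⟩
      rw [Htr] at h1 ⊢
      exact ⟨_, ⟨(prinHom_upA_eq_zero _).1 h1, ⟨y, rfl⟩⟩, rfl⟩
    · rintro ⟨_, ⟨hc, ⟨y, rfl⟩⟩, rfl⟩
      exact ⟨(prinHom_upA_eq_zero _).2 hc, ⟨y, Htr y⟩⟩
  have C3 : (UU E ⊓ (tr (sE σ) n).range).relIndex (UU E ⊓ (df (sE σ)).ker) = ni F E := by
    rw [C1, C2, relIndex_map_of_inj _ upA_injective, inf_comm, AddSubgroup.inf_relIndex_right]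
    rfl
  have C4 : ((UU E).map (tr (sE σ) n)).relIndex (UU E ⊓ (tr (sE σ) n).range) * ni F E = q0 τ n := by
    rw [B0, ← C3]
    apply AddSubgroup.relIndex_mul_relIndex
    · refine le_inf ?_ ?_
      · rintro _ ⟨u, hu, rfl⟩
        rw [AddMonoidHom.mem_ker, prinHom_tr, (hu : prinHom u = 0), map_zero]
      · rintro _ ⟨u, hu, rfl⟩
        exact ⟨u, rfl⟩
    · rw [C1, C2]
      exact AddSubgroup.map_mono inf_le_left
  -- ambiguous divisors
  have D1 : ((PP F).map (cn F E)).relIndex (PP E ⊓ (df (sD σ)).ker) = q1 τ n := by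
    rw [B1, ← A2, Hker, map_cn_PP]
  have D2 : ((PP F).map (cn F E)).relIndex (PP E ⊓ (df (sD σ)).ker) *
      (PP E ⊓ (df (sD σ)).ker).relIndex ((df (sD σ)).ker) =
      ((PP F).map (cn F E)).relIndex ((df (sD σ)).ker) := by
    apply AddSubgroup.relIndex_mul_relIndex _ _ _ _ inf_le_right
    rintro _ ⟨_, ⟨c, rfl⟩, rfl⟩
    refine ⟨⟨upA F E c, cn_prinHom c⟩, ?_⟩
    show df (sD σ) (cn F E (prinHom c)) = 0
    rw [df_apply, sD_cn, sub_self]
  have D3 : ((PP F).map (cn F E)).relIndex ((df (sD σ)).ker) = (PP F).index * ai σ := by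
    have h1 : ((PP F).map (cn F E)).relIndex (cn F E).range = (PP F).index := by
      have h2 : (cn F E).range = (⊤ : AddSubgroup (Dv F)).map (cn F E) :=
        AddMonoidHom.range_eq_map _
      rw [h2, relIndex_map_of_inj _ cn_injective, AddSubgroup.relIndex_top_right]
    rw [← h1]
    unfold ai
    symm
    apply AddSubgroup.relIndex_mul_relIndex
    · rintro _ ⟨c, -, rfl⟩
      exact ⟨c, rfl⟩
    · rintro _ ⟨c, rfl⟩
      rw [AddMonoidHom.mem_ker, df_apply, sD_cn, sub_self]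
  refine ⟨fun h0 => hq0 (by rw [← C4, h0, mul_zero]), ?_⟩
  rw [A1]
  have hq1' : 0 < q1 τ n := Nat.pos_of_ne_zero hq1
  rw [D1] at D2
  rw [← D3, ← D2]
  calc _ = (((UU E).map (tr (sE σ) n)).relIndex (UU E ⊓ (tr (sE σ) n).range) * ni F E) * n *
        (PP E ⊓ (df (sD σ)).ker).relIndex ((df (sD σ)).ker) := by ring
    _ = (q0 τ n * n) * (PP E ⊓ (df (sD σ)).ker).relIndex ((df (sD σ)).ker) := by rw [C4]
    _ = _ := by rw [hq]; ring

/-- **The ambiguous class number formula.** -/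
theorem chevalley [IsGalois F E] (σ : E ≃ₐ[F] E) (hσ : ∀ g : E ≃ₐ[F] E, g ∈ Subgroup.zpowers σ) :
    (PP E).relIndex (AA σ) * ni F E * Module.finrank F E =
      2 ^ Nat.card (RealRam F E) * ((PP F).index * ai σ) := (chevalley_aux σ hσ).2

theorem ni_ne [IsGalois F E] (σ : E ≃ₐ[F] E) (hσ : ∀ g : E ≃ₐ[F] E, g ∈ Subgroup.zpowers σ) :
    ni F E ≠ 0 := (chevalley_aux σ hσ).1

end
end Pool.Agent.H515.CH
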