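import Pool.Agent.H515.Sq
import Pool.Graph.R_pool_sql_team_seeded_3997aac3.Q149.GK.Cls

/-! # Divisor classes and the class group -/

set_option autoImplicit false
set_option linter.unusedSectionVars false
set_option linter.deprecated false

namespace Pool.Agent.H515.CH

open NumberField IsDedekindDomain Pool.Agent.Q5.BR Pool.Agent.Q92.AR Pool.Agent.Q106.AR
open Pool.Agent.Q149.GK (fi pu count_fi eq_of_count)

section
variable (F : Type) [Field F] [NumberField F]

/-- the class of a divisor -/
noncomputable def clHom : Dv F →+ Additive (ClassGroup (𝓞 F)) :=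
  (MonoidHom.toAdditive (ClassGroup.mk F)).comp fi

variable {F}

theorem clHom_apply (D : Dv F) : clHom F D = Additive.ofMul (ClassGroup.mk F ((fi D).toMul)) := rfl

theorem clHom_surjective : Function.Surjective (clHom F) := by
  classical
  intro c
  suffices h : ∀ C : ClassGroup (𝓞 F), ∃ D, clHom F D = Additive.ofMul C from h c.toMul
  intro C
  refine ClassGroup.induction F (fun I => ?_) C
  have hf := FractionalIdeal.finite_factors (K := F)
    (I : FractionalIdeal (nonZeroDivisors (𝓞 F)) F)
  rw [Filter.eventually_cofinite] at hf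
  refine ⟨Finsupp.ofSupportFinite _ hf, ?_⟩
  rw [clHom_apply]
  congr 2
  refine eq_of_count _ _ fun v => ?_
  rw [count_fi]
  rfl

theorem fi_prin (x : Fˣ) : (fi (prin x)).toMul = toPrincipalIdeal (𝓞 F) F x := by
  refine eq_of_count _ _ fun v => ?_
  rw [count_fi, prin_apply, coe_toPrincipalIdeal]

theorem ker_clHom : (clHom F).ker = PP F := by
  ext D
  rw [AddMonoidHom.mem_ker, clHom_apply]
  constructor
  · intro h
    have h1 : ClassGroup.mk F ((fi D).toMul) = 1 := h
    rw [ClassGroup.mk_eq_one_iff] at h1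
    obtain ⟨x, hx⟩ := (Submodule.isPrincipal_iff _).1 h1
    have hx0 : x ≠ 0 := by
      rintro rfl
      rw [Submodule.span_zero_singleton] at hx
      have h2 : (((fi D).toMul : Pool.Agent.Q149.GK.FI F) :
          FractionalIdeal (nonZeroDivisors (𝓞 F)) F) = 0 := by
        rw [← FractionalIdeal.coeToSubmodule_eq_bot]
        exact hx
      exact ((fi D).toMul).ne_zero h2
    refine ⟨Additive.ofMul (Units.mk0 x hx0), ?_⟩
    ext v
    change prin (Units.mk0 x hx0) v = D v
    rw [← count_fi D v, ← count_fi (prin (Units.mk0 x hx0)) v, fi_prin]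
    congr 1
    apply FractionalIdeal.coeToSubmodule_injective
    change (((toPrincipalIdeal (𝓞 F) F (Units.mk0 x hx0) : Pool.Agent.Q149.GK.FI F) :
      FractionalIdeal (nonZeroDivisors (𝓞 F)) F) : Submodule (𝓞 F) F) =
      ((((fi D).toMul : Pool.Agent.Q149.GK.FI F) :
      FractionalIdeal (nonZeroDivisors (𝓞 F)) F) : Submodule (𝓞 F) F)
    rw [hx, coe_toPrincipalIdeal, FractionalIdeal.coe_spanSingleton]
    rfl
  · rintro ⟨x, rfl⟩
    have e : (fi (prinHom x)).toMul = toPrincipalIdeal (𝓞 F) F x.toMul := fi_prin x.toMul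
    rw [e]
    have h1 : ClassGroup.mk F (toPrincipalIdeal (𝓞 F) F x.toMul) = 1 := by
      rw [ClassGroup.mk_eq_one_iff, coe_toPrincipalIdeal]
      exact ⟨((x.toMul : Fˣ) : F), FractionalIdeal.coe_spanSingleton _ _⟩
    rw [h1]
    rfl

theorem index_PP : (PP F).index = classNumber F := by
  rw [← ker_clHom, AddSubgroup.index_ker, AddMonoidHom.range_eq_top.2 clHom_surjective]
  rw [Nat.card_congr (AddSubgroup.topEquiv.toEquiv)]
  rw [classNumber, ← Nat.card_eq_fintype_card]
  rfl

theorem index_PP_ne : (PP F).index ≠ 0 := by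
  rw [index_PP]
  exact (classNumber_pos F).ne'

end

end Pool.Agent.H515.CH
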