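import Mathlib

/-! # Primary components and norm-like homomorphisms -/

set_option autoImplicit false
set_option linter.unusedSectionVars false
set_option linter.deprecated false

namespace Pool.Agent.H515.CH

section
variable {A B A' B' : Type} [CommGroup A] [CommGroup B] [CommGroup A'] [CommGroup B'] [Finite A]
  {p : ℕ} [hp : Fact p.Prime]

theorem eq_one_of_ker {N : A →* B} (hk : ¬ p ∣ Nat.card N.ker) {x : A} {l : ℕ}
    (hx : x ^ p ^ l = 1) (hN : N x = 1) : x = 1 := by
  have h1 : (⟨x, hN⟩ : N.ker) ^ Nat.card N.ker = 1 := pow_card_eq_one'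
  have h2 : x ^ Nat.card N.ker = 1 := congrArg Subtype.val h1
  have h3 : (p ^ l).Coprime (Nat.card N.ker) :=
    Nat.Coprime.pow_left l ((Nat.Prime.coprime_iff_not_dvd hp.out).2 hk)
  have h4 : orderOf x ∣ p ^ l := orderOf_dvd_of_pow_eq_one hx
  have h5 : orderOf x ∣ Nat.card N.ker := orderOf_dvd_of_pow_eq_one h2
  exact orderOf_eq_one_iff.1 (Nat.eq_one_of_dvd_coprimes h3 h4 h5)

theorem j_N {N : A →* B} {j : B →* A} {m : ℕ} (hNj : ∀ b, N (j b) = b ^ m)
    (hk : ¬ p ∣ Nat.card N.ker) {x : A} {l : ℕ} (hx : x ^ p ^ l = 1) : j (N x) = x ^ m := by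
  have h1 : (j (N x) * (x ^ m)⁻¹) ^ p ^ l = 1 := by
    rw [mul_pow, inv_pow, ← pow_mul, mul_comm m, pow_mul, hx, one_pow, inv_one, mul_one, ← map_pow,
      ← map_pow, hx, map_one, map_one]
  have h2 : N (j (N x) * (x ^ m)⁻¹) = 1 := by
    rw [map_mul, hNj, map_inv, map_pow, mul_inv_cancel]
  exact mul_inv_eq_one.1 (eq_one_of_ker hk h1 h2)

theorem coprime_order {G : Type} [Group G] {x : G} {l c : ℕ} (hx : x ^ p ^ l = 1)
    (hc : ¬ p ∣ c) : c.Coprime (orderOf x) := by
  have h1 : c.Coprime (p ^ l) :=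
    Nat.Coprime.pow_right l ((Nat.Prime.coprime_iff_not_dvd hp.out).2 hc).symm
  exact Nat.Coprime.coprime_dvd_right (orderOf_dvd_of_pow_eq_one hx) h1

/-- elements of `p`-power order can be lifted -/
theorem lift_prim (π : A →* A') (hπ : Function.Surjective π) {x' : A'} {l : ℕ}
    (hx : x' ^ p ^ l = 1) : ∃ x : A, π x = x' ∧ ∃ r : ℕ, x ^ p ^ r = 1 := by
  obtain ⟨y, rfl⟩ := hπ x'
  obtain ⟨a, c, hc, hac⟩ := Nat.exists_eq_pow_mul_and_not_dvd (n := Nat.card A)
    Nat.card_pos.ne' p hp.out.ne_one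
  obtain ⟨u, hu⟩ := exists_pow_eq_self_of_coprime (coprime_order hx hc)
  refine ⟨(y ^ c) ^ u, ?_, a, ?_⟩
  · rw [map_pow, map_pow, hu]
  · rw [← pow_mul, mul_comm u, pow_mul, ← pow_mul y, mul_comm c, ← hac, pow_card_eq_one', one_pow]

/-- the transfer isomorphism of primary components -/
theorem prim_iso (N : A →* B) (j : B →* A) (m : ℕ) (hNj : ∀ b, N (j b) = b ^ m)
    (hm : m.Coprime p) (hk : ¬ p ∣ Nat.card N.ker) (πA : A →* A') (hπA : Function.Surjective πA)
    (πB : B →* B') (N' : A' →* B') (j' : B' →* A') (hN : ∀ a, N' (πA a) = πB (N a))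
    (hj : ∀ b, j' (πB b) = πA (j b)) (hNj' : ∀ b, N' (j' b) = b ^ m) :
    ∃ e : CommGroup.primaryComponent A' p ≃* CommGroup.primaryComponent B' p,
      ∀ x, ((e x : CommGroup.primaryComponent B' p) : B') = N' (x : A') := by
  have hmp : ¬ p ∣ m := fun h => by
    have := (Nat.Prime.coprime_iff_not_dvd hp.out).1 hm.symm
    exact this h
  have key : ∀ (x' : A') (l : ℕ), x' ^ p ^ l = 1 → j' (N' x') = x' ^ m := by
    intro x' l hx
    obtain ⟨x, rfl, r, hr⟩ := lift_prim πA hπA hx
    rw [hN, hj, j_N hNj hk hr, map_pow]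
  let f : CommGroup.primaryComponent A' p →* CommGroup.primaryComponent B' p :=
    (N'.comp (CommGroup.primaryComponent A' p).subtype).codRestrict _ (by
      rintro ⟨x, l, hx⟩
      refine ⟨l, ?_⟩
      change N' x ^ p ^ l = 1
      rw [← map_pow, hx, map_one])
  have hf : Function.Bijective f := by
    constructor
    · rw [injective_iff_map_eq_one]
      rintro ⟨x, l, hx⟩ h
      apply Subtype.ext
      have h1 : N' x = 1 := congrArg Subtype.val h
      have h2 := key x l hx
      rw [h1, map_one] at h2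
      have h3 : orderOf x ∣ m := orderOf_dvd_of_pow_eq_one h2.symm
      have h4 := coprime_order hx hmp
      exact orderOf_eq_one_iff.1 (Nat.eq_one_of_dvd_coprimes h4 h3 (dvd_refl _))
    · rintro ⟨y, l, hy⟩
      obtain ⟨t, ht⟩ := exists_pow_eq_self_of_coprime (coprime_order hy hmp)
      refine ⟨⟨j' (y ^ t), l, ?_⟩, ?_⟩
      · rw [← map_pow, ← pow_mul, mul_comm, pow_mul, hy, one_pow, map_one]
      · apply Subtype.ext
        change N' (j' (y ^ t)) = y
        rw [hNj', ← pow_mul, mul_comm, pow_mul, ht]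
  exact ⟨MulEquiv.ofBijective f hf, fun x => rfl⟩

/-- the number of elements of order dividing `p` is read off the primary component -/
theorem card_tors {G H : Type} [CommGroup G] [CommGroup H]
    (e : CommGroup.primaryComponent G p ≃* CommGroup.primaryComponent H p) :
    Nat.card {g : G // g ^ p = 1} = Nat.card {h : H // h ^ p = 1} := by
  have key : ∀ (G : Type) [CommGroup G], Nat.card {g : G // g ^ p = 1} =
      Nat.card {g : CommGroup.primaryComponent G p // g ^ p = 1} := by
    intro G _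
    refine Nat.card_congr ⟨fun g => ⟨⟨g.1, 1, by rw [pow_one]; exact g.2⟩, Subtype.ext g.2⟩,
      fun g => ⟨g.1.1, congrArg Subtype.val g.2⟩, fun g => rfl, fun g => rfl⟩
  rw [key G, key H]
  refine Nat.card_congr (e.toEquiv.subtypeEquiv fun g => ?_)
  change g ^ p = 1 ↔ (e g) ^ p = 1
  rw [← map_pow]
  exact (MulEquiv.map_eq_one_iff e).symm

end

end Pool.Agent.H515.CH
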