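import Pool.Agent.H515.Ind
import Pool.Agent.H515.Prim

/-! # Norm and extension of ideal classes; classes of the primes above `p` -/

set_option autoImplicit false
set_option linter.unusedSectionVars false
set_option linter.deprecated false

namespace Pool.Agent.H515.CH

open NumberField IsDedekindDomain Pool.Agent.Q5.BR Pool.Agent.Q92.AR Pool.Agent.Q106.AR

section
variable (E : Type) [Field E] [NumberField E]

/-- divisor classes and ideal classes -/
noncomputable def eqv : DC E ≃+ Additive (ClassGroup (𝓞 E)) :=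
  (QuotientAddGroup.quotientAddEquivOfEq (ker_clHom (F := E)).symm).trans
    (QuotientAddGroup.quotientKerEquivOfSurjective (clHom E) clHom_surjective)

variable {E}

theorem eqv_mk (D : Dv E) : eqv E (QuotientAddGroup.mk D) = clHom E D := rfl

/-- the ideal class of a divisor -/
noncomputable def cls (D : Dv E) : ClassGroup (𝓞 E) := (clHom E D).toMul

theorem cls_surj (c : ClassGroup (𝓞 E)) : ∃ D : Dv E, cls D = c := clHom_surjective (Additive.ofMul c)

theorem cls_add (D D' : Dv E) : cls (D + D') = cls D * cls D' := by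
  unfold cls
  rw [map_add]
  rfl

theorem cls_zsmul (n : ℤ) (D : Dv E) : cls (n • D) = cls D ^ n := by
  unfold cls
  rw [map_zsmul]
  rfl

theorem cls_zero : cls (0 : Dv E) = 1 := by
  unfold cls
  rw [map_zero]
  rfl

end

section
variable (F E : Type) [Field F] [NumberField F] [Field E] [NumberField E] [Algebra F E]

/-- the norm of ideal classes -/
noncomputable def NC : ClassGroup (𝓞 E) →* ClassGroup (𝓞 F) :=
  MonoidHom.toAdditive.symm
    (((eqv F).toAddMonoidHom.comp (nb F E)).comp (eqv E).symm.toAddMonoidHom)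

/-- the extension of ideal classes -/
noncomputable def JC : ClassGroup (𝓞 F) →* ClassGroup (𝓞 E) :=
  MonoidHom.toAdditive.symm
    (((eqv E).toAddMonoidHom.comp (jb F E)).comp (eqv F).symm.toAddMonoidHom)

variable {F E}

theorem NC_cls (D : Dv E) : NC F E (cls D) = cls (nmD F E D) := by
  change (eqv F (nb F E ((eqv E).symm (clHom E D)))).toMul = _
  rw [← eqv_mk, AddEquiv.symm_apply_apply]
  rfl

theorem JC_cls (D : Dv F) : JC F E (cls D) = cls (cn F E D) := by
  change (eqv E (jb F E ((eqv F).symm (clHom F D)))).toMul = _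
  rw [← eqv_mk, AddEquiv.symm_apply_apply]
  rfl

theorem NC_JC (c : ClassGroup (𝓞 F)) : NC F E (JC F E c) = c ^ Module.finrank F E := by
  obtain ⟨D, rfl⟩ := cls_surj c
  rw [JC_cls, NC_cls, nm_cn, ← natCast_zsmul, cls_zsmul, zpow_natCast]

theorem card_ker_NC : Nat.card (NC F E).ker = Nat.card (nb F E).ker := by
  refine Nat.card_congr ?_
  refine ⟨fun x => ⟨(eqv E).symm (Additive.ofMul x.1), ?_⟩,
    fun y => ⟨(eqv E y.1).toMul, ?_⟩, fun x => ?_, fun y => ?_⟩
  · have h1 : (eqv F (nb F E ((eqv E).symm (Additive.ofMul x.1)))).toMul = 1 := x.2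
    have h2 : eqv F (nb F E ((eqv E).symm (Additive.ofMul x.1))) = 0 := h1
    exact (map_eq_zero_iff _ (eqv F).injective).1 h2
  · change (eqv F (nb F E ((eqv E).symm (eqv E y.1)))).toMul = 1
    have h1 : nb F E y.1 = 0 := y.2
    rw [AddEquiv.symm_apply_apply, h1, map_zero]
    rfl
  · apply Subtype.ext
    change (eqv E ((eqv E).symm (Additive.ofMul x.1))).toMul = x.1
    rw [AddEquiv.apply_symm_apply]
    rfl
  · apply Subtype.ext
    change (eqv E).symm (eqv E y.1) = y.1
    rw [AddEquiv.symm_apply_apply]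

/-! ### Primes above `p` -/

/-- the subgroup of the class group generated by the classes of the primes above `p` -/
noncomputable def PS (p : ℕ) (E : Type) [Field E] [NumberField E] : Subgroup (ClassGroup (𝓞 E)) :=
  Subgroup.closure {c : ClassGroup (𝓞 E) | ∃ I : nonZeroDivisors (Ideal (𝓞 E)),
    (I : Ideal (𝓞 E)).IsPrime ∧ ((p : 𝓞 E)) ∈ (I : Ideal (𝓞 E)) ∧ ClassGroup.mk0 I = c}

theorem cls_single (v : HeightOneSpectrum (𝓞 E)) (h : v.asIdeal ∈ nonZeroDivisors (Ideal (𝓞 E))) :
    cls (Finsupp.single v 1) = ClassGroup.mk0 ⟨v.asIdeal, h⟩ := by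
  unfold cls
  rw [clHom_apply, ← ClassGroup.mk_mk0 E]
  change ClassGroup.mk E _ = _
  congr 1
  apply Units.ext
  rw [Pool.Agent.Q149.GK.fi_coe, Finsupp.prod_single_index (by rw [zpow_zero]), zpow_one]
  rfl

theorem cls_single_mem {p : ℕ} {v : HeightOneSpectrum (𝓞 E)} (hv : (p : 𝓞 E) ∈ v.asIdeal) :
    cls (Finsupp.single v 1) ∈ PS p E := by
  have h : v.asIdeal ∈ nonZeroDivisors (Ideal (𝓞 E)) := mem_nonZeroDivisors_of_ne_zero v.ne_bot
  rw [cls_single v h]
  exact Subgroup.subset_closure ⟨⟨v.asIdeal, h⟩, v.isPrime, hv, rfl⟩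

theorem cls_mem {p : ℕ} {D : Dv E} (hD : ∀ v : HeightOneSpectrum (𝓞 E), D v ≠ 0 →
    (p : 𝓞 E) ∈ v.asIdeal) : cls D ∈ PS p E := by
  classical
  have h1 : ∀ (s : Finset (HeightOneSpectrum (𝓞 E))), (∀ v ∈ s, (p : 𝓞 E) ∈ v.asIdeal) →
      cls (∑ v ∈ s, Finsupp.single v (D v)) ∈ PS p E := by
    intro s
    induction s using Finset.induction_on with
    | empty =>
      intro _
      rw [Finset.sum_empty, cls_zero]
      exact one_mem _
    | insert v s hv ih =>
      intro h
      rw [Finset.sum_insert hv, cls_add]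
      refine mul_mem ?_ (ih fun u hu => h u (Finset.mem_insert_of_mem hu))
      have h2 : (Finsupp.single v (D v) : Dv E) = D v • Finsupp.single v 1 := by
        rw [Finsupp.smul_single, smul_eq_mul, mul_one]
      rw [h2, cls_zsmul]
      exact zpow_mem (cls_single_mem (h v (Finset.mem_insert_self _ _))) _
  have h2 := h1 D.support fun v hv => hD v (Finsupp.mem_support_iff.1 hv)
  have h3 : ∑ v ∈ D.support, Finsupp.single v (D v) = D := Finsupp.sum_single D
  rw [h3] at h2
  exact h2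

theorem PS_gen {p : ℕ} {c : ClassGroup (𝓞 E)} (hc : ∃ I : nonZeroDivisors (Ideal (𝓞 E)),
      (I : Ideal (𝓞 E)).IsPrime ∧
      ((p : 𝓞 E)) ∈ (I : Ideal (𝓞 E)) ∧ ClassGroup.mk0 I = c) :
    ∃ v : HeightOneSpectrum (𝓞 E), (p : 𝓞 E) ∈ v.asIdeal ∧ cls (Finsupp.single v 1) = c := by
  obtain ⟨I, hI, hp, hIc⟩ := hc
  have hI0 : (I : Ideal (𝓞 E)) ≠ ⊥ := nonZeroDivisors.coe_ne_zero I
  obtain ⟨v, hv⟩ : ∃ v : HeightOneSpectrum (𝓞 E), v.asIdeal = (I : Ideal (𝓞 E)) :=
    ⟨⟨(I : Ideal (𝓞 E)), hI, hI0⟩, rfl⟩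
  refine ⟨v, by rw [hv]; exact hp, ?_⟩
  have h : v.asIdeal ∈ nonZeroDivisors (Ideal (𝓞 E)) := by rw [hv]; exact I.2
  rw [cls_single v h, ← hIc]
  congr 1
  exact Subtype.ext hv

theorem mem_under {p : ℕ} {w : HeightOneSpectrum (𝓞 E)} :
    (p : 𝓞 F) ∈ (w.under (𝓞 F)).asIdeal ↔ (p : 𝓞 E) ∈ w.asIdeal := by
  change algebraMap (𝓞 F) (𝓞 E) (p : 𝓞 F) ∈ w.asIdeal ↔ _
  rw [map_natCast]

theorem NC_PS (p : ℕ) : PS p E ≤ (PS p F).comap (NC F E) := by
  unfold PS
  rw [Subgroup.closure_le]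
  intro c hc
  obtain ⟨v, hv, rfl⟩ := PS_gen hc
  change NC F E (cls (Finsupp.single v 1)) ∈ PS p F
  rw [NC_cls]
  apply cls_mem
  intro u hu
  rw [nmD_single] at hu
  by_cases h : u = v.under (𝓞 F)
  · rw [h]
    exact mem_under.2 hv
  · exact absurd (Finsupp.single_eq_of_ne h) hu

theorem JC_PS (p : ℕ) : PS p F ≤ (PS p E).comap (JC F E) := by
  unfold PS
  rw [Subgroup.closure_le]
  intro c hc
  obtain ⟨v, hv, rfl⟩ := PS_gen hc
  change JC F E (cls (Finsupp.single v 1)) ∈ PS p E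
  rw [JC_cls]
  apply cls_mem
  intro w hw
  rw [cn_apply] at hw
  by_cases h : w.under (𝓞 F) = v
  · rw [← mem_under (F := F), h]
    exact hv
  · exact absurd (by rw [Finsupp.single_eq_of_ne h, mul_zero]) hw

end

section
variable {F E : Type} [Field F] [NumberField F] [Field E] [NumberField E] [Algebra F E]

/-- the `p`-primary components of the class groups, also modulo the primes above `p` -/
theorem prim_classes {p : ℕ} [Fact p.Prime] (hk : ¬ p ∣ Nat.card (nb F E).ker)
    (hm : (Module.finrank F E).Coprime p) :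
    Nonempty (CommGroup.primaryComponent (ClassGroup (𝓞 E)) p ≃*
      CommGroup.primaryComponent (ClassGroup (𝓞 F)) p) ∧
    Nonempty (CommGroup.primaryComponent (ClassGroup (𝓞 E) ⧸ PS p E) p ≃*
      CommGroup.primaryComponent (ClassGroup (𝓞 F) ⧸ PS p F) p) := by
  have hk' : ¬ p ∣ Nat.card (NC F E).ker := by rw [card_ker_NC]; exact hk
  constructor
  · obtain ⟨e, -⟩ := prim_iso (NC F E) (JC F E) _ NC_JC hm hk' (MonoidHom.id _)
      Function.surjective_id (MonoidHom.id _) (NC F E) (JC F E) (fun _ => rfl) (fun _ => rfl) NC_JC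
    exact ⟨e⟩
  · obtain ⟨e, -⟩ := prim_iso (NC F E) (JC F E) _ NC_JC hm hk' (QuotientGroup.mk' (PS p E))
      (QuotientGroup.mk'_surjective _) (QuotientGroup.mk' (PS p F))
      (QuotientGroup.map _ _ (NC F E) (NC_PS p)) (QuotientGroup.map _ _ (JC F E) (JC_PS p))
      (fun _ => rfl) (fun _ => rfl) (fun b => by
        obtain ⟨b, rfl⟩ := QuotientGroup.mk_surjective b
        change QuotientGroup.mk (NC F E (JC F E b)) = _
        rw [NC_JC]
        rfl)
    exact ⟨e⟩

end

end Pool.Agent.H515.CH
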