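import Pool.Graph.R_pool_sql_team_seeded_3997aac3.Q92.AR.All

/-! # Conorm of divisors, Galois action -/

set_option autoImplicit false
set_option linter.unusedSectionVars false
set_option linter.deprecated false

namespace Pool.Agent.H515.CH

open NumberField IsDedekindDomain Pool.Agent.Q5.BR Pool.Agent.Q92.AR Pool.Agent.Q106.AR

section
variable {F E : Type} [Field F] [NumberField F] [Field E] [NumberField E] [Algebra F E]

theorem map_ne_bot (v : HeightOneSpectrum (𝓞 F)) :
    Ideal.map (algebraMap (𝓞 F) (𝓞 E)) v.asIdeal ≠ ⊥ := by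
  intro h
  rw [Ideal.map_eq_bot_iff_of_injective (FaithfulSMul.algebraMap_injective (𝓞 F) (𝓞 E))] at h
  exact v.ne_bot h

/-- the divisor of `v 𝓞_E` -/
noncomputable def dmap (F E : Type) [Field F] [NumberField F] [Field E] [NumberField E] [Algebra F E]
    (v : HeightOneSpectrum (𝓞 F)) : Dv E := dvI (Ideal.map (algebraMap (𝓞 F) (𝓞 E)) v.asIdeal)

open scoped Classical in
/-- The conorm (extension) of divisors. -/
noncomputable def cn (F E : Type) [Field F] [NumberField F] [Field E] [NumberField E] [Algebra F E] :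
    Dv F →+ Dv E :=
  Finsupp.liftAddHom fun v : HeightOneSpectrum (𝓞 F) => (zmultiplesHom (Dv E)) (dmap F E v)

theorem cn_single (v : HeightOneSpectrum (𝓞 F)) (k : ℤ) :
    cn F E (Finsupp.single v k) = k • dmap F E v := by
  unfold cn
  rw [Finsupp.liftAddHom_apply_single]
  rfl

theorem cn_dvI (I : Ideal (𝓞 F)) :
    I ≠ ⊥ → cn F E (dvI I) = dvI (Ideal.map (algebraMap (𝓞 F) (𝓞 E)) I) := by
  have hmap : ∀ J : Ideal (𝓞 F), J ≠ ⊥ → Ideal.map (algebraMap (𝓞 F) (𝓞 E)) J ≠ ⊥ := by
    intro J hJ h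
    rw [Ideal.map_eq_bot_iff_of_injective (FaithfulSMul.algebraMap_injective (𝓞 F) (𝓞 E))] at h
    exact hJ h
  refine UniqueFactorizationMonoid.induction_on_prime
    (P := fun I : Ideal (𝓞 F) => I ≠ ⊥ →
      cn F E (dvI I) = dvI (Ideal.map (algebraMap (𝓞 F) (𝓞 E)) I)) I ?_ ?_ ?_
  · intro h
    exact absurd rfl h
  · intro I hI _
    rw [Ideal.isUnit_iff.1 hI, Ideal.map_top, dvI_top, dvI_top, map_zero]
  · intro I P hI hP ih h
    have hP0 : P ≠ ⊥ := hP.ne_zero
    obtain ⟨v, hv⟩ : ∃ v : HeightOneSpectrum (𝓞 F), v.asIdeal = P :=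
      ⟨⟨P, Ideal.isPrime_of_prime hP, hP0⟩, rfl⟩
    rw [dvI_mul hP0 hI, map_add, ih hI, Ideal.map_mul, dvI_mul (hmap P hP0) (hmap I hI), ← hv,
      dvI_prime, cn_single, one_smul]
    rfl

/-- **The conorm of a principal divisor.** -/
theorem cn_prin (x : Fˣ) : cn F E (prin x) = prin (up F E x) := by
  have key : ∀ (a : 𝓞 F) (y : Fˣ), (y : F) = a → cn F E (prin y) = prin (up F E y) := by
    intro a y hy
    have ha : a ≠ 0 := by
      rintro rfl
      exact y.ne_zero (by rw [hy]; rfl)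
    have h0 : Ideal.span {a} ≠ ⊥ := by
      rw [Ne, Ideal.span_singleton_eq_bot]
      exact ha
    rw [← dvI_span a y hy, cn_dvI _ h0, Ideal.map_span, Set.image_singleton]
    apply dvI_span
    show algebraMap F E (y : F) = _
    rw [hy]
    rfl
  obtain ⟨a, b, hb, hab⟩ := IsFractionRing.div_surjective (A := 𝓞 F) (x : F)
  have hb0 : algebraMap (𝓞 F) F b ≠ 0 := by
    intro h
    apply nonZeroDivisors.ne_zero hb
    exact (map_eq_zero_iff _ (FaithfulSMul.algebraMap_injective (𝓞 F) F)).1 h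
  have ha0 : algebraMap (𝓞 F) F a ≠ 0 := by
    intro h
    rw [h, zero_div] at hab
    exact x.ne_zero hab.symm
  have hx : x = Units.mk0 _ ha0 / Units.mk0 _ hb0 := by
    apply Units.ext
    rw [Units.val_div_eq_div_val]
    exact hab.symm
  rw [hx, prin_div, map_sub, key a _ rfl, key b _ rfl, map_div, prin_div]

/-- norm of the conorm -/
theorem nm_cn (D : Dv F) : nmD F E (cn F E D) = Module.finrank F E • D := by
  classical
  induction D using Finsupp.induction_linear with
  | zero => simp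
  | add D D' h h' => rw [map_add, map_add, h, h', smul_add]
  | single v k =>
    rw [cn_single, map_zsmul]
    unfold dmap
    have hfr : Module.finrank (𝓞 F) (𝓞 E) = Module.finrank F E :=
      (IsFractionRing.finrank_eq (𝓞 F) F (𝓞 E) E).symm
    rw [nmD_dvI _ (map_ne_bot v), Ideal.relNorm_algebraMap (𝓞 E) v.asIdeal, hfr,
      dvI_pow v.ne_bot, dvI_prime]
    ext w
    simp only [Finsupp.smul_apply, Finsupp.single_apply]
    split_ifs <;> simp [mul_comm]

/-- the ramification index -/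
noncomputable def ri (F : Type) {E : Type} [Field F] [NumberField F] [Field E] [NumberField E]
    [Algebra F E] (w : HeightOneSpectrum (𝓞 E)) : ℕ :=
  (w.under (𝓞 F)).asIdeal.ramificationIdx' w.asIdeal

theorem le_pow_iff {I : Ideal (𝓞 E)} (hI : I ≠ ⊥) (w : HeightOneSpectrum (𝓞 E)) (n : ℕ) :
    I ≤ w.asIdeal ^ n ↔ (n : ℤ) ≤ dvI I w := by
  classical
  rw [dvI_apply, FractionalIdeal.count_coe E w hI, Nat.cast_le,
    ← Associates.prime_pow_dvd_iff_le (Associates.mk_ne_zero.mpr hI) w.associates_irreducible,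
    ← Associates.mk_pow, Associates.mk_le_mk_iff_dvd, Ideal.dvd_iff_le]

theorem dmap_apply_self (w : HeightOneSpectrum (𝓞 E)) :
    dmap F E (w.under (𝓞 F)) w = (ri F w : ℤ) := by
  have h0 := map_ne_bot (E := E) (w.under (𝓞 F))
  have hnn : 0 ≤ dmap F E (w.under (𝓞 F)) w := by
    unfold dmap
    rw [dvI_apply]
    exact FractionalIdeal.count_coe_nonneg E w _
  obtain ⟨n, hn⟩ := Int.eq_ofNat_of_zero_le hnn
  rw [hn]
  unfold ri
  rw [Ideal.ramificationIdx'_spec (n := n)]
  · exact (le_pow_iff h0 w n).2 (by unfold dmap at hn; rw [hn])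
  · intro h
    have h1 := (le_pow_iff h0 w (n + 1)).1 h
    unfold dmap at hn
    rw [hn] at h1
    push_cast at h1
    linarith

theorem dmap_apply_of_ne (w : HeightOneSpectrum (𝓞 E)) {v : HeightOneSpectrum (𝓞 F)}
    (h : w.under (𝓞 F) ≠ v) : dmap F E v w = 0 := by
  have h0 := map_ne_bot (E := E) v
  have hnn : 0 ≤ dmap F E v w := by
    unfold dmap
    rw [dvI_apply]
    exact FractionalIdeal.count_coe_nonneg E w _
  by_contra hne
  have h1 : ((1 : ℕ) : ℤ) ≤ dmap F E v w := by
    push_cast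
    omega
  have h2 := (le_pow_iff h0 w 1).2 h1
  rw [pow_one, Ideal.map_le_iff_le_comap] at h2
  apply h
  apply HeightOneSpectrum.ext
  have hm : v.asIdeal.IsMaximal := v.isMaximal
  exact (hm.eq_of_le (w.under (𝓞 F)).isPrime.ne_top h2).symm

theorem cn_apply (D : Dv F) (w : HeightOneSpectrum (𝓞 E)) :
    cn F E D w = (ri F w : ℤ) * D (w.under (𝓞 F)) := by
  classical
  induction D using Finsupp.induction_linear with
  | zero => simp
  | add D D' h h' => rw [map_add, Finsupp.add_apply, h, h', Finsupp.add_apply, mul_add]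
  | single v k =>
    rw [cn_single, Finsupp.smul_apply, Finsupp.single_apply]
    by_cases h : v = w.under (𝓞 F)
    · rw [if_pos h, h, dmap_apply_self, smul_eq_mul, mul_comm]
    · rw [if_neg h, dmap_apply_of_ne w (Ne.symm h), smul_zero, mul_zero]

theorem ri_pos (w : HeightOneSpectrum (𝓞 E)) : 0 < ri F w := by
  have h1 : w.asIdeal.LiesOver (w.under (𝓞 F)).asIdeal := ⟨rfl⟩
  exact Nat.pos_iff_ne_zero.mpr
    (Ideal.IsDedekindDomain.ramificationIdx'_ne_zero_of_liesOver _ (w.under (𝓞 F)).ne_bot)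

theorem cn_injective : Function.Injective (cn F E) := by
  rw [injective_iff_map_eq_zero]
  intro D hD
  ext v
  obtain ⟨w, rfl⟩ := Pool.Agent.Q182.AR.exists_above (E := E) v
  have h := DFunLike.congr_fun hD w
  rw [cn_apply, Finsupp.zero_apply, mul_eq_zero] at h
  rcases h with h | h
  · exact absurd h (by exact_mod_cast (ri_pos (F := F) w).ne')
  · exact h

theorem ri_eq_one {v : HeightOneSpectrum (𝓞 F)} (hv : Unramified E v) {w : HeightOneSpectrum (𝓞 E)}
    (hw : w.under (𝓞 F) = v) : ri F w = 1 := by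
  unfold ri
  refine Ideal.ramificationIdx'_spec ?_ ?_
  · rw [pow_one, Ideal.map_le_iff_le_comap]
    exact le_of_eq rfl
  · rw [hw]
    exact hv w hw

theorem unramified_iff (v : HeightOneSpectrum (𝓞 F)) :
    Unramified E v ↔ ∀ w : HeightOneSpectrum (𝓞 E), w.under (𝓞 F) = v → ri F w = 1 := by
  refine ⟨fun hv w hw => ri_eq_one hv hw, fun h w hw hle => ?_⟩
  subst hw
  have h1 := (le_pow_iff (map_ne_bot (w.under (𝓞 F))) w 2).1 hle
  have h2 := dmap_apply_self (F := F) w
  unfold dmap at h2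
  rw [h2, h w rfl] at h1
  norm_num at h1

theorem ri_act (σ : E ≃ₐ[F] E) (w : HeightOneSpectrum (𝓞 E)) :
    ri F (Pool.Agent.TeamU.act σ w) = ri F w := by
  obtain ⟨v, hv⟩ : ∃ v, v = w.under (𝓞 F) := ⟨_, rfl⟩
  -- the divisor of a suitable element of `F`
  obtain ⟨x, hx⟩ := v.valuation_exists_uniformizer F
  have hx0 : x ≠ 0 := by
    rintro rfl
    rw [map_zero] at hx
    exact WithZero.coe_ne_zero hx.symm
  obtain ⟨u, hu⟩ : ∃ u : Fˣ, u = Units.mk0 x hx0 := ⟨_, rfl⟩
  have hpv : prin u v ≠ 0 := by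
    rw [Pool.Agent.Q182.AR.prin_log, hu, Units.val_mk0, hx, WithZero.log_exp]
    norm_num
  have h1 : prin (up F E u) (Pool.Agent.TeamU.act σ w) = prin (up F E u) w := by
    have h2 : prin (sE σ (Additive.ofMul (up F E u))).toMul = sD σ (prin (up F E u)) :=
      Pool.Agent.Q149.AR.prin_sE σ _
    have h3 : (sE σ (Additive.ofMul (up F E u))).toMul = up F E u := by
      apply Units.ext
      exact σ.commutes _
    rw [h3] at h2
    conv_lhs => rw [h2]
    exact Pool.Agent.Q225.AR.sD_act σ _ w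
  rw [← cn_prin, cn_apply, cn_apply, Pool.Agent.Q225.AR.under_act, ← hv] at h1
  exact_mod_cast mul_right_cancel₀ hpv h1

end
end Pool.Agent.H515.CH
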