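import Pool.Agent.H515.Trf

/-! # Composita -/

set_option autoImplicit false
set_option linter.unusedSectionVars false
set_option linter.deprecated false

namespace Pool.Agent.H515.CH

open NumberField IsDedekindDomain Pool.Agent.Q5.BR Pool.Agent.Q92.AR Pool.Agent.Q106.AR
open Pool.Agent.Q280.AR (under_under rdeg_tower)

section
variable {k k' F F' : Type} [Field k] [NumberField k] [Field k'] [NumberField k'] [Field F]
  [NumberField F] [Field F'] [NumberField F'] [Algebra k k'] [Algebra k F] [Algebra k F']
  [Algebra k' F'] [Algebra F F'] [IsScalarTower k k' F'] [IsScalarTower k F F']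

theorem gal_comp [IsGalois k k']
    (h : IntermediateField.adjoin F (Set.range (algebraMap k' F')) = ⊤) : IsGalois F F' := by
  have hn : Normal F F' := by
    have : Algebra.IsAlgebraic F F' := inferInstance
    refine ⟨fun x => ?_⟩
    refine IntermediateField.splits_of_mem_adjoin (F := F) (L := F') (K := F')
      (S := Set.range (algebraMap k' F')) ?_ (x := x) (by rw [h]; trivial)
    rintro _ ⟨y, rfl⟩
    refine ⟨Algebra.IsIntegral.isIntegral _, ?_⟩
    have h1 : ((minpoly k y).map (algebraMap k k')).Splits := Normal.splits inferInstance y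
    have h2 : ((minpoly k y).map (algebraMap k F')).Splits := by
      rw [IsScalarTower.algebraMap_eq k k' F', ← Polynomial.map_map]
      exact h1.map _
    have h3 := minpoly.dvd_map_of_isScalarTower' k F F' y
    have h4 : (minpoly F (algebraMap k' F' y)).map (algebraMap F F') ∣
        ((minpoly k y).map (algebraMap k F')) := by
      rw [IsScalarTower.algebraMap_eq k F F', ← Polynomial.map_map]
      exact Polynomial.map_dvd _ h3
    refine h2.of_dvd ?_ h4
    exact Polynomial.map_ne_zero (minpoly.ne_zero (Algebra.IsIntegral.isIntegral y))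
  exact ⟨⟩

theorem inj_comp (h : IntermediateField.adjoin F (Set.range (algebraMap k' F')) = ⊤)
    (g : F' ≃ₐ[F] F') (hg : ∀ x : k', g (algebraMap k' F' x) = algebraMap k' F' x) : g = 1 := by
  have h1 : Algebra.adjoin F (Set.range (algebraMap k' F')) = ⊤ := by
    rw [← IntermediateField.adjoin_toSubalgebra_of_isAlgebraic
      (fun x _ => Algebra.IsAlgebraic.isAlgebraic x), h]
    rfl
  have h2 : (g : F' →ₐ[F] F') = AlgHom.id F F' := by
    refine AlgHom.ext_of_adjoin_eq_top h1 ?_
    rintro _ ⟨x, rfl⟩
    exact hg x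
  ext x
  exact DFunLike.congr_fun h2 x

theorem res_comp [IsGalois k k'] (g : F' ≃ₐ[F] F') : ∃ h : k' ≃ₐ[k] k', Xt g h := by
  refine ⟨(g.restrictScalars k).restrictNormal k', fun x => ?_⟩
  exact ((g.restrictScalars k).restrictNormal_commutes k' x).symm

theorem sqr_comp [IsGalois k k']
    (h : IntermediateField.adjoin F (Set.range (algebraMap k' F')) = ⊤)
    (hc : (Module.finrank k F).Coprime (Module.finrank k k')) :
    Sqr k k' F F' ∧ Module.finrank F F' = Module.finrank k k' ∧
      Module.finrank k' F' = Module.finrank k F := by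
  have hG := gal_comp (k := k) h
  choose r hr using fun g : F' ≃ₐ[F] F' => res_comp (k := k) (k' := k') g
  have hinj : Function.Injective r := by
    intro g g' hgg
    have h1 : g'⁻¹ * g = 1 := by
      apply inj_comp h
      intro x
      change g'.symm (g (algebraMap k' F' x)) = _
      rw [AlgEquiv.symm_apply_eq, hr g x, hr g' x, hgg]
    rw [inv_mul_eq_one] at h1
    exact h1.symm
  have c1 : Nat.card (F' ≃ₐ[F] F') = Module.finrank F F' := IsGalois.card_aut_eq_finrank F F'
  have c2 : Nat.card (k' ≃ₐ[k] k') = Module.finrank k k' := IsGalois.card_aut_eq_finrank k k'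
  have c3 := Nat.card_le_card_of_injective r hinj
  rw [c1, c2] at c3
  have c4 : Module.finrank k F * Module.finrank F F' = Module.finrank k F' :=
    Module.finrank_mul_finrank k F F'
  have c5 : Module.finrank k k' * Module.finrank k' F' = Module.finrank k F' :=
    Module.finrank_mul_finrank k k' F'
  have c6 : Module.finrank k k' ∣ Module.finrank F F' := by
    refine hc.symm.dvd_of_dvd_mul_left ?_
    rw [c4, ← c5]
    exact dvd_mul_right _ _
  have c7 : Module.finrank F F' = Module.finrank k k' :=
    le_antisymm c3 (Nat.le_of_dvd Module.finrank_pos c6)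
  have c8 : Module.finrank k' F' = Module.finrank k F := by
    rw [c7, ← c5, mul_comm] at c4
    exact (Nat.eq_of_mul_eq_mul_left Module.finrank_pos c4).symm
  refine ⟨⟨fun g => ⟨r g, hr g⟩, fun g hg => inj_comp h g hg, fun t => ?_⟩, c7, c8⟩
  have hbij : Function.Bijective r := by
    rw [Nat.bijective_iff_injective_and_card]
    exact ⟨hinj, by rw [c1, c2, c7]⟩
  obtain ⟨g, rfl⟩ := hbij.2 t
  exact ⟨g, hr g⟩

end

/-! ### Real places -/

section
variable {F L E : Type} [Field F] [NumberField F] [Field L] [NumberField L] [Field E]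
  [NumberField E] [Algebra F L] [Algebra L E] [Algebra F E] [IsScalarTower F L E]

theorem realRam_bot (h : IsEmpty (RealRam F E)) : IsEmpty (RealRam F L) := by
  refine ⟨fun x => ?_⟩
  obtain ⟨φ, hφ⟩ := x
  by_cases h1 : ∃ χ : E →+* ℝ, χ.comp (algebraMap F E) = φ
  · obtain ⟨χ, hχ⟩ := h1
    apply hφ
    refine ⟨χ.comp (algebraMap L E), ?_⟩
    rw [← hχ, RingHom.comp_assoc, ← IsScalarTower.algebraMap_eq]
  · exact h.false ⟨φ, h1⟩

theorem realRam_top [IsGalois F E] (h : IsEmpty (RealRam F E)) : IsEmpty (RealRam L E) := by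
  refine ⟨fun x => ?_⟩
  obtain ⟨φ, hφ⟩ := x
  by_cases h1 : ∃ χ : E →+* ℝ, χ.comp (algebraMap F E) = φ.comp (algebraMap F L)
  · obtain ⟨χ, hχ⟩ := h1
    -- extend `φ` to a complex embedding
    let a : Algebra L ℂ := ((algebraMap ℝ ℂ).comp φ).toAlgebra
    obtain ⟨ψ⟩ : Nonempty (E →ₐ[L] ℂ) := ⟨IsAlgClosed.lift⟩
    have hψ : ∀ x : L, ψ (algebraMap L E x) = ((φ x : ℝ) : ℂ) := fun x => ψ.commutes x
    let b : Algebra F ℂ := ((algebraMap ℝ ℂ).comp (φ.comp (algebraMap F L))).toAlgebra
    let ψF : E →ₐ[F] ℂ := { (ψ : E →+* ℂ) with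
      commutes' := fun x => by
        have h2 := hψ (algebraMap F L x)
        rw [← IsScalarTower.algebraMap_apply] at h2
        exact h2 }
    let χF : E →ₐ[F] ℂ := { ((algebraMap ℝ ℂ).comp χ) with
      commutes' := fun x => by
        have h2 := RingHom.congr_fun hχ x
        change ((χ (algebraMap F E x) : ℝ) : ℂ) = ((φ (algebraMap F L x) : ℝ) : ℂ)
        exact congrArg _ h2 }
    have hreal : ∀ x : E, ∃ y : ℝ, ((y : ℝ) : ℂ) = ψ x := by
      intro x
      have hs : ((minpoly F x).map (algebraMap F E)).Splits := Normal.splits inferInstance x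
      have hm0 : minpoly F x ≠ 0 := minpoly.ne_zero (Algebra.IsIntegral.isIntegral x)
      have h3 : ψF x ∈ ψF '' (minpoly F x).rootSet E :=
        ⟨x, (Polynomial.mem_rootSet.2 ⟨hm0, minpoly.aeval F x⟩), rfl⟩
      rw [hs.image_rootSet ψF, ← hs.image_rootSet χF] at h3
      obtain ⟨z, -, hz⟩ := h3
      exact ⟨χ z, hz⟩
    choose y hy using hreal
    apply hφ
    have hre : ∀ x : E, y x = (ψ x).re := fun x => by rw [← hy x, Complex.ofReal_re]
    refine ⟨{ toFun := y, map_one' := ?_, map_mul' := ?_, map_zero' := ?_, map_add' := ?_ }, ?_⟩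
    · apply Complex.ofReal_injective
      rw [hy, map_one, Complex.ofReal_one]
    · intro u v
      apply Complex.ofReal_injective
      rw [Complex.ofReal_mul, hy, hy, hy, map_mul]
    · apply Complex.ofReal_injective
      change ((y 0 : ℝ) : ℂ) = ((0 : ℝ) : ℂ)
      rw [hy, map_zero, Complex.ofReal_zero]
    · intro u v
      apply Complex.ofReal_injective
      change ((y (u + v) : ℝ) : ℂ) = ((y u + y v : ℝ) : ℂ)
      rw [Complex.ofReal_add, hy, hy, hy, map_add]
    · ext x
      apply Complex.ofReal_injective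
      change ((y (algebraMap L E x) : ℝ) : ℂ) = ((φ x : ℝ) : ℂ)
      rw [hy, hψ]
  · exact h.false ⟨φ.comp (algebraMap F L), h1⟩

end

end Pool.Agent.H515.CH
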