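import Pool.Agent.H515.ClN

/-! # The isomorphism of the primary components is induced by the norm of ideals -/

set_option autoImplicit false
set_option linter.unusedSectionVars false
set_option linter.deprecated false

namespace Pool.Agent.H515.CH

open NumberField IsDedekindDomain Pool.Agent.Q5.BR Pool.Agent.Q92.AR Pool.Agent.Q106.AR

section
variable {E : Type} [Field E] [NumberField E]

theorem cls_dvI (I : nonZeroDivisors (Ideal (𝓞 E))) :
    cls (dvI (I : Ideal (𝓞 E))) = ClassGroup.mk0 I := by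
  unfold cls
  rw [clHom_apply, ← ClassGroup.mk_mk0 E]
  change ClassGroup.mk E _ = _
  congr 1
  refine Pool.Agent.Q149.GK.eq_of_count _ _ fun v => ?_
  rw [Pool.Agent.Q149.GK.count_fi, dvI_apply]
  rfl

end

section
variable {F E : Type} [Field F] [NumberField F] [Field E] [NumberField E] [Algebra F E]

theorem NC_mk0 (I : nonZeroDivisors (Ideal (𝓞 E))) (J : nonZeroDivisors (Ideal (𝓞 F)))
    (h : Ideal.relNorm (𝓞 F) (I : Ideal (𝓞 E)) = J) :
    NC F E (ClassGroup.mk0 I) = ClassGroup.mk0 J := by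
  rw [← cls_dvI, ← cls_dvI, NC_cls, nmD_dvI _ (nonZeroDivisors.coe_ne_zero I), h]

theorem prim_norm {p : ℕ} [Fact p.Prime] (hk : ¬ p ∣ Nat.card (nb F E).ker)
    (hm : (Module.finrank F E).Coprime p) :
    ∃ e : CommGroup.primaryComponent (ClassGroup (𝓞 E)) p ≃*
      CommGroup.primaryComponent (ClassGroup (𝓞 F)) p,
      ∀ (x : CommGroup.primaryComponent (ClassGroup (𝓞 E)) p)
        (I : nonZeroDivisors (Ideal (𝓞 E))) (J : nonZeroDivisors (Ideal (𝓞 F))),
        ClassGroup.mk0 I = (x : ClassGroup (𝓞 E)) →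
        Ideal.relNorm (𝓞 F) (I : Ideal (𝓞 E)) = J →
        ((e x : CommGroup.primaryComponent (ClassGroup (𝓞 F)) p) : ClassGroup (𝓞 F)) =
          ClassGroup.mk0 J := by
  have hk' : ¬ p ∣ Nat.card (NC F E).ker := by rw [card_ker_NC]; exact hk
  obtain ⟨e, he⟩ := prim_iso (NC F E) (JC F E) _ NC_JC hm hk' (MonoidHom.id _)
    Function.surjective_id (MonoidHom.id _) (NC F E) (JC F E) (fun _ => rfl) (fun _ => rfl) NC_JC
  refine ⟨e, fun x I J hx hJ => ?_⟩
  rw [he, ← hx, NC_mk0 I J hJ]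

end

end Pool.Agent.H515.CH
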