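import Pool.Agent.H515.Orb
import Pool.Agent.H515.NormIso

/-! # Almost all primes with a given Frobenius element -/

set_option autoImplicit false
set_option linter.unusedSectionVars false
set_option linter.deprecated false

namespace Pool.Agent.H515.CH

open NumberField IsDedekindDomain Pool.Agent.Q5.BR Pool.Agent.Q92.AR Pool.Agent.Q106.AR
open Pool.Agent.Q280.AR (under_under rdeg_tower)

theorem rat_prime_span {p : ℕ} (hp : p.Prime) {v : HeightOneSpectrum (𝓞 ℚ)}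
    (hv : (p : 𝓞 ℚ) ∈ v.asIdeal) : v.asIdeal = Ideal.span {(p : 𝓞 ℚ)} := by
  apply le_antisymm
  · intro x hx
    obtain ⟨a, rfl⟩ : ∃ a : ℤ, (a : 𝓞 ℚ) = x := by
      refine ⟨Rat.ringOfIntegersEquiv x, ?_⟩
      apply Rat.ringOfIntegersEquiv.injective
      rw [map_intCast]
      simp
    by_cases hpa : (p : ℤ) ∣ a
    · obtain ⟨b, rfl⟩ := hpa
      rw [Int.cast_mul, Int.cast_natCast]
      exact Ideal.mul_mem_right _ _ (Ideal.mem_span_singleton_self _)
    · exfalso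
      have hcop : IsCoprime (p : ℤ) a :=
        (Prime.coprime_iff_not_dvd (Nat.prime_iff_prime_int.1 hp)).2 hpa
      obtain ⟨r, s, hrs⟩ := hcop
      apply v.isPrime.ne_top
      rw [Ideal.eq_top_iff_one]
      have h1 : ((r * p + s * a : ℤ) : 𝓞 ℚ) ∈ v.asIdeal := by
        rw [Int.cast_add, Int.cast_mul, Int.cast_mul, Int.cast_natCast]
        exact add_mem (Ideal.mul_mem_left _ _ hv) (Ideal.mul_mem_left _ _ hx)
      rw [hrs, Int.cast_one] at h1
      exact h1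
  · rw [Ideal.span_singleton_le_iff_mem]
    exact hv

theorem absNorm_rat {p : ℕ} (hp : p.Prime) {v : HeightOneSpectrum (𝓞 ℚ)}
    (hv : (p : 𝓞 ℚ) ∈ v.asIdeal) : Ideal.absNorm v.asIdeal = p := by
  rw [rat_prime_span hp hv, Ideal.absNorm_span_singleton]
  have h1 : Algebra.norm ℤ ((p : ℕ) : 𝓞 ℚ) = (p : ℤ) ^ (Module.finrank ℤ (𝓞 ℚ)) := by
    have h2 := Algebra.norm_algebraMap (R := ℤ) (S := 𝓞 ℚ) (p : ℤ)
    rw [← h2]
    congr 1
  rw [h1, RingOfIntegers.rank, Module.finrank_self, pow_one, Int.natAbs_natCast]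

/-- `g` is a Frobenius element at a prime above `p` -/
def FrobAt {M : Type} [Field M] [NumberField M] (p : ℕ) (g : M ≃ₐ[ℚ] M) : Prop :=
  ∃ Q : Ideal (𝓞 M), Q.IsPrime ∧ (p : 𝓞 M) ∈ Q ∧ ∀ x : 𝓞 M, ∃ y ∈ Q, (y : M) = g x - (x : M) ^ p

section
variable {M : Type} [Field M] [NumberField M]

theorem FrobAt.exists_v {p : ℕ} (hp : p.Prime) {g : M ≃ₐ[ℚ] M} (h : FrobAt p g) :
    ∃ v : HeightOneSpectrum (𝓞 ℚ), (p : 𝓞 ℚ) ∈ v.asIdeal ∧ IsFrobenius v g := by
  obtain ⟨Q, hQ, hpQ, hQF⟩ := h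
  have hQ0 : Q ≠ ⊥ := by
    rintro rfl
    rw [Ideal.mem_bot] at hpQ
    exact hp.ne_zero (by exact_mod_cast hpQ)
  let w : HeightOneSpectrum (𝓞 M) := ⟨Q, hQ, hQ0⟩
  have hv : (p : 𝓞 ℚ) ∈ (w.under (𝓞 ℚ)).asIdeal := mem_under.2 hpQ
  refine ⟨w.under (𝓞 ℚ), hv, Q, hQ.isMaximal hQ0, rfl, ?_⟩
  rw [absNorm_rat hp hv]
  exact hQF

theorem frobAt_of {p : ℕ} (hp : p.Prime) {g : M ≃ₐ[ℚ] M} {v : HeightOneSpectrum (𝓞 ℚ)}
    (hv : (p : 𝓞 ℚ) ∈ v.asIdeal) (h : IsFrobenius v g) : FrobAt p g := by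
  obtain ⟨w, hw, hwv, hF⟩ := h
  refine ⟨w, hw.isPrime, ?_, ?_⟩
  · rw [← hwv, Ideal.mem_comap, map_natCast] at hv
    exact hv
  · rw [absNorm_rat hp hv] at hF
    exact hF

/-- infinitely many primes have a given Frobenius element -/
theorem frob_infinite [IsGalois ℚ M] (g : M ≃ₐ[ℚ] M) (B0 : ℕ) :
    ∃ p : ℕ, p.Prime ∧ B0 < p ∧ FrobAt p g := by
  have hfin : {v : HeightOneSpectrum (𝓞 ℚ) | ((B0.factorial : ℕ) : 𝓞 ℚ) ∈ v.asIdeal}.Finite :=
    Pool.Agent.Q125.AR.finite_dvd (Nat.factorial_ne_zero B0)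
  obtain ⟨v, hvB, hu, hF⟩ := Pool.Agent.Q14.AR.cheb ℚ M g _ hfin
  obtain ⟨p, hp, hpv⟩ := exists_prime_in v
  refine ⟨p, hp, ?_, frobAt_of hp hpv hF⟩
  by_contra hle
  apply hvB
  obtain ⟨c, hc⟩ := Nat.dvd_factorial hp.pos (not_lt.1 hle)
  change ((B0.factorial : ℕ) : 𝓞 ℚ) ∈ v.asIdeal
  rw [hc, Nat.cast_mul]
  exact Ideal.mul_mem_right _ _ hpv

/-- only finitely many primes ramify -/
theorem exists_bound (M : Type) [Field M] [NumberField M] :
    ∃ B0 : ℕ, ∀ p : ℕ, p.Prime → B0 < p → ∀ v : HeightOneSpectrum (𝓞 ℚ),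
      (p : 𝓞 ℚ) ∈ v.asIdeal → Unramified M v := by
  classical
  have hfin := Pool.Agent.Q14.AR.ramified_finite (K := ℚ) (M := M)
  refine ⟨∑ v ∈ hfin.toFinset, Ideal.absNorm v.asIdeal, fun p hp hB v hv => ?_⟩
  by_contra hu
  have h1 : Ideal.absNorm v.asIdeal ≤ ∑ v ∈ hfin.toFinset, Ideal.absNorm v.asIdeal :=
    Finset.single_le_sum (f := fun v : HeightOneSpectrum (𝓞 ℚ) => Ideal.absNorm v.asIdeal)
      (fun _ _ => Nat.zero_le _) (hfin.mem_toFinset.2 hu)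
  rw [absNorm_rat hp hv] at h1
  omega

end

section
variable {k F M : Type} [Field k] [NumberField k] [Field F] [NumberField F] [Field M]
  [NumberField M] [Algebra k F] [Algebra k M] [Algebra F M] [IsScalarTower k F M] [IsGalois ℚ M]

/-- the number of cycles does not grow -/
theorem orbs_eq {g : M ≃ₐ[ℚ] M} (hg : ∀ i j : F →ₐ[ℚ] M,
    (∀ x : k, i (algebraMap k F x) = j (algebraMap k F x)) → ∃ n : ℕ, ∀ x, (g ^ n) (i x) = j x) :
    orbs g F = orbs g k := by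
  classical
  let kF : k →ₐ[ℚ] F := (algebraMap k F).toRatAlgHom
  have hkF : ∀ x, kF x = algebraMap k F x := fun x => rfl
  have hmap : ∀ i j : F →ₐ[ℚ] M, OrbRel g F i j → OrbRel g k (i.comp kF) (j.comp kF) := by
    rintro i j ⟨n, hn⟩
    exact ⟨n, fun x => hn (kF x)⟩
  let f : Quot (OrbRel g F) → Quot (OrbRel g k) := Quot.map (fun i => i.comp kF) hmap
  refine Nat.card_eq_of_bijective f ⟨?_, ?_⟩
  · intro a b hab
    induction a using Quot.ind with | mk i => ?_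
    induction b using Quot.ind with | mk j => ?_
    have h1 : Relation.EqvGen (OrbRel g k) (i.comp kF) (j.comp kF) := Quot.eqvGen_exact hab
    have hfo : IsOfFinOrder g := isOfFinOrder_of_finite g
    have hN := pow_orderOf_eq_one g
    -- `OrbRel` is an equivalence relation
    have heqv : ∀ (L : Type) [Field L] [Algebra ℚ L], Equivalence (OrbRel (K := ℚ) g L) := by
      intro L _ _
      refine ⟨fun i => ⟨0, fun x => rfl⟩, ?_, ?_⟩
      · rintro i j ⟨n, hn⟩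
        obtain ⟨m, hm⟩ := (hfo.mem_powers_iff_mem_zpowers.2
          (Subgroup.inv_mem _ (Subgroup.npow_mem_zpowers g n)))
        have hm' : g ^ m = (g ^ n)⁻¹ := hm
        refine ⟨m, fun x => ?_⟩
        rw [hm', ← hn x]
        exact AlgEquiv.symm_apply_apply _ _
      · rintro i j l ⟨n, hn⟩ ⟨m, hm⟩
        refine ⟨m + n, fun x => ?_⟩
        rw [pow_add, AlgEquiv.mul_apply, hn, hm]
    obtain ⟨n, hn⟩ := ((heqv k).eqvGen_iff).1 h1
    have h2 : ∀ x : k, (((g ^ n : M ≃ₐ[ℚ] M) : M →ₐ[ℚ] M).comp i) (algebraMap k F x) =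
        j (algebraMap k F x) := fun x => hn x
    obtain ⟨m, hm⟩ := hg _ _ h2
    apply Quot.sound
    refine ⟨m + n, fun x => ?_⟩
    rw [pow_add, AlgEquiv.mul_apply]
    exact hm x
  · intro b
    induction b using Quot.ind with | mk i => ?_
    have : Normal ℚ M := inferInstance
    let i0 : F →ₐ[ℚ] M := (algebraMap F M).toRatAlgHom
    let ik : k →ₐ[ℚ] M := (algebraMap k M).toRatAlgHom
    -- an automorphism `h` of `M` extending `i`
    obtain ⟨h, hh⟩ : ∃ h : M →ₐ[ℚ] M, ∀ x : k, h (algebraMap k M x) = i x := by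
      have i3 : IsScalarTower ℚ k M := inferInstance
      exact ⟨i.liftNormal M, fun x => i.liftNormal_commutes M x⟩
    refine ⟨Quot.mk _ (h.comp i0), ?_⟩
    change Quot.mk _ ((h.comp i0).comp kF) = Quot.mk _ i
    congr 1
    ext x
    change h (algebraMap F M (algebraMap k F x)) = i x
    rw [← IsScalarTower.algebraMap_apply, hh]

end

end Pool.Agent.H515.CH
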