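import Pool.Agent.H515.Lay3

/-! # The transfer theorem for the layers of the cyclotomic `ℤ_p`-extension -/

set_option autoImplicit false
set_option linter.unusedSectionVars false
set_option linter.deprecated false

namespace Pool.Agent.H515.CH

open NumberField IsDedekindDomain Pool.Agent.Q5.BR Pool.Agent.Q92.AR Pool.Agent.Q106.AR
open Pool.Agent.Q280.AR (under_under rdeg_tower)

/-- `E` is the `n`-th layer of the cyclotomic `ℤ_p`-extension of `ℚ` -/
def IsLayer (p n : ℕ) (E : IntermediateField ℚ ℂ) : Prop :=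
  E ≤ IntermediateField.adjoin ℚ {z : ℂ | z ^ (p ^ (n + 2)) = 1} ∧
    Module.finrank ℚ E = p ^ n ∧ ∀ x ∈ E, starRingEnd ℂ x = x

/-- the primes of `F` above `p` are determined by their intersections with `k` -/
def OnePrimeAbove (p : ℕ) (k F : IntermediateField ℚ ℂ) : Prop :=
  ∀ P Q : Ideal (𝓞 F), P.IsPrime → Q.IsPrime → (p : 𝓞 F) ∈ P → (p : 𝓞 F) ∈ Q →
    (∀ x : 𝓞 F, ((x : F) : ℂ) ∈ k → (x ∈ P ↔ x ∈ Q)) → P = Q

theorem layer_transfer {p : ℕ} (hp : p.Prime) {k F : IntermediateField ℚ ℂ} [NumberField k]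
    [NumberField F] (hkF : k ≤ F) {m : ℕ} (hm : Module.finrank ℚ F = Module.finrank ℚ k * m)
    (hmp : m.Coprime p) (hns : OnePrimeAbove p k F)
    (hcl : padicValNat p (classNumber F) = padicValNat p (classNumber k)) {n : ℕ}
    {E : IntermediateField ℚ ℂ} (hE : IsLayer p n E) [NumberField ↥(k ⊔ E)]
    [NumberField ↥(F ⊔ E)] :
    Nonempty (CommGroup.primaryComponent (ClassGroup (𝓞 ↥(F ⊔ E))) p ≃*
      CommGroup.primaryComponent (ClassGroup (𝓞 ↥(k ⊔ E))) p) ∧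
    Nonempty (CommGroup.primaryComponent (ClassGroup (𝓞 ↥(F ⊔ E)) ⧸ PS p ↥(F ⊔ E)) p ≃*
      CommGroup.primaryComponent (ClassGroup (𝓞 ↥(k ⊔ E)) ⧸ PS p ↥(k ⊔ E)) p) := by
  obtain ⟨hE1, hE2, hE3⟩ := hE
  have hfp : Fact p.Prime := ⟨hp⟩
  have hN : p ^ (n + 2) ≠ 0 := pow_ne_zero _ hp.ne_zero
  have a1 : k ≤ k ⊔ E := le_sup_left
  have a2 : F ≤ F ⊔ E := le_sup_left
  have a3 : k ⊔ E ≤ F ⊔ E := sup_le_sup_right hkF _
  have a4 : k ≤ F ⊔ E := hkF.trans a2
  have a5 : E ≤ k ⊔ E := le_sup_right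
  have a6 : E ≤ F ⊔ E := le_sup_right
  let i1 := inc a1
  let i2 := inc a2
  let i3 := inc a3
  let i4 := inc a4
  let i5 := inc hkF
  have t1 : IsScalarTower k ↥(k ⊔ E) ↥(F ⊔ E) := IsScalarTower.of_algebraMap_eq fun x => rfl
  have t2 : IsScalarTower k F ↥(F ⊔ E) := IsScalarTower.of_algebraMap_eq fun x => rfl
  obtain ⟨g1, g2, g3⟩ := layer_facts hN a1 a5 le_rfl hE1
  have hR := realRam_layer hN a2 a6 le_rfl hE1 hE3
  have htop : IntermediateField.adjoin F (Set.range (algebraMap ↥(k ⊔ E) ↥(F ⊔ E))) = ⊤ :=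
    adj_top a2 a3 (sup_le_sup_left le_sup_right _)
  rw [hE2, Nat.dvd_prime_pow hp] at g2
  obtain ⟨s, -, hs⟩ := g2
  have hkf : Module.finrank k F = m := by
    have h1 : Module.finrank ℚ k * Module.finrank k F = Module.finrank ℚ F :=
      Module.finrank_mul_finrank ℚ k F
    rw [hm] at h1
    exact Nat.eq_of_mul_eq_mul_left Module.finrank_pos h1
  have hc : (Module.finrank k F).Coprime p := by rw [hkf]; exact hmp
  obtain ⟨S, hn1, hm1⟩ := sqr_comp htop (by rw [hs]; exact Nat.Coprime.pow_right _ hc)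
  have T := transfer_gal p s k ↥(k ⊔ E) F ↥(F ⊔ E) htop hs hc ?_ (Or.inr hR) (le_of_eq hcl)
  · exact prim_classes T.1 (by rw [hm1]; exact hc)
  · intro w hw
    rw [ld_eq_iff]
    intro w' hw'
    have hpw : (p : 𝓞 k) ∈ (w.under (𝓞 k)).asIdeal := by
      by_contra hcon
      apply hw
      apply g3
      intro h2
      apply hcon
      rw [Nat.cast_pow] at h2
      exact (w.under (𝓞 k)).isPrime.mem_of_pow_mem _ h2
    have hpw' : (p : 𝓞 k) ∈ (w'.under (𝓞 k)).asIdeal := by rw [hw']; exact hpw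
    apply HeightOneSpectrum.ext
    refine hns _ _ w'.isPrime w.isPrime (mem_under.1 hpw') (mem_under.1 hpw) fun x hx => ?_
    have hxi : IsIntegral ℤ (⟨((x : F) : ℂ), hx⟩ : k) := by
      have h1 : IsIntegral ℤ ((x : F) : ℂ) := (x.2).map (IsScalarTower.toAlgHom ℤ F ℂ)
      exact (isIntegral_algHom_iff (IsScalarTower.toAlgHom ℤ k ℂ)
        (algebraMap k ℂ).injective).1 h1
    obtain ⟨y, hy⟩ : ∃ y : 𝓞 k, algebraMap (𝓞 k) (𝓞 F) y = x := by
      refine ⟨⟨⟨((x : F) : ℂ), hx⟩, hxi⟩, ?_⟩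
      apply RingOfIntegers.ext
      apply Subtype.ext
      rfl
    rw [← hy]
    change y ∈ (w'.under (𝓞 k)).asIdeal ↔ y ∈ (w.under (𝓞 k)).asIdeal
    rw [hw']

end Pool.Agent.H515.CH
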