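import Mathlib

/-! # Finite abelian groups with an automorphism of `p`-power order -/

set_option autoImplicit false
set_option linter.unusedSectionVars false
set_option linter.deprecated false

namespace Pool.Agent.H515.CH

section
variable {X Y : Type} [AddCommGroup X] [AddCommGroup Y] [Finite X] [Finite Y] {p : ℕ}
  [hp : Fact p.Prime]

/-- a homomorphism whose kernel has order prime to `p` preserves `v_p` of the order -/
theorem card_map_ker {X Y : Type} [AddCommGroup X] [AddCommGroup Y] (f : X →+ Y)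
    (A : AddSubgroup X) : Nat.card A = Nat.card (f.ker ⊓ A : AddSubgroup X) * Nat.card (A.map f) := by
  rw [← AddSubgroup.relIndex_ker A f, ← AddSubgroup.inf_relIndex_right,
    ← AddSubgroup.relIndex_bot_left A, ← AddSubgroup.relIndex_bot_left (f.ker ⊓ A),
    AddSubgroup.relIndex_mul_relIndex _ _ _ bot_le inf_le_right]

theorem val_mul {a b : ℕ} (ha : a ≠ 0) (hb : b ≠ 0) :
    padicValNat p (a * b) = padicValNat p a + padicValNat p b := padicValNat.mul ha hb

theorem val_dvd {a b : ℕ} (hb : b ≠ 0) (h : a ∣ b) : padicValNat p a ≤ padicValNat p b := by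
  obtain ⟨c, rfl⟩ := h
  rw [val_mul (p := p) (left_ne_zero_of_mul hb) (right_ne_zero_of_mul hb)]
  omega

theorem card_ne (A : AddSubgroup X) : Nat.card A ≠ 0 := Nat.card_pos.ne'

/-- multiplication by a number prime to `p` does not change `v_p` -/
theorem val_smul (m : ℕ) (hm : m.Coprime p) (A : AddSubgroup X) :
    padicValNat p (Nat.card (A.map (DistribMulAction.toAddMonoidHom X m))) =
      padicValNat p (Nat.card A) := by
  have h := card_map_ker (DistribMulAction.toAddMonoidHom X m) A
  rw [h, val_mul (p := p) (card_ne _) (card_ne _)]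
  have h2 : ¬ p ∣ Nat.card (((DistribMulAction.toAddMonoidHom X m).ker ⊓ A : AddSubgroup X)) := by
    intro hd
    obtain ⟨x, hx⟩ := exists_prime_addOrderOf_dvd_card' p hd
    have h3 : m • x = 0 := by
      apply Subtype.ext
      exact x.2.1
    have h4 := addOrderOf_dvd_of_nsmul_eq_zero h3
    rw [hx] at h4
    have h5 := hp.out.one_lt
    have h6 : p ∣ 1 := by
      have := Nat.dvd_gcd h4 (dvd_refl p)
      rwa [hm.gcd_eq_one] at this
    exact absurd (Nat.le_of_dvd one_pos h6) (by omega)
  rw [padicValNat.eq_zero_of_not_dvd h2, zero_add]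

/-- an automorphism of `p`-power order of a group of order divisible by `p` fixes a
subgroup of order divisible by `p` -/
theorem dvd_fixed (σ : X →+ X) {s : ℕ} (hσ : ∀ x, σ^[p ^ s] x = x) (Z : AddSubgroup X)
    (hZ : ∀ x ∈ Z, σ x ∈ Z) (hpZ : p ∣ Nat.card Z) :
    p ∣ Nat.card (Z ⊓ (σ - AddMonoidHom.id X).ker : AddSubgroup X) := by
  classical
  have hf := Fintype.ofFinite Z
  let f : Function.End Z := fun x => ⟨σ x, hZ _ x.2⟩
  have hfi : ∀ (n : ℕ) (x : Z), (((f ^ n) x : Z) : X) = σ^[n] (x : X) := by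
    intro n
    induction n with
    | zero => intro x; rfl
    | succ n ih =>
      intro x
      rw [pow_succ, Function.iterate_succ_apply]
      exact ih (f x)
  have hf1 : f ^ p ^ s = 1 := by
    funext x
    apply Subtype.ext
    rw [hfi, hσ]
    rfl
  have h := Equiv.Perm.card_fixedPoints_modEq hf1
  have h1 : Fintype.card Z ≡ 0 [MOD p] := by
    rw [← Nat.card_eq_fintype_card]
    exact (Nat.modEq_zero_iff_dvd).2 hpZ
  have h2 := (Nat.modEq_zero_iff_dvd).1 (h.symm.trans h1)
  have e : Nat.card (Z ⊓ (σ - AddMonoidHom.id X).ker : AddSubgroup X) =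
      Fintype.card f.fixedPoints := by
    rw [← Nat.card_eq_fintype_card]
    refine Nat.card_congr ⟨fun x => ⟨⟨x.1, x.2.1⟩, ?_⟩, fun x => ⟨x.1.1, x.1.2, ?_⟩,
      fun x => rfl, fun x => rfl⟩
    · apply Subtype.ext
      have h3 := x.2.2
      have h4 : σ x.1 - x.1 = 0 := h3
      exact sub_eq_zero.1 h4
    · have h3 : f x.1 = x.1 := x.2
      have h4 : σ x.1.1 = x.1.1 := congrArg Subtype.val h3
      change σ x.1.1 - x.1.1 = 0
      rw [h4, sub_self]
  rw [e]
  exact h2

/-- the transfer lemma -/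
theorem transfer (N : X →+ Y) (j : Y →+ X) (m : ℕ) (hm : m.Coprime p)
    (hNj : ∀ y, N (j y) = m • y) (σ : X →+ X) (τ : Y →+ Y) (hN : ∀ x, N (σ x) = τ (N x))
    (hj : ∀ y, j (τ y) = σ (j y)) {s : ℕ} (hσ : ∀ x, σ^[p ^ s] x = x)
    (hfix : padicValNat p (Nat.card (σ - AddMonoidHom.id X).ker) ≤
      padicValNat p (Nat.card (τ - AddMonoidHom.id Y).ker)) :
    ¬ p ∣ Nat.card N.ker ∧ padicValNat p (Nat.card X) = padicValNat p (Nat.card Y) := by
  have key : ¬ p ∣ Nat.card N.ker := by
    intro hd
    have h1 := dvd_fixed σ hσ N.ker (fun x hx => by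
      rw [AddMonoidHom.mem_ker] at hx ⊢
      rw [hN, hx, map_zero]) hd
    have h2 := card_map_ker N (σ - AddMonoidHom.id X).ker
    have h3 : (DistribMulAction.toAddMonoidHom Y m : Y →+ Y) = N.comp j := by
      ext y
      exact (hNj y).symm
    have h4 : ((τ - AddMonoidHom.id Y).ker).map (DistribMulAction.toAddMonoidHom Y m : Y →+ Y) ≤
        ((σ - AddMonoidHom.id X).ker).map N := by
      rw [h3, ← AddSubgroup.map_map]
      apply AddSubgroup.map_mono
      rintro _ ⟨y, hy, rfl⟩
      have hy' : τ y - y = 0 := hy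
      have : σ (j y) - j y = 0 := by
        rw [← hj, ← map_sub, hy', map_zero]
      exact this
    have h5 : padicValNat p (Nat.card (τ - AddMonoidHom.id Y).ker) ≤
        padicValNat p (Nat.card (((σ - AddMonoidHom.id X).ker).map N)) := by
      rw [← val_smul m hm]
      exact val_dvd (card_ne _) (AddSubgroup.card_dvd_of_le h4)
    have h6 : 1 ≤ padicValNat p (Nat.card (N.ker ⊓ (σ - AddMonoidHom.id X).ker : AddSubgroup X)) :=
      one_le_padicValNat_of_dvd (card_ne _) h1
    rw [h2, val_mul (p := p) (card_ne _) (card_ne _)] at hfix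
    omega
  refine ⟨key, ?_⟩
  have h2 := card_map_ker N (⊤ : AddSubgroup X)
  rw [inf_top_eq, Nat.card_congr (AddSubgroup.topEquiv.toEquiv)] at h2
  rw [h2, val_mul (p := p) (card_ne _) (card_ne _), padicValNat.eq_zero_of_not_dvd key, zero_add]
  apply le_antisymm
  · exact val_dvd Nat.card_pos.ne' (AddSubgroup.card_addSubgroup_dvd_card _)
  · have h3 : (DistribMulAction.toAddMonoidHom Y m : Y →+ Y) = N.comp j := by
      ext y
      exact (hNj y).symm
    have h4 : (⊤ : AddSubgroup Y).map (DistribMulAction.toAddMonoidHom Y m : Y →+ Y) ≤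
        (⊤ : AddSubgroup X).map N := by
      rw [h3, ← AddSubgroup.map_map]
      exact AddSubgroup.map_mono le_top
    have h5 := val_smul (X := Y) m hm ⊤
    rw [Nat.card_congr (AddSubgroup.topEquiv (G := Y)).toEquiv] at h5
    rw [← h5]
    exact val_dvd (card_ne _) (AddSubgroup.card_dvd_of_le h4)

end

end Pool.Agent.H515.CH
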