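import Pool.Agent.H515.Amb2
import Pool.Agent.H515.FinAlg

/-! # The transfer theorem for cyclic extensions -/

set_option autoImplicit false
set_option linter.unusedSectionVars false
set_option linter.deprecated false

namespace Pool.Agent.H515.CH

open NumberField IsDedekindDomain Pool.Agent.Q5.BR Pool.Agent.Q92.AR Pool.Agent.Q106.AR
open Pool.Agent.TeamU (act mem_act)
open Pool.Agent.Q280.AR (under_under rdeg_tower)
open Pool.Agent.Q182.AR (upA nuA)

/-- the group of divisor classes -/
abbrev DC (E : Type) [Field E] [NumberField E] : Type := Dv E ⧸ (PP E)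

instance (E : Type) [Field E] [NumberField E] : Finite (DC E) :=
  haveI : (PP E).FiniteIndex := ⟨index_PP_ne⟩
  AddSubgroup.finite_quotient_of_finiteIndex

theorem card_DC (E : Type) [Field E] [NumberField E] : Nat.card (DC E) = classNumber E :=
  index_PP (F := E)

section
variable {F E : Type} [Field F] [NumberField F] [Field E] [NumberField E] [Algebra F E]

theorem sb_le (σ : E ≃ₐ[F] E) : PP E ≤ (PP E).comap (sD σ) := by
  rintro _ ⟨x, rfl⟩
  exact ⟨sE σ x, prinHom_sE σ x⟩

/-- the Galois action on divisor classes -/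
noncomputable def sb (σ : E ≃ₐ[F] E) : DC E →+ DC E := QuotientAddGroup.map _ _ (sD σ) (sb_le σ)

theorem sb_mk (σ : E ≃ₐ[F] E) (D : Dv E) : sb σ (QuotientAddGroup.mk D) =
    QuotientAddGroup.mk (sD σ D) := rfl

theorem sb_iterate (σ : E ≃ₐ[F] E) (n : ℕ) (D : Dv E) :
    (sb σ)^[n] (QuotientAddGroup.mk D) = QuotientAddGroup.mk ((sD σ ^ n) D) := by
  induction n generalizing D with
  | zero => rfl
  | succ n ih =>
    rw [Function.iterate_succ_apply, sb_mk, ih, pow_succ]
    rfl

theorem sb_finrank [IsGalois F E] (σ : E ≃ₐ[F] E) (x : DC E) :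
    (sb σ)^[Module.finrank F E] x = x := by
  obtain ⟨D, rfl⟩ := QuotientAddGroup.mk_surjective x
  rw [sb_iterate, Pool.Agent.Q182.AR.sD_pow_finrank]
  rfl

theorem card_fixed (σ : E ≃ₐ[F] E) : Nat.card (sb σ - AddMonoidHom.id (DC E)).ker =
    (PP E).relIndex (AA σ) := by
  have h1 : (AA σ).map (QuotientAddGroup.mk' (PP E)) = (sb σ - AddMonoidHom.id (DC E)).ker := by
    ext x
    constructor
    · rintro ⟨D, hD, rfl⟩
      have hD' : sD σ D - D ∈ PP E := hD
      change sb σ (QuotientAddGroup.mk D) - QuotientAddGroup.mk D = 0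
      rw [sb_mk, ← QuotientAddGroup.mk_sub]
      exact (QuotientAddGroup.eq_zero_iff _).2 hD'
    · intro hx
      obtain ⟨D, rfl⟩ := QuotientAddGroup.mk_surjective x
      refine ⟨D, ?_, rfl⟩
      have h2 : sb σ (QuotientAddGroup.mk D) - QuotientAddGroup.mk D = 0 := hx
      rw [sb_mk, ← QuotientAddGroup.mk_sub] at h2
      have h3 : sD σ D - D ∈ PP E := (QuotientAddGroup.eq_zero_iff (sD σ D - D)).1 h2
      exact h3
  rw [← h1, ← AddSubgroup.relIndex_ker, QuotientAddGroup.ker_mk']

theorem nb_le : PP E ≤ (PP F).comap (nmD F E) := by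
  rintro _ ⟨x, rfl⟩
  exact ⟨nuA F E x, (nm_prin x.toMul).symm⟩

/-- the norm of divisor classes -/
noncomputable def nb (F E : Type) [Field F] [NumberField F] [Field E] [NumberField E]
    [Algebra F E] : DC E →+ DC F := QuotientAddGroup.map _ _ (nmD F E) nb_le

theorem jb_le : PP F ≤ (PP E).comap (cn F E) := by
  rintro _ ⟨x, rfl⟩
  exact ⟨upA F E x, (cn_prin x.toMul).symm⟩

/-- the extension of divisor classes -/
noncomputable def jb (F E : Type) [Field F] [NumberField F] [Field E] [NumberField E]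
    [Algebra F E] : DC F →+ DC E := QuotientAddGroup.map _ _ (cn F E) jb_le

theorem nb_jb (y : DC F) : nb F E (jb F E y) = Module.finrank F E • y := by
  obtain ⟨D, rfl⟩ := QuotientAddGroup.mk_surjective y
  change QuotientAddGroup.mk (nmD F E (cn F E D)) = _
  rw [nm_cn]
  rfl

end

section
variable {k k' F F' : Type} [Field k] [NumberField k] [Field k'] [NumberField k'] [Field F]
  [NumberField F] [Field F'] [NumberField F'] [Algebra k k'] [Algebra k F] [Algebra k F']
  [Algebra k' F'] [Algebra F F'] [IsScalarTower k k' F'] [IsScalarTower k F F']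

/-- **Transfer of the `p`-part of the class group along a `p`-extension.** -/
theorem transfer_cyclic (S : Sqr k k' F F') [IsGalois k k'] [IsGalois F F'] (p s : ℕ)
    [Fact p.Prime] (hp : Module.finrank k k' = p ^ s) (hc : (Module.finrank k F).Coprime p)
    (hm : Module.finrank k' F' = Module.finrank k F)
    (hn : Module.finrank F F' = Module.finrank k k') (hcyc : IsCyclic (k' ≃ₐ[k] k'))
    (hns : ∀ W : HeightOneSpectrum (𝓞 F'), ¬ Unramified k' (W.under (𝓞 k)) →
      ld k (W.under (𝓞 F)) = Module.finrank k F)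
    (hR : p ≠ 2 ∨ IsEmpty (RealRam F F'))
    (hcl : padicValNat p (classNumber F) ≤ padicValNat p (classNumber k)) :
    ¬ p ∣ Nat.card (nb k' F').ker ∧
      padicValNat p (classNumber F') = padicValNat p (classNumber k') := by
  classical
  obtain ⟨τ, hτ⟩ := hcyc
  obtain ⟨σ, h⟩ := S.ext τ
  have hσ := S.gen h hτ
  have hc' : (Module.finrank k F).Coprime (Module.finrank k k') := by
    rw [hp]
    exact Nat.Coprime.pow_right s hc
  have hai := ai_dvd S hc' hm hn h hτ hns
  have hni : ni k k' ∣ ni F F' := ni_dvd (k := k) (k' := k') (F := F) (F' := F') rfl hc'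
  have hni0 := ni_ne σ hσ
  have hni0' := ni_ne τ hτ
  have C1 := chevalley σ hσ
  have C2 := chevalley τ hτ
  have hP1 : (PP F').relIndex (AA σ) ≠ 0 := by
    rw [← card_fixed]
    exact Nat.card_pos.ne'
  have hP2 : (PP k').relIndex (AA τ) ≠ 0 := by
    rw [← card_fixed]
    exact Nat.card_pos.ne'
  have hn0 : Module.finrank k k' ≠ 0 := Module.finrank_pos.ne'
  have hn0' : Module.finrank F F' ≠ 0 := Module.finrank_pos.ne'
  have hL1 : (PP F').relIndex (AA σ) * ni F F' * Module.finrank F F' ≠ 0 :=
    mul_ne_zero (mul_ne_zero hP1 hni0) hn0'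
  have hL2 : (PP k').relIndex (AA τ) * ni k k' * Module.finrank k k' ≠ 0 :=
    mul_ne_zero (mul_ne_zero hP2 hni0') hn0
  have hR1 := hL1
  rw [C1] at hR1
  have hR2 := hL2
  rw [C2] at hR2
  have hai1 : ai σ ≠ 0 := right_ne_zero_of_mul (right_ne_zero_of_mul hR1)
  have hai2 : ai τ ≠ 0 := right_ne_zero_of_mul (right_ne_zero_of_mul hR2)
  have V1 := congrArg (padicValNat p) C1
  have V2 := congrArg (padicValNat p) C2
  rw [val_mul (mul_ne_zero hP1 hni0) hn0', val_mul hP1 hni0,
    val_mul (left_ne_zero_of_mul hR1) (right_ne_zero_of_mul hR1),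
    val_mul index_PP_ne hai1, index_PP] at V1
  rw [val_mul (mul_ne_zero hP2 hni0') hn0, val_mul hP2 hni0',
    val_mul (left_ne_zero_of_mul hR2) (right_ne_zero_of_mul hR2),
    val_mul index_PP_ne hai2, index_PP] at V2
  have h2 : padicValNat p (2 ^ Nat.card (RealRam F F')) = 0 := by
    rcases hR with hR | hR
    · apply padicValNat.eq_zero_of_not_dvd
      intro hd
      have h3 := (Nat.prime_dvd_prime_iff_eq (Fact.out : p.Prime) Nat.prime_two).1
        ((Fact.out : p.Prime).dvd_of_dvd_pow hd)
      exact hR h3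
    · have : Nat.card (RealRam F F') = 0 := Nat.card_of_isEmpty
      rw [this, pow_zero]
      exact padicValNat.one
  have e1 := val_dvd (p := p) hni0 hni
  have e2 := val_dvd (p := p) hai2 hai
  rw [hn] at V1
  have hfix : padicValNat p (Nat.card (sb σ - AddMonoidHom.id (DC F')).ker) ≤
      padicValNat p (Nat.card (sb τ - AddMonoidHom.id (DC k')).ker) := by
    rw [card_fixed, card_fixed]
    omega
  have T := transfer (p := p) (nb k' F') (jb k' F') (Module.finrank k' F') (by rw [hm]; exact hc)
    (fun y => nb_jb y) (sb σ) (sb τ) ?_ ?_ (s := s) ?_ hfix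
  · rw [card_DC, card_DC] at T
    exact T
  · intro x
    obtain ⟨D, rfl⟩ := QuotientAddGroup.mk_surjective x
    change QuotientAddGroup.mk (nmD k' F' (sD σ D)) = QuotientAddGroup.mk (sD τ (nmD k' F' D))
    rw [nmD_sD' h]
  · intro y
    obtain ⟨D, rfl⟩ := QuotientAddGroup.mk_surjective y
    change QuotientAddGroup.mk (cn k' F' (sD τ D)) = QuotientAddGroup.mk (sD σ (cn k' F' D))
    rw [cn_sD' h]
  · intro x
    rw [← hp, ← hn]
    exact sb_finrank σ x

end

end Pool.Agent.H515.CH
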