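import Mathlib

/-! # An element acting transitively on all fibres -/

set_option autoImplicit false
set_option linter.unusedSectionVars false
set_option linter.deprecated false

namespace Pool.Agent.H515.CH

open MulAction

section
variable {G X Y : Type} [Group G] [Finite G] [MulAction G X] [MulAction G Y] [Finite X] [Finite Y]

/-- the orbits of a normal subgroup of a transitive group have the same size -/
theorem card_orbit_normal (N : Subgroup G) [N.Normal] (x : X) (g : G) :
    Nat.card (orbit N (g • x)) = Nat.card (orbit N x) := by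
  symm
  refine Nat.card_congr (Equiv.ofBijective (fun z : orbit N x => (⟨g • z.1, ?_⟩ : orbit N (g • x)))
    ⟨?_, ?_⟩)
  · obtain ⟨z, ⟨n, hn⟩, rfl⟩ := z
    refine ⟨⟨g * n * g⁻¹, (inferInstance : N.Normal).conj_mem n hn g⟩, ?_⟩
    change (g * n * g⁻¹) • g • x = g • n • x
    rw [mul_smul, mul_smul, inv_smul_smul]
  · intro a b h
    apply Subtype.ext
    exact smul_left_cancel g (congrArg Subtype.val h)
  · rintro ⟨z, ⟨n, hn⟩, rfl⟩
    refine ⟨⟨g⁻¹ • (n • g • x), ⟨⟨g⁻¹ * n * g, ?_⟩, ?_⟩⟩, ?_⟩
    · have := (inferInstance : N.Normal).conj_mem n hn g⁻¹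
      rwa [inv_inv] at this
    · change (g⁻¹ * n * g) • x = g⁻¹ • n • g • x
      rw [mul_smul, mul_smul]
    · apply Subtype.ext
      change g • g⁻¹ • (n • g • x) = n • g • x
      rw [smul_inv_smul]

/-- the main group theoretic lemma -/
theorem exists_transitive_on_fibres (l : ℕ) (hl : l.Prime) (f : X → Y)
    (hf : ∀ (g : G) (x : X), f (g • x) = g • f x) (ht : ∀ x x' : X, ∃ g : G, g • x = x')
    (hsurj : Function.Surjective f) (hX : Nat.card X = Nat.card Y * l) (hY : Nat.card Y ≤ l)
    (hY0 : 0 < Nat.card Y) :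
    ∃ g : G, ∀ x x' : X, f x = f x' → ∃ n : ℕ, g ^ n • x = x' := by
  classical
  have hlf : Fact l.Prime := ⟨hl⟩
  -- the fibres have `l` elements
  have hfib : ∀ y : Y, Nat.card {x : X // f x = y} = l := by
    have heq : ∀ y y' : Y, Nat.card {x : X // f x = y} = Nat.card {x : X // f x = y'} := by
      intro y y'
      obtain ⟨x, rfl⟩ := hsurj y
      obtain ⟨x', rfl⟩ := hsurj y'
      obtain ⟨g, rfl⟩ := ht x x'
      refine Nat.card_congr ⟨fun z => ⟨g • z.1, by rw [hf, z.2, hf]⟩,
        fun z => ⟨g⁻¹ • z.1, by rw [hf, z.2, hf, inv_smul_smul]⟩, fun z => ?_, fun z => ?_⟩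
      · apply Subtype.ext
        exact inv_smul_smul g z.1
      · apply Subtype.ext
        exact smul_inv_smul g z.1
    intro y
    have h1 : Nat.card X = Nat.card Y * Nat.card {x : X // f x = y} := by
      have hft : Fintype Y := Fintype.ofFinite Y
      rw [Nat.card_congr (Equiv.sigmaFiberEquiv f).symm, Nat.card_sigma]
      rw [Finset.sum_congr rfl fun y' _ => heq y' y, Finset.sum_const, smul_eq_mul,
        Finset.card_univ, ← Nat.card_eq_fintype_card]
    rw [hX] at h1
    exact (Nat.eq_of_mul_eq_mul_left hY0 h1).symm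
  -- the kernel of the action on `Y`
  let N : Subgroup G := (MulAction.toPermHom G Y).ker
  have hNmem : ∀ g : G, g ∈ N ↔ ∀ y : Y, g • y = y := by
    intro g
    rw [MonoidHom.mem_ker]
    constructor
    · intro h y
      exact congrArg (fun σ : Equiv.Perm Y => σ y) h
    · intro h
      ext y
      exact h y
  obtain ⟨S⟩ : Nonempty (Sylow l N) := inferInstance
  let S' : Subgroup G := (S : Subgroup N).map N.subtype
  have hS'N : S' ≤ N := by
    rintro _ ⟨s, -, rfl⟩
    exact s.2
  have hS'p : IsPGroup l S' := S.2.map _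
  -- `S'` fixes no point of `X`
  have hnofix : ∀ x : X, ∃ s ∈ S', s • x ≠ x := by
    intro x
    by_contra hcon
    push Not at hcon
    -- the orbit of `x` under `N` has order prime to `l`
    have h1 : (S : Subgroup N) ≤ stabilizer N x := by
      intro s hs
      exact hcon s ⟨s, hs, rfl⟩
    have h2 : ¬ l ∣ Nat.card (orbit N x) := by
      rw [Nat.card_coe_set_eq, ← MulAction.index_stabilizer]
      intro hd
      have h3 : (stabilizer N x).index ∣ (S : Subgroup N).index := Subgroup.index_dvd_of_le h1
      exact S.not_dvd_index (hd.trans h3)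
    -- all orbits of `N` have the same order, which divides `l`
    have horb : ∀ x' : X, Nat.card (orbit N x') = Nat.card (orbit N x) := by
      intro x'
      obtain ⟨g, rfl⟩ := ht x x'
      exact card_orbit_normal N x g
    have h4 : Nat.card (orbit N x) ∣ l := by
      -- `N` acts on the fibre of `x`
      let act : MulAction N {z : X // f z = f x} :=
        { smul := fun n z => ⟨(n : G) • z.1, by rw [hf, z.2]; exact (hNmem n.1).1 n.2 _⟩
          one_smul := fun z => Subtype.ext (one_smul G z.1)
          mul_smul := fun a b z => Subtype.ext (mul_smul (a : G) (b : G) z.1) }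
      have hact : ∀ (n : N) (z : {z : X // f z = f x}), ((n • z : {z : X // f z = f x}) : X) =
          (n : G) • (z : X) := fun _ _ => rfl
      have hcard : ∀ z : {z : X // f z = f x}, Nat.card (orbit N z) = Nat.card (orbit N x) := by
        intro z
        rw [← horb z.1]
        refine Nat.card_congr (Equiv.ofBijective
          (fun w : orbit N z => (⟨w.1.1, ?_⟩ : orbit N z.1)) ⟨?_, ?_⟩)
        · obtain ⟨w, ⟨n, rfl⟩⟩ := w
          exact ⟨n, rfl⟩
        · intro a b h
          apply Subtype.ext
          apply Subtype.ext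
          exact congrArg (fun w : orbit N z.1 => (w : X)) h
        · rintro ⟨w, ⟨n, rfl⟩⟩
          exact ⟨⟨n • z, ⟨n, rfl⟩⟩, rfl⟩
      have hft : Fintype (orbitRel.Quotient N {z : X // f z = f x}) := Fintype.ofFinite _
      have hsum := Nat.card_congr (MulAction.selfEquivSigmaOrbits N {z : X // f z = f x})
      rw [hfib, Nat.card_sigma, Finset.sum_congr rfl fun ω _ => hcard _, Finset.sum_const,
        smul_eq_mul] at hsum
      exact ⟨_, by rw [hsum, mul_comm]⟩
    have h5 : Nat.card (orbit N x) = 1 := by
      rcases (Nat.dvd_prime hl).1 h4 with h | h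
      · exact h
      · exact absurd (h ▸ dvd_refl l) h2
    -- so `N` is contained in the stabilizer of `x`
    have h6 : N ≤ stabilizer G x := by
      intro n hn
      have h7 : Subsingleton (orbit N x) := (Nat.card_eq_one_iff_unique.1 h5).1
      have h8 := h7.elim (⟨(⟨n, hn⟩ : N) • x, ⟨_, rfl⟩⟩ : orbit N x)
        ⟨x, ⟨1, one_smul N x⟩⟩
      exact congrArg Subtype.val h8
    have h7 : Nat.card X ∣ N.index := by
      have h8 : (stabilizer G x).index = Nat.card X := by
        rw [MulAction.index_stabilizer]
        have : orbit G x = Set.univ := by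
          ext z
          refine ⟨fun _ => trivial, fun _ => ?_⟩
          obtain ⟨g, hg⟩ := ht x z
          exact ⟨g, hg⟩
        rw [this, Set.ncard_univ]
      rw [← h8]
      exact Subgroup.index_dvd_of_le h6
    have h8 : N.index ∣ (Nat.card Y).factorial := by
      rw [Subgroup.index_ker, ← Nat.card_perm]
      exact Subgroup.card_subgroup_dvd_card _
    have h9 : l ∣ (Nat.card Y - 1).factorial := by
      have h10 := h7.trans h8
      rw [hX, ← Nat.mul_factorial_pred hY0.ne'] at h10
      exact Nat.dvd_of_mul_dvd_mul_left hY0 h10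
    have h11 := (Nat.Prime.dvd_factorial hl).1 h9
    omega
  -- the stabilizers in `S'` of a point in each fibre are proper; count
  choose x0 hx0 using hsurj
  have hexists : ∃ g ∈ S', ∀ y : Y, g • x0 y ≠ x0 y := by
    by_contra hcon
    push Not at hcon
    have hfS : Fintype S' := Fintype.ofFinite _
    have hfY : Fintype Y := Fintype.ofFinite _
    have hstab : ∀ y : Y, Nat.card (stabilizer S' (x0 y)) * l ≤ Nat.card S' := by
      intro y
      have h1 : Nat.card (stabilizer S' (x0 y)) * (stabilizer S' (x0 y)).index = Nat.card S' :=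
        Subgroup.card_mul_index _
      have h2 : (stabilizer S' (x0 y)).index ≠ 1 := by
        intro h
        rw [Subgroup.index_eq_one] at h
        obtain ⟨s, hs, hne⟩ := hnofix (x0 y)
        have h3 : (⟨s, hs⟩ : S') ∈ stabilizer S' (x0 y) := by rw [h]; trivial
        exact hne h3
      obtain ⟨m, hm⟩ := (IsPGroup.iff_card.1 hS'p)
      have h3 : (stabilizer S' (x0 y)).index ∣ l ^ m := by
        rw [← hm]
        exact Subgroup.index_dvd_card _
      obtain ⟨r, -, hr⟩ := (Nat.dvd_prime_pow hl).1 h3
      have hr0 : r ≠ 0 := by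
        rintro rfl
        exact h2 (by rw [hr, pow_zero])
      have h4 : l ≤ (stabilizer S' (x0 y)).index := by
        rw [hr]
        exact Nat.le_self_pow hr0 l
      calc _ ≤ Nat.card (stabilizer S' (x0 y)) * (stabilizer S' (x0 y)).index :=
            Nat.mul_le_mul_left _ h4
        _ = _ := h1
    -- the elements different from one
    let A : Y → Finset S' := fun y => Finset.univ.filter fun s => s • x0 y = x0 y ∧ s ≠ 1
    have hA : ∀ y, (A y).card + 1 = Nat.card (stabilizer S' (x0 y)) := by
      intro y
      have h1 : Finset.univ.filter (fun s : S' => s • x0 y = x0 y) = insert 1 (A y) := by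
        ext s
        simp only [A, Finset.mem_filter, Finset.mem_univ, true_and, Finset.mem_insert]
        constructor
        · intro h
          by_cases h1 : s = 1
          · exact Or.inl h1
          · exact Or.inr ⟨h, h1⟩
        · rintro (h | h)
          · rw [h, one_smul]
          · exact h.1
      have h2 : (1 : S') ∉ A y := by simp [A]
      rw [← Finset.card_insert_of_notMem h2, ← h1, ← Fintype.card_subtype,
        ← Nat.card_eq_fintype_card]
      rfl
    have hcov : (Finset.univ.filter fun s : S' => s ≠ 1) ⊆ Finset.univ.biUnion A := by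
      intro s hs
      rw [Finset.mem_filter] at hs
      obtain ⟨y, hy⟩ := hcon s.1 s.2
      rw [Finset.mem_biUnion]
      refine ⟨y, Finset.mem_univ _, ?_⟩
      simp only [A, Finset.mem_filter, Finset.mem_univ, true_and]
      exact ⟨hy, hs.2⟩
    have hle := (Finset.card_le_card hcov).trans Finset.card_biUnion_le
    have hne1 : (Finset.univ.filter fun s : S' => s ≠ 1).card + 1 = Nat.card S' := by
      rw [Finset.filter_ne' Finset.univ (1 : S'), Finset.card_erase_of_mem (Finset.mem_univ _),
        Finset.card_univ, ← Nat.card_eq_fintype_card]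
      have : 0 < Nat.card S' := Nat.card_pos
      omega
    -- `l * (|S| - 1) ≤ |Y| * (|S| - l)`
    have hsum : l * (∑ y : Y, (A y).card) + Nat.card Y * l ≤ Nat.card Y * Nat.card S' := by
      have h1 : ∀ y ∈ (Finset.univ : Finset Y), l * (A y).card + l ≤ Nat.card S' := by
        intro y _
        have h2 := hstab y
        rw [← hA y] at h2
        nlinarith
      have h2 := Finset.sum_le_sum h1
      rw [Finset.sum_add_distrib, ← Finset.mul_sum, Finset.sum_const, Finset.sum_const,
        Finset.card_univ, ← Nat.card_eq_fintype_card, smul_eq_mul, smul_eq_mul] at h2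
      exact h2
    have hl2 := hl.two_le
    have h5 : l * (∑ y : Y, (A y).card) ≥ l * (Nat.card S' - 1) := by
      apply Nat.mul_le_mul_left
      omega
    have hSpos : 0 < Nat.card S' := Nat.card_pos
    obtain ⟨c, hc⟩ : ∃ c, Nat.card S' = c + 1 := ⟨Nat.card S' - 1, by omega⟩
    rw [hc] at h5 hsum
    rw [Nat.add_sub_cancel] at h5
    -- `l c + |Y| l ≤ |Y| (c + 1)`, `|Y| ≤ l`
    have h6 : l * c + Nat.card Y * l ≤ Nat.card Y * (c + 1) := by omega
    have h7 : Nat.card Y * c ≤ l * c := Nat.mul_le_mul_right c hY
    nlinarith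
  obtain ⟨g, hgS, hg⟩ := hexists
  refine ⟨g, fun x x' hxx => ?_⟩
  -- the orbit of `x0 y` under `g` is the whole fibre
  have hgN : g ∈ N := hS'N hgS
  have hgp : IsPGroup l (Subgroup.zpowers g) :=
    hS'p.to_le (by rw [Subgroup.zpowers_le]; exact hgS)
  have hfo : IsOfFinOrder g := isOfFinOrder_of_finite g
  have key : ∀ z : X, f z = f x → z ∈ orbit (Subgroup.zpowers g) (x0 (f x)) := by
    have h1 : orbit (Subgroup.zpowers g) (x0 (f x)) ⊆ {z | f z = f x} := by
      rintro _ ⟨⟨n, hn⟩, rfl⟩
      have hnN : n ∈ N := by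
        have : Subgroup.zpowers g ≤ N := by rw [Subgroup.zpowers_le]; exact hgN
        exact this hn
      change f (n • x0 (f x)) = f x
      rw [hf, hx0]
      exact (hNmem n).1 hnN _
    have h2 : l ≤ Nat.card (orbit (Subgroup.zpowers g) (x0 (f x))) := by
      obtain ⟨m, hm⟩ := hgp.card_orbit (x0 (f x))
      have hm0 : m ≠ 0 := by
        rintro rfl
        rw [pow_zero] at hm
        have h7 : Subsingleton (orbit (Subgroup.zpowers g) (x0 (f x))) :=
          (Nat.card_eq_one_iff_unique.1 hm).1
        have h8 := h7.elim (⟨(⟨g, Subgroup.mem_zpowers g⟩ : Subgroup.zpowers g) • x0 (f x),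
          ⟨_, rfl⟩⟩ : orbit (Subgroup.zpowers g) (x0 (f x)))
          ⟨x0 (f x), ⟨1, one_smul _ _⟩⟩
        exact hg (f x) (congrArg Subtype.val h8)
      rw [hm]
      exact Nat.le_self_pow hm0 l
    have h3 : Nat.card ({z | f z = f x} : Set X) = l := hfib (f x)
    have h4 : orbit (Subgroup.zpowers g) (x0 (f x)) = {z | f z = f x} := by
      apply Set.eq_of_subset_of_ncard_le h1
      change Nat.card ({z | f z = f x} : Set X) ≤
        Nat.card (orbit (Subgroup.zpowers g) (x0 (f x)))
      rw [h3]
      exact h2
    intro z hz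
    rw [h4]
    exact hz
  obtain ⟨⟨a, ha⟩, ha'⟩ := key x rfl
  obtain ⟨⟨b, hb⟩, hb'⟩ := key x' hxx.symm
  have ha2 : a • x0 (f x) = x := ha'
  have hb2 : b • x0 (f x) = x' := hb'
  obtain ⟨n, hn⟩ := hfo.mem_powers_iff_mem_zpowers.2
    ((Subgroup.zpowers g).mul_mem hb ((Subgroup.zpowers g).inv_mem ha))
  have hn' : g ^ n = b * a⁻¹ := hn
  refine ⟨n, ?_⟩
  rw [hn', mul_smul, ← ha2, inv_smul_smul, hb2]

end

end Pool.Agent.H515.CH
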