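import Pool.Agent.H515.Comp

/-! # The transfer theorem for Galois extensions of `p`-power degree -/

set_option autoImplicit false
set_option linter.unusedSectionVars false
set_option linter.deprecated false

namespace Pool.Agent.H515.CH

open NumberField IsDedekindDomain Pool.Agent.Q5.BR Pool.Agent.Q92.AR Pool.Agent.Q106.AR
open Pool.Agent.Q280.AR (under_under rdeg_tower)

/-- a group of order `p ^ (s + 1)` has a normal subgroup of order `p ^ s` -/
theorem exists_normal {G : Type} [Group G] [Finite G] (p s : ℕ) [Fact p.Prime]
    (h : Nat.card G = p ^ (s + 1)) : ∃ H : Subgroup G, H.Normal ∧ Nat.card H = p ^ s := by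
  obtain ⟨H, hH⟩ := Sylow.exists_subgroup_card_pow_prime (G := G) p (n := s)
    (by rw [h]; exact pow_dvd_pow p (Nat.le_succ s))
  refine ⟨H, ?_, hH⟩
  apply Subgroup.normal_of_index_eq_minFac_card
  have h1 := H.card_mul_index
  rw [hH, h, pow_succ] at h1
  have h2 : H.index = p := Nat.eq_of_mul_eq_mul_left (pow_pos (Fact.out : p.Prime).pos s) h1
  rw [h2, h, Nat.pow_minFac (Nat.succ_ne_zero s), (Fact.out : p.Prime).minFac_eq]

theorem unram_top {F L E : Type} [Field F] [NumberField F] [Field L] [NumberField L] [Field E]
    [NumberField E] [Algebra F L] [Algebra L E] [Algebra F E] [IsScalarTower F L E]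
    {u : HeightOneSpectrum (𝓞 L)} (h : Unramified E (u.under (𝓞 F))) : Unramified E u := by
  rw [unramified_iff]
  rintro w rfl
  rw [under_under F L E w] at h
  have h1 := ri_eq_one h (w := w) rfl
  rw [ri_tower F L E w] at h1
  exact Nat.eq_one_of_mul_eq_one_right h1

theorem transfer_gal (p : ℕ) [Fact p.Prime] (s : ℕ) : ∀ (k k' F F' : Type) [Field k]
    [NumberField k] [Field k'] [NumberField k'] [Field F] [NumberField F] [Field F']
    [NumberField F'] [Algebra k k'] [Algebra k F] [Algebra k F'] [Algebra k' F'] [Algebra F F']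
    [IsScalarTower k k' F'] [IsScalarTower k F F'] [IsGalois k k'],
    IntermediateField.adjoin F (Set.range (algebraMap k' F')) = ⊤ →
    Module.finrank k k' = p ^ s → (Module.finrank k F).Coprime p →
    (∀ w : HeightOneSpectrum (𝓞 F), ¬ Unramified k' (w.under (𝓞 k)) →
      ld k w = Module.finrank k F) →
    (p ≠ 2 ∨ IsEmpty (RealRam F F')) →
    padicValNat p (classNumber F) ≤ padicValNat p (classNumber k) →
    ¬ p ∣ Nat.card (nb k' F').ker ∧
      padicValNat p (classNumber F') = padicValNat p (classNumber k') := by
  induction s with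
  | zero =>
    intro k k' F F' _ _ _ _ _ _ _ _ _ _ _ _ _ _ _ _ htop hp hc hns hR hcl
    have hc' : (Module.finrank k F).Coprime (Module.finrank k k') := by
      rw [hp]
      exact Nat.Coprime.pow_right _ hc
    obtain ⟨S, hn, hm⟩ := sqr_comp htop hc'
    have hG : IsGalois F F' := gal_comp (k := k) htop
    have hcard : Nat.card (k' ≃ₐ[k] k') = 1 := by
      rw [IsGalois.card_aut_eq_finrank, hp, pow_zero]
    have hsub : Subsingleton (k' ≃ₐ[k] k') := (Nat.card_eq_one_iff_unique.1 hcard).1
    refine transfer_cyclic S p 0 hp hc hm hn isCyclic_of_subsingleton ?_ hR hcl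
    intro W hW
    apply hns
    rw [under_under k F F' W]
    exact hW
  | succ s ih =>
    intro k k' F F' _ _ _ _ _ _ _ _ _ _ _ _ _ _ _ _ htop hp hc hns hR hcl
    have hG : IsGalois F F' := gal_comp (k := k) htop
    have hcard : Nat.card (k' ≃ₐ[k] k') = p ^ (s + 1) := by
      rw [IsGalois.card_aut_eq_finrank, hp]
    obtain ⟨H, hHn, hHc⟩ := exists_normal p s hcard
    let k1 : IntermediateField k k' := IntermediateField.fixedField H
    have hk1N : NumberField k1 := NumberField.of_module_finite k k1
    have hk1G : IsGalois k k1 := IsGalois.of_fixedField_normal_subgroup H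
    have hk1T : IsGalois k1 k' := IsGalois.tower_top_of_isGalois k k1 k'
    have hk1f : Module.finrank k1 k' = p ^ s := by
      rw [← hHc]
      exact IntermediateField.finrank_fixedField_eq_card H
    have hk1b : Module.finrank k k1 = p := by
      have h1 := Module.finrank_mul_finrank k k1 k'
      rw [hk1f, hp, pow_succ'] at h1
      exact Nat.eq_of_mul_eq_mul_right (pow_pos (Fact.out : p.Prime).pos s) h1
    let T : Set F' := Set.range (fun x : k1 => algebraMap k' F' (x : k'))
    let F1 : IntermediateField F F' := IntermediateField.adjoin F T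
    have hF1N : NumberField F1 := NumberField.of_module_finite F F1
    have hmem : ∀ x : k1, algebraMap k1 F' x ∈ F1 := fun x =>
      IntermediateField.subset_adjoin F T ⟨x, rfl⟩
    let _ : Algebra k1 F1 := RingHom.toAlgebra
      ((algebraMap k1 F').codRestrict F1.toSubalgebra.toSubring hmem)
    have : IsScalarTower k1 F1 F' := IsScalarTower.of_algebraMap_eq fun x => rfl
    have : IsScalarTower k k1 F1 := IsScalarTower.of_algebraMap_eq fun x => by
      apply Subtype.ext
      change algebraMap k F' x = algebraMap k' F' (algebraMap k k' x)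
      rw [← IsScalarTower.algebraMap_apply]
    have hF1top : IntermediateField.adjoin F (Set.range (algebraMap k1 F1)) = ⊤ := by
      apply IntermediateField.lift_injective F1
      rw [IntermediateField.lift_adjoin, IntermediateField.lift_top]
      change _ = IntermediateField.adjoin F T
      congr 1
      ext y
      constructor
      · rintro ⟨_, ⟨x, rfl⟩, rfl⟩
        exact ⟨x, rfl⟩
      · rintro ⟨x, rfl⟩
        exact ⟨_, ⟨x, rfl⟩, rfl⟩
    have hc1 : (Module.finrank k F).Coprime (Module.finrank k k1) := by rw [hk1b]; exact hc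
    obtain ⟨S1, hn1, hm1⟩ := sqr_comp hF1top hc1
    have hG1 : IsGalois F F1 := gal_comp (k := k) hF1top
    have hNS1 : ∀ W : HeightOneSpectrum (𝓞 F1), ¬ Unramified k' (W.under (𝓞 k)) →
        ld k (W.under (𝓞 F)) = Module.finrank k F := by
      intro W hW
      apply hns
      rw [under_under k F F1 W]
      exact hW
    have hcyc : IsCyclic (k1 ≃ₐ[k] k1) := by
      apply isCyclic_of_prime_card (p := p)
      rw [IsGalois.card_aut_eq_finrank, hk1b]
    have T1 := transfer_cyclic S1 p 1 (by rw [hk1b, pow_one]) hc hm1 hn1 hcyc
      (fun W hW => hNS1 W fun h => hW h.sub)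
      (hR.imp_right fun h => realRam_bot (E := F') h) hcl
    refine ih k1 k' F1 F' ?_ hk1f (by rw [hm1]; exact hc) ?_
      (hR.imp_right fun h => realRam_top (F := F) h) (le_of_eq T1.2)
    · rw [← IntermediateField.restrictScalars_eq_top_iff (K := F), eq_top_iff, ← htop,
        IntermediateField.adjoin_le_iff]
      intro x hx
      exact IntermediateField.subset_adjoin F1 _ hx
    · intro w1 hw1
      apply ld_sq hc1 hm1 w1
      apply hNS1
      intro h
      apply hw1
      have h2 : Unramified k' ((w1.under (𝓞 k1)).under (𝓞 k)) := by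
        rw [under_under k k1 F1 w1]
        exact h
      exact unram_top (F := k) h2

end Pool.Agent.H515.CH
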