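import Pool.Agent.H515.ClN

/-! # The layers of the cyclotomic `ℤ_p`-extension -/

set_option autoImplicit false
set_option linter.unusedSectionVars false
set_option linter.deprecated false

namespace Pool.Agent.H515.CH

open NumberField IsDedekindDomain Pool.Agent.Q5.BR Pool.Agent.Q92.AR Pool.Agent.Q106.AR
open Pool.Agent.Q280.AR (under_under rdeg_tower)

/-- the field generated by the roots of unity of order dividing `N` -/
noncomputable abbrev cyc (N : ℕ) : IntermediateField ℚ ℂ :=
  IntermediateField.adjoin ℚ {z : ℂ | z ^ N = 1}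

theorem cyc_ext {N : ℕ} (hN : N ≠ 0) : IsCyclotomicExtension {N} ℚ (cyc N) := by
  have h := IntermediateField.isCyclotomicExtension_adjoin_of_exists_isPrimitiveRoot {N} ℚ ℂ
    (fun n hn h0 => ⟨_, Complex.isPrimitiveRoot_exp n h0⟩)
  have e : {x : ℂ | ∃ n ∈ ({N} : Set ℕ), n ≠ 0 ∧ x ^ n = 1} = {z : ℂ | z ^ N = 1} := by
    ext z
    constructor
    · rintro ⟨n, hn, h0, hz⟩
      rw [Set.mem_singleton_iff] at hn
      rw [hn] at hz
      exact hz
    · intro hz
      exact ⟨N, rfl, hN, hz⟩
  rw [e] at h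
  exact h

theorem cyc_fin {N : ℕ} (hN : N ≠ 0) : FiniteDimensional ℚ (cyc N) := by
  have := cyc_ext hN
  exact IsCyclotomicExtension.finiteDimensional {N} ℚ (cyc N)

theorem cyc_ab {N : ℕ} (hN : N ≠ 0) : IsAbelianGalois ℚ (cyc N) := by
  have := cyc_ext hN
  exact IsCyclotomicExtension.isAbelianGalois {N} ℚ (cyc N)

theorem sub_gal {N : ℕ} (hN : N ≠ 0) {E : IntermediateField ℚ ℂ} (hE : E ≤ cyc N) :
    IsGalois ℚ E := by
  have := cyc_ab hN
  have h : IsAbelianGalois ℚ E :=
    IsAbelianGalois.of_algHom (IntermediateField.inclusion hE).toRingHom.toRatAlgHom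
  infer_instance

theorem sub_fin {N : ℕ} (hN : N ≠ 0) {E : IntermediateField ℚ ℂ} (hE : E ≤ cyc N) :
    FiniteDimensional ℚ E := by
  have := cyc_fin hN
  exact FiniteDimensional.of_injective (IntermediateField.inclusion hE).toLinearMap
    (IntermediateField.inclusion hE).injective

/-- the inclusion as an algebra structure -/
@[reducible] noncomputable def inc {K L : IntermediateField ℚ ℂ} (h : K ≤ L) : Algebra K L :=
  (IntermediateField.inclusion h).toRingHom.toAlgebra

theorem adj_top {K L M : IntermediateField ℚ ℂ} (hK : K ≤ M) (hL : L ≤ M) (hM : M ≤ K ⊔ L) :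
    letI := inc hK
    letI := inc hL
    IntermediateField.adjoin K (Set.range (algebraMap L M)) = ⊤ := by
  let _ := inc hK
  let _ := inc hL
  have hq : IsScalarTower ℚ K M := IsScalarTower.of_algebraMap_eq fun x => rfl
  rw [← IntermediateField.restrictScalars_eq_top_iff (K := ℚ), eq_top_iff]
  rintro ⟨x, hx⟩ -
  have h1 : K ⊔ L ≤ IntermediateField.lift
      ((IntermediateField.adjoin K (Set.range (algebraMap L M))).restrictScalars ℚ) := by
    refine sup_le ?_ ?_
    · intro y hy
      refine ⟨⟨y, hK hy⟩, ?_, rfl⟩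
      exact (IntermediateField.adjoin K (Set.range (algebraMap L M))).algebraMap_mem ⟨y, hy⟩
    · intro y hy
      refine ⟨⟨y, hL hy⟩, ?_, rfl⟩
      exact IntermediateField.subset_adjoin K _ ⟨⟨y, hy⟩, rfl⟩
  obtain ⟨y, hy, hyx⟩ := h1 (hM hx)
  have h2 : y = ⟨x, hx⟩ := Subtype.ext hyx
  rw [← h2]
  exact hy

end Pool.Agent.H515.CH
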