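import Pool.Agent.H515.GT
import Pool.Agent.H515.Lay

/-! # Extensions of prime degree: an automorphism which is transitive on all fibres -/

set_option autoImplicit false
set_option linter.unusedSectionVars false
set_option linter.deprecated false

namespace Pool.Agent.H515.CH

open NumberField IsDedekindDomain Polynomial

section
variable {k F M : Type} [Field k] [NumberField k] [Field F] [NumberField F] [Field M]
  [NumberField M] [Algebra k F] [Algebra k M] [Algebra F M] [IsScalarTower k F M] [IsGalois ℚ M]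

theorem card_emb (L : Type) [Field L] [NumberField L] [Algebra L M] :
    Nat.card (L →ₐ[ℚ] M) = Module.finrank ℚ L := by
  apply AlgHom.natCard_of_splits
  intro x
  have h : ((minpoly ℚ (algebraMap L M x)).map (algebraMap ℚ M)).Splits :=
    Normal.splits inferInstance _
  have e : minpoly ℚ (algebraMap L M x) = minpoly ℚ x :=
    minpoly.algebraMap_eq (algebraMap L M).injective x
  rw [e] at h
  exact h

theorem exists_aut (L : Type) [Field L] [NumberField L] [Algebra L M] (i : L →ₐ[ℚ] M) :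
    ∃ g : M ≃ₐ[ℚ] M, ∀ x : L, g (algebraMap L M x) = i x :=
  Pool.Agent.Q92.AR.exists_ext (K := ℚ) (F := L) (M := M) i

theorem exists_g (l : ℕ) (hl : l.Prime) (hkF : Module.finrank k F = l)
    (hd : Module.finrank ℚ k ≤ l) : ∃ g : M ≃ₐ[ℚ] M, ∀ i j : F →ₐ[ℚ] M,
      (∀ x : k, i (algebraMap k F x) = j (algebraMap k F x)) → ∃ n : ℕ, ∀ x, (g ^ n) (i x) = j x := by
  classical
  let actX : MulAction (M ≃ₐ[ℚ] M) (F →ₐ[ℚ] M) :=
    { smul := fun z j => (z : M →ₐ[ℚ] M).comp j
      one_smul := fun j => rfl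
      mul_smul := fun z z' j => rfl }
  let actY : MulAction (M ≃ₐ[ℚ] M) (k →ₐ[ℚ] M) :=
    { smul := fun z j => (z : M →ₐ[ℚ] M).comp j
      one_smul := fun j => rfl
      mul_smul := fun z z' j => rfl }
  let kF : k →ₐ[ℚ] F := (algebraMap k F).toRatAlgHom
  let f : (F →ₐ[ℚ] M) → (k →ₐ[ℚ] M) := fun i => i.comp kF
  have cX := card_emb (M := M) F
  have cY := card_emb (M := M) k
  have hmul : Module.finrank ℚ k * Module.finrank k F = Module.finrank ℚ F :=
    Module.finrank_mul_finrank ℚ k F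
  have ht : ∀ i j : F →ₐ[ℚ] M, ∃ g : M ≃ₐ[ℚ] M, g • i = j := by
    intro i j
    obtain ⟨a, ha⟩ := exists_aut F i
    obtain ⟨b, hb⟩ := exists_aut F j
    refine ⟨b * a⁻¹, ?_⟩
    ext x
    change b (a.symm (i x)) = j x
    rw [← ha x, AlgEquiv.symm_apply_apply, hb]
  have hsurj : Function.Surjective f := by
    intro i
    obtain ⟨a, ha⟩ := exists_aut k i
    refine ⟨(a : M →ₐ[ℚ] M).comp (algebraMap F M).toRatAlgHom, ?_⟩
    ext x
    change a (algebraMap F M (algebraMap k F x)) = i x
    rw [← IsScalarTower.algebraMap_apply, ha]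
  obtain ⟨g, hg⟩ := exists_transitive_on_fibres (G := M ≃ₐ[ℚ] M) l hl f (fun _ _ => rfl) ht hsurj
    (by rw [cX, cY, ← hmul, hkF]) (by rw [cY]; exact hd) (by rw [cY]; exact Module.finrank_pos)
  refine ⟨g, fun i j hij => ?_⟩
  have hfe : f i = f j := by ext x; exact hij x
  obtain ⟨n, hn⟩ := hg i j hfe
  exact ⟨n, fun x => DFunLike.congr_fun hn x⟩

end

/-- a Galois closure inside the complex numbers -/
theorem exists_closure (F : IntermediateField ℚ ℂ) [NumberField F] :
    ∃ M : IntermediateField ℚ ℂ, F ≤ M ∧ NumberField M ∧ IsGalois ℚ M := by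
  classical
  let b := Module.finBasis ℚ F
  let q : ℚ[X] := ∏ i, minpoly ℚ ((b i : F) : ℂ)
  have hint : ∀ i, IsIntegral ℚ ((b i : F) : ℂ) := fun i =>
    (Algebra.IsIntegral.isIntegral (R := ℚ) (b i)).map ((algebraMap F ℂ).toRatAlgHom)
  have hq0 : q ≠ 0 := Finset.prod_ne_zero_iff.2 fun i _ => minpoly.ne_zero (hint i)
  have hsp : (q.map (algebraMap ℚ ℂ)).Splits := IsAlgClosed.splits _
  have h1 := IntermediateField.adjoin_rootSet_isSplittingField hsp
  let M : IntermediateField ℚ ℂ := IntermediateField.adjoin ℚ (q.rootSet ℂ)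
  have h1' : @IsSplittingField ℚ M _ _ M.algebra' q := h1
  have hfin0 : @FiniteDimensional ℚ M _ _ (@Algebra.toModule ℚ M _ _ M.algebra') :=
    @Polynomial.IsSplittingField.finiteDimensional ℚ M _ _ M.algebra' q h1'
  have hnor0 : @Normal ℚ M _ _ M.algebra' :=
    @Normal.of_isSplittingField ℚ _ M _ M.algebra' q h1'
  have hfin : FiniteDimensional ℚ M := by convert hfin0
  have hN : NumberField M := ⟨⟩
  have halg : (DivisionRing.toRatAlgebra : Algebra ℚ M) = M.algebra' := Subsingleton.elim _ _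
  have hnor : Normal ℚ M := by
    rw [halg]
    exact hnor0
  refine ⟨M, ?_, hN, ⟨⟩⟩
  have hb : ∀ i, ((b i : F) : ℂ) ∈ M := by
    intro i
    apply IntermediateField.subset_adjoin
    rw [Polynomial.mem_rootSet]
    refine ⟨hq0, ?_⟩
    rw [map_prod]
    exact Finset.prod_eq_zero (Finset.mem_univ i) (minpoly.aeval ℚ _)
  intro x hx
  have h3 := b.sum_repr (⟨x, hx⟩ : F)
  have h4 : x = ∑ i, ((b.repr (⟨x, hx⟩ : F) i : ℚ) : ℂ) * ((b i : F) : ℂ) := by
    have h5 := congrArg (algebraMap F ℂ) h3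
    rw [map_sum] at h5
    refine (show x = algebraMap F ℂ ⟨x, hx⟩ from rfl).trans (h5.symm.trans ?_)
    refine Finset.sum_congr rfl fun i _ => ?_
    rw [Rat.smul_def, map_mul, map_ratCast]
    rfl
  rw [h4]
  refine sum_mem fun i _ => mul_mem ?_ (hb i)
  exact SubfieldClass.ratCast_mem M _

end Pool.Agent.H515.CH
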