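import Pool.Agent.H515.Lay

/-! # The layers of the cyclotomic `ℤ_p`-extension, part 2 -/

set_option autoImplicit false
set_option linter.unusedSectionVars false
set_option linter.deprecated false

namespace Pool.Agent.H515.CH

open NumberField IsDedekindDomain Pool.Agent.Q5.BR Pool.Agent.Q92.AR Pool.Agent.Q106.AR
open Pool.Agent.Q280.AR (under_under rdeg_tower)

theorem nf {K : IntermediateField ℚ ℂ} (h : FiniteDimensional ℚ K) : NumberField K := ⟨⟩

theorem sup_fin {K L : IntermediateField ℚ ℂ} (hK : FiniteDimensional ℚ K)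
    (hL : FiniteDimensional ℚ L) : FiniteDimensional ℚ ↥(K ⊔ L) :=
  IntermediateField.finiteDimensional_sup K L

section
variable {k F E : Type} [Field k] [NumberField k] [Field F] [NumberField F] [Field E]
  [NumberField E] [Algebra k F] [Algebra E F]

/-- the degree of a compositum over the base divides the degree of a Galois extension of `ℚ` -/
theorem finrank_dvd [IsGalois ℚ E]
    (h : IntermediateField.adjoin k (Set.range (algebraMap E F)) = ⊤) :
    Module.finrank k F ∣ Module.finrank ℚ E := by
  have i1 : IsScalarTower ℚ E F := inferInstance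
  have i2 : IsScalarTower ℚ k F := inferInstance
  have hG : IsGalois k F := gal_comp (k := ℚ) (k' := E) h
  choose r hr using fun g : F ≃ₐ[k] F => res_comp (k := ℚ) (k' := E) g
  let f : (F ≃ₐ[k] F) →* (E ≃ₐ[ℚ] E) := MonoidHom.mk' r fun a b =>
    Xt.unique (hr (a * b)) ((hr a).mul (hr b))
  have hinj : Function.Injective f := by
    rw [injective_iff_map_eq_one]
    intro g hg
    apply inj_comp h
    intro x
    have h1 := hr g x
    have h2 : r g = 1 := hg
    rw [h2] at h1
    exact h1
  rw [← IsGalois.card_aut_eq_finrank, ← IsGalois.card_aut_eq_finrank]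
  exact Subgroup.card_dvd_of_injective f hinj

/-- cyclotomic extensions are unramified away from `N` -/
theorem unram_cyc {k B : Type} [Field k] [NumberField k] [Field B] [NumberField B] [Algebra k B]
    [IsGalois k B] {N : ℕ} (hN : N ≠ 0)
    (h : IntermediateField.adjoin k {x : B | x ^ N = 1} = ⊤) {v : HeightOneSpectrum (𝓞 k)}
    (hv : (N : 𝓞 k) ∉ v.asIdeal) : Unramified B v := by
  refine Pool.Agent.Q16.EX.unr_of_inertia v fun w hw g hg => ?_
  have h1 : ∀ x ∈ {x : B | x ^ N = 1}, g x = x := by
    intro x hx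
    refine Pool.Agent.Q16.EX.fix_root (F := k) (a := 1) hN (dvd_refl N) (by rw [hw]; exact hv) hg
      (one_mem _) ?_
    rw [Units.val_one, map_one]
    exact hx
  have h2 : Algebra.adjoin k {x : B | x ^ N = 1} = ⊤ := by
    rw [← IntermediateField.adjoin_toSubalgebra_of_isAlgebraic
      (fun x _ => Algebra.IsAlgebraic.isAlgebraic x), h]
    rfl
  have h3 : (g : B →ₐ[k] B) = AlgHom.id k B := AlgHom.ext_of_adjoin_eq_top h2 fun x hx => h1 x hx
  ext x
  exact DFunLike.congr_fun h3 x

theorem adj_roots {N : ℕ} {K M : IntermediateField ℚ ℂ} (hK : K ≤ M) (hC : cyc N ≤ M)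
    (hM : M ≤ K ⊔ cyc N) :
    letI := inc hK
    IntermediateField.adjoin K {x : M | x ^ N = 1} = ⊤ := by
  let _ := inc hK
  have hq : IsScalarTower ℚ K M := IsScalarTower.of_algebraMap_eq fun x => rfl
  rw [← IntermediateField.restrictScalars_eq_top_iff (K := ℚ), eq_top_iff]
  rintro ⟨x, hx⟩ -
  have h1 : K ⊔ cyc N ≤ IntermediateField.lift
      ((IntermediateField.adjoin K {x : M | x ^ N = 1}).restrictScalars ℚ) := by
    refine sup_le ?_ ?_
    · intro y hy
      refine ⟨⟨y, hK hy⟩, ?_, rfl⟩
      exact (IntermediateField.adjoin K {x : M | x ^ N = 1}).algebraMap_mem ⟨y, hy⟩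
    · rw [IntermediateField.adjoin_le_iff]
      intro y hy
      have hyM : y ∈ M := hC (IntermediateField.subset_adjoin ℚ _ hy)
      refine ⟨⟨y, hyM⟩, ?_, rfl⟩
      exact IntermediateField.subset_adjoin K {x : M | x ^ N = 1} (Subtype.ext hy)
  obtain ⟨y, hy, hyx⟩ := h1 (hM hx)
  have h2 : y = ⟨x, hx⟩ := Subtype.ext hyx
  rw [← h2]
  exact hy

/-- **The layers**: `k E / k` is Galois of degree dividing `[E : ℚ]` and unramified away from `N`. -/
theorem layer_facts {N : ℕ} (hN : N ≠ 0) {k E M : IntermediateField ℚ ℂ}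
    [NumberField k] [NumberField M] (hk : k ≤ M) (hEM : E ≤ M) (hM : M ≤ k ⊔ E)
    (hE : E ≤ cyc N) :
    letI := inc hk
    IsGalois k M ∧ Module.finrank k M ∣ Module.finrank ℚ E ∧
      ∀ v : HeightOneSpectrum (𝓞 k), (N : 𝓞 k) ∉ v.asIdeal → Unramified M v := by
  let i1 := inc hk
  let i2 := inc hEM
  have hEg := sub_gal hN hE
  have hEf : NumberField E := nf (sub_fin hN hE)
  have htop := adj_top hk hEM hM
  have i1' : IsScalarTower ℚ E M := inferInstance
  have i2' : IsScalarTower ℚ k M := inferInstance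
  refine ⟨gal_comp (k := ℚ) (k' := E) htop, finrank_dvd (E := E) htop, ?_⟩
  intro v hv
  -- the full cyclotomic extension
  let B : IntermediateField ℚ ℂ := k ⊔ cyc N
  have hkfin : FiniteDimensional ℚ k := inferInstance
  have hBf : NumberField B := nf (sup_fin hkfin (cyc_fin hN))
  have hkB : k ≤ B := le_sup_left
  have hCB : cyc N ≤ B := le_sup_right
  have hMB : M ≤ B := hM.trans (sup_le_sup_left hE _)
  let j1 := inc hkB
  let j2 := inc hMB
  let j3 := inc hCB
  have hcf : NumberField (cyc N) := nf (cyc_fin hN)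
  have hcg : IsGalois ℚ (cyc N) := (cyc_ab hN).toIsGalois
  have t1 : IsScalarTower k M B := IsScalarTower.of_algebraMap_eq fun x => rfl
  have t2 : IsScalarTower ℚ (cyc N) B := inferInstance
  have t3 : IsScalarTower ℚ k B := inferInstance
  have hBG : IsGalois k B := gal_comp (k := ℚ) (k' := cyc N) (adj_top hkB hCB le_rfl)
  exact (unram_cyc hN (adj_roots hkB hCB le_rfl) hv).sub

end

end Pool.Agent.H515.CH
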