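import Pool.Agent.H515.Lay2

/-! # The layers of the cyclotomic `ℤ_p`-extension, part 3 -/

set_option autoImplicit false
set_option linter.unusedSectionVars false
set_option linter.deprecated false

namespace Pool.Agent.H515.CH

open NumberField IsDedekindDomain Pool.Agent.Q5.BR Pool.Agent.Q92.AR Pool.Agent.Q106.AR
open Pool.Agent.Q280.AR (under_under rdeg_tower)

/-- the real places are unramified in the layers -/
theorem realRam_layer {N : ℕ} (hN : N ≠ 0) {F E M : IntermediateField ℚ ℂ}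
    [NumberField F] [NumberField M] (hF : F ≤ M) (hEM : E ≤ M) (hM : M ≤ F ⊔ E)
    (hE : E ≤ cyc N) (hreal : ∀ x ∈ E, starRingEnd ℂ x = x) :
    letI := inc hF
    IsEmpty (RealRam F M) := by
  let i1 := inc hF
  let i2 := inc hEM
  have hEg := sub_gal hN hE
  have hEf : NumberField E := nf (sub_fin hN hE)
  have htop := adj_top hF hEM hM
  refine ⟨fun x => ?_⟩
  obtain ⟨φ, hφ⟩ := x
  let a : Algebra F ℂ := ((algebraMap ℝ ℂ).comp φ).toAlgebra
  obtain ⟨ψ⟩ : Nonempty (M →ₐ[F] ℂ) := ⟨IsAlgClosed.lift⟩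
  have hψ : ∀ x : F, ψ (algebraMap F M x) = ((φ x : ℝ) : ℂ) := fun x => ψ.commutes x
  have hEr : ∀ x : E, starRingEnd ℂ (ψ (algebraMap E M x)) = ψ (algebraMap E M x) := by
    intro x
    let u : E →ₐ[ℚ] ℂ := ((ψ : M →+* ℂ).comp (algebraMap E M)).toRatAlgHom
    let v : E →ₐ[ℚ] ℂ := (algebraMap E ℂ).toRatAlgHom
    have hs : ((minpoly ℚ x).map (algebraMap ℚ E)).Splits := Normal.splits inferInstance x
    have hm0 : minpoly ℚ x ≠ 0 := minpoly.ne_zero (Algebra.IsIntegral.isIntegral x)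
    have h3 : u x ∈ u '' (minpoly ℚ x).rootSet E :=
      ⟨x, (Polynomial.mem_rootSet.2 ⟨hm0, minpoly.aeval ℚ x⟩), rfl⟩
    rw [hs.image_rootSet u, ← hs.image_rootSet v] at h3
    obtain ⟨z, -, hz⟩ := h3
    change starRingEnd ℂ (u x) = u x
    rw [← hz]
    exact hreal _ z.2
  let ψ' : M →ₐ[F] ℂ := { (starRingEnd ℂ).comp (ψ : M →+* ℂ) with
    commutes' := fun x => by
      change starRingEnd ℂ (ψ (algebraMap F M x)) = ((φ x : ℝ) : ℂ)
      rw [hψ, Complex.conj_ofReal] }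
  have h2 : Algebra.adjoin F (Set.range (algebraMap E M)) = ⊤ := by
    rw [← IntermediateField.adjoin_toSubalgebra_of_isAlgebraic
      (fun x _ => Algebra.IsAlgebraic.isAlgebraic x), htop]
    rfl
  have h3 : ψ' = ψ := by
    refine AlgHom.ext_of_adjoin_eq_top h2 ?_
    rintro _ ⟨x, rfl⟩
    exact hEr x
  have hr : ∀ x : M, (((ψ x).re : ℝ) : ℂ) = ψ x := by
    intro x
    have h4 : starRingEnd ℂ (ψ x) = ψ x := DFunLike.congr_fun h3 x
    exact Complex.conj_eq_iff_re.1 h4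
  apply hφ
  let y : M → ℝ := fun x => (ψ x).re
  refine ⟨{ toFun := y, map_one' := ?_, map_mul' := ?_, map_zero' := ?_, map_add' := ?_ }, ?_⟩
  · change (ψ 1).re = 1
    rw [map_one, Complex.one_re]
  · intro u v
    apply Complex.ofReal_injective
    change (((ψ (u * v)).re : ℝ) : ℂ) = (((ψ u).re * (ψ v).re : ℝ) : ℂ)
    rw [Complex.ofReal_mul, hr, hr, hr, map_mul]
  · change (ψ 0).re = 0
    rw [map_zero, Complex.zero_re]
  · intro u v
    change (ψ (u + v)).re = (ψ u).re + (ψ v).re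
    rw [map_add, Complex.add_re]
  · ext x
    apply Complex.ofReal_injective
    change (((ψ (algebraMap F M x)).re : ℝ) : ℂ) = ((φ x : ℝ) : ℂ)
    rw [hr, hψ]

end Pool.Agent.H515.CH
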