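import Pool.Agent.H515.Che

/-! # The number of primes above an unramified prime is the number of cycles of its Frobenius -/

set_option autoImplicit false
set_option linter.unusedSectionVars false
set_option linter.deprecated false

namespace Pool.Agent.H515.CH

open NumberField IsDedekindDomain Pool.Agent.Q5.BR Pool.Agent.Q92.AR Pool.Agent.Q106.AR
open Pool.Agent.Q280.AR (under_under rdeg_tower)

section
variable {K M : Type} [Field K] [Field M] [Algebra K M]

/-- `i` and `j` are in the same cycle of `g` -/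
def OrbRel (g : M ≃ₐ[K] M) (F : Type) [Field F] [Algebra K F] (i j : F →ₐ[K] M) : Prop :=
  ∃ n : ℕ, ∀ x : F, (g ^ n) (i x) = j x

/-- the number of cycles of `g` on the embeddings of `F` in `M` -/
noncomputable def orbs (g : M ≃ₐ[K] M) (F : Type) [Field F] [Algebra K F] : ℕ :=
  Nat.card (Quot (OrbRel g F))

end

theorem sum_div (N d : ℕ) (hN : N ≠ 0) (hd : d ∣ N) :
    ∑ n ∈ Finset.range N, (if d ∣ n then d else 0) = N := by
  have hd0 : 0 < d := Nat.pos_of_dvd_of_pos hd (Nat.pos_of_ne_zero hN)
  have h1 : ∑ n ∈ Finset.range N, (if d ∣ n then d else 0) =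
      ∑ n ∈ Finset.range N, (if d ∣ n + 1 then d else 0) := by
    have h2 := Finset.sum_range_succ (fun n => if d ∣ n then d else 0) N
    have h3 := Finset.sum_range_succ' (fun n => if d ∣ n then d else 0) N
    rw [h2] at h3
    simp only [hd, if_true, dvd_zero] at h3
    omega
  rw [h1, ← Finset.sum_filter, Finset.sum_const, Nat.card_multiples, smul_eq_mul,
    Nat.div_mul_cancel hd]

section
variable {K F M : Type} [Field K] [NumberField K] [Field F] [NumberField F] [Field M]
  [NumberField M] [Algebra K F] [Algebra K M] [Algebra F M] [IsScalarTower K F M] [IsGalois K M]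

theorem card_above {v : HeightOneSpectrum (𝓞 K)} (hu : Unramified M v) {g : M ≃ₐ[K] M}
    (hg : IsFrobenius v g) : (above F v).card = orbs g F := by
  classical
  let act : MulAction (Subgroup.zpowers g) (F →ₐ[K] M) :=
    { smul := fun z j => ((z : M ≃ₐ[K] M) : M →ₐ[K] M).comp j
      one_smul := fun j => rfl
      mul_smul := fun z z' j => rfl }
  have hsm : ∀ (z : Subgroup.zpowers g) (j : F →ₐ[K] M) (x : F), (z • j) x = (z : M ≃ₐ[K] M) (j x) :=
    fun z j x => rfl
  have hfo : IsOfFinOrder g := isOfFinOrder_of_finite g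
  set N := orderOf g with hNdef
  have hN : N ≠ 0 := (orderOf_pos g).ne'
  -- the cycles are the orbits
  have e1 : Nat.card (MulAction.orbitRel.Quotient (Subgroup.zpowers g) (F →ₐ[K] M)) = orbs g F := by
    refine Nat.card_congr (Quot.congrRight fun i j => ?_)
    constructor
    · rintro ⟨z, hz⟩
      have hz' : ∀ x, (z : M ≃ₐ[K] M) (j x) = i x := fun x => by rw [← hsm, ← hz]
      obtain ⟨n, hn⟩ := (hfo.mem_powers_iff_mem_zpowers.2 (Subgroup.inv_mem _ z.2))
      refine ⟨n, fun x => ?_⟩
      have hn' : g ^ n = (z : M ≃ₐ[K] M)⁻¹ := hn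
      rw [hn', ← hz' x]
      exact AlgEquiv.symm_apply_apply _ _
    · rintro ⟨n, hn⟩
      refine ⟨⟨(g ^ n)⁻¹, Subgroup.inv_mem _ (Subgroup.npow_mem_zpowers g n)⟩, ?_⟩
      ext x
      change (g ^ n).symm (j x) = i x
      rw [← hn x]
      exact AlgEquiv.symm_apply_apply _ _
  have hfin : Finite (F →ₐ[K] M) := inferInstance
  have hft : Fintype (F →ₐ[K] M) := Fintype.ofFinite _
  have hB := MulAction.sum_card_fixedBy_eq_card_orbits_mul_card_group (Subgroup.zpowers g)
    (F →ₐ[K] M)
  rw [← Nat.card_eq_fintype_card, ← Nat.card_eq_fintype_card, e1, Nat.card_zpowers] at hB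
  have hcf := fun n => Pool.Agent.Q92.AR.card_fixed (F := F) hu hg n
  -- the residue degrees divide the order of `g`
  have hdiv : ∀ w ∈ above F v, rdeg K w ∣ N := by
    have h1 := hcf N
    have h2 : Nat.card {j : F →ₐ[K] M // ∀ x, (g ^ N) (j x) = j x} = Module.finrank K F := by
      have h3 := hcf 0
      have h4 : Nat.card {j : F →ₐ[K] M // ∀ x, (g ^ N) (j x) = j x} =
          Nat.card {j : F →ₐ[K] M // ∀ x, (g ^ 0) (j x) = j x} := by
        rw [hNdef, pow_orderOf_eq_one, pow_zero]
      rw [h4, h3, ← sum_rdeg (hu.sub (F := F))]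
      exact Finset.sum_congr rfl fun w _ => by rw [if_pos (dvd_zero _)]
    rw [h2, ← sum_rdeg (hu.sub (F := F))] at h1
    by_contra hcon
    push Not at hcon
    obtain ⟨w, hw, hnd⟩ := hcon
    have h3 : ∑ w' ∈ above F v, (if rdeg K w' ∣ N then rdeg K w' else 0) <
        ∑ w' ∈ above F v, rdeg K w' := by
      refine Finset.sum_lt_sum (fun i _ => ?_) ⟨w, hw, ?_⟩
      · split_ifs
        · exact le_rfl
        · exact Nat.zero_le _
      · rw [if_neg hnd]
        exact rdeg_pos' w
    exact absurd h1.symm h3.ne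
  have hL : ∑ z : Subgroup.zpowers g, Fintype.card (MulAction.fixedBy (F →ₐ[K] M) z) =
      ∑ n ∈ Finset.range N, ∑ w ∈ above F v, (if rdeg K w ∣ n then rdeg K w else 0) := by
    rw [← (finEquivZPowers hfo).sum_comp, Finset.sum_range]
    refine Finset.sum_congr rfl fun n _ => ?_
    rw [← hcf n, ← Nat.card_eq_fintype_card]
    refine Nat.card_congr (Equiv.subtypeEquivRight fun j => ?_)
    rw [MulAction.mem_fixedBy, finEquivZPowers_apply]
    constructor
    · intro h x
      conv_rhs => rw [← h]
      rfl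
    · intro h
      ext x
      exact h x
  rw [hL, Finset.sum_comm] at hB
  have hR : ∑ w ∈ above F v, ∑ n ∈ Finset.range N, (if rdeg K w ∣ n then rdeg K w else 0) =
      (above F v).card * N := by
    rw [Finset.sum_congr rfl fun w hw => sum_div N (rdeg K w) hN (hdiv w hw), Finset.sum_const,
      smul_eq_mul]
  rw [hR] at hB
  exact Nat.eq_of_mul_eq_mul_right (Nat.pos_of_ne_zero hN) hB

end

section
variable {K k F M : Type} [Field K] [NumberField K] [Field k] [NumberField k] [Field F]
  [NumberField F] [Field M] [NumberField M] [Algebra K k] [Algebra K F] [Algebra K M]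
  [Algebra k F] [Algebra k M] [Algebra F M] [IsScalarTower K F M] [IsScalarTower K k M]
  [IsScalarTower K k F] [IsGalois K M]

/-- if `g` has as many cycles on the embeddings of `F` as on those of `k`, the primes of `k` above a
prime with Frobenius `g` do not split in `F` -/
theorem nonsplit_of_orbs {v : HeightOneSpectrum (𝓞 K)} (hu : Unramified M v) {g : M ≃ₐ[K] M}
    (hg : IsFrobenius v g) (ho : orbs g F = orbs g k) {w w' : HeightOneSpectrum (𝓞 F)}
    (hw : w.under (𝓞 K) = v) (h : w.under (𝓞 k) = w'.under (𝓞 k)) : w = w' := by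
  classical
  have c1 := card_above (F := F) hu hg
  have c2 := card_above (F := k) hu hg
  rw [ho, ← c2] at c1
  have hmaps : ∀ w ∈ above F v, w.under (𝓞 k) ∈ above k v := by
    intro w hw
    rw [mem_above, under_under K k F w]
    exact mem_above.1 hw
  have hsurj : ∀ u ∈ above k v, ∃ w, ∃ _ : w ∈ above F v, w.under (𝓞 k) = u := by
    intro u hu'
    obtain ⟨w, hw⟩ := Pool.Agent.Q182.AR.exists_above (F := k) (E := F) u
    refine ⟨w, ?_, hw⟩
    rw [mem_above, ← under_under K k F w, hw]
    exact mem_above.1 hu'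
  have hw' : w'.under (𝓞 K) = v := by
    rw [← under_under K k F w', ← h, under_under K k F w, hw]
  have hinj := Finset.inj_on_of_surj_on_of_card_le (fun w (_ : w ∈ above F v) => w.under (𝓞 k))
    hmaps (fun u hu' => by
      obtain ⟨w, hw, hwu⟩ := hsurj u hu'
      exact ⟨w, hw, hwu⟩) (le_of_eq c1)
  exact hinj (mem_above.2 hw) (mem_above.2 hw') h

end

end Pool.Agent.H515.CH
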