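import Pool.Agent.H515.Chev
import Pool.Graph.R_pool_sql_team_seeded_3997aac3.Q280.AR.Tow

/-! # Squares of fields: norm and conorm commute with the Galois action -/

set_option autoImplicit false
set_option linter.unusedSectionVars false
set_option linter.deprecated false

namespace Pool.Agent.H515.CH

open NumberField IsDedekindDomain Pool.Agent.Q5.BR Pool.Agent.Q92.AR Pool.Agent.Q106.AR
open Pool.Agent.TeamU (act mem_act)
open Pool.Agent.Q280.AR (under_under rdeg_tower)
open Pool.Agent.Q182.AR (upA nuA upA_injective tr_sE fixed_up resE resE_isRes quoE quoE_mk)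

/-! ### Towers -/

section
variable (F L E : Type) [Field F] [NumberField F] [Field L] [NumberField L] [Field E]
  [NumberField E] [Algebra F L] [Algebra L E] [Algebra F E] [IsScalarTower F L E]

theorem cn_cn (D : Dv F) : cn L E (cn F L D) = cn F E D := by
  have h : (cn L E).comp (cn F L) = cn F E := by
    refine Finsupp.addHom_ext fun v k => ?_
    rw [AddMonoidHom.comp_apply, cn_single, cn_single, map_zsmul]
    unfold dmap
    rw [cn_dvI _ (map_ne_bot v), Ideal.map_map]
    have hmap : algebraMap (𝓞 F) (𝓞 E) = (algebraMap (𝓞 L) (𝓞 E)).comp (algebraMap (𝓞 F) (𝓞 L)) :=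
      IsScalarTower.algebraMap_eq (𝓞 F) (𝓞 L) (𝓞 E)
    rw [hmap]
  exact DFunLike.congr_fun h D

theorem ri_tower (w : HeightOneSpectrum (𝓞 E)) : ri F w = ri L w * ri F (w.under (𝓞 L)) := by
  classical
  have h := DFunLike.congr_fun (cn_cn F L E (Finsupp.single (w.under (𝓞 F)) 1)) w
  rw [cn_apply, cn_apply, cn_apply, under_under F L E w, Finsupp.single_eq_same, mul_one,
    mul_one] at h
  exact_mod_cast h.symm

end

/-! ### Local degrees -/

section
variable {F E : Type} [Field F] [NumberField F] [Field E] [NumberField E] [Algebra F E]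

/-- the local degree of a prime -/
noncomputable def ld (F : Type) {E : Type} [Field F] [NumberField F] [Field E] [NumberField E]
    [Algebra F E] (w : HeightOneSpectrum (𝓞 E)) : ℕ := rdeg F w * ri F w

theorem rdeg_pos' (w : HeightOneSpectrum (𝓞 E)) : 0 < rdeg F w := by
  have h1 : w.asIdeal.LiesOver (w.under (𝓞 F)).asIdeal := ⟨rfl⟩
  have h2 := absNorm_rdeg (K := F) w
  have h3 := Pool.Agent.Q280.AR.two_le_absNorm E w
  rcases Nat.eq_zero_or_pos (rdeg F w) with h | h
  · rw [h, pow_zero] at h2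
    omega
  · exact h

theorem ld_pos (w : HeightOneSpectrum (𝓞 E)) : 0 < ld F w := Nat.mul_pos (rdeg_pos' w) (ri_pos w)

theorem sum_ld (v : HeightOneSpectrum (𝓞 F)) : ∑ w ∈ above E v, ld F w = Module.finrank F E := by
  classical
  have h := DFunLike.congr_fun (nm_cn (E := E) (Finsupp.single v (1 : ℤ))) v
  rw [Pool.Agent.Q149.AR.nmD_apply, Finsupp.smul_apply, Finsupp.single_eq_same, nsmul_eq_mul,
    mul_one] at h
  have h2 : ∀ w ∈ above E v, (rdeg F w : ℤ) * (cn F E (Finsupp.single v (1 : ℤ))) w =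
      ((ld F w : ℕ) : ℤ) := by
    intro w hw
    rw [cn_apply, mem_above.1 hw, Finsupp.single_eq_same, mul_one]
    unfold ld
    push_cast
    ring
  rw [Finset.sum_congr rfl h2] at h
  exact_mod_cast h

theorem ld_le (w : HeightOneSpectrum (𝓞 E)) : ld F w ≤ Module.finrank F E := by
  rw [← sum_ld (w.under (𝓞 F))]
  exact Finset.single_le_sum (f := fun w => ld F w) (fun _ _ => Nat.zero_le _) (mem_above.2 rfl)

theorem ld_eq_iff (w : HeightOneSpectrum (𝓞 E)) : ld F w = Module.finrank F E ↔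
    ∀ w' : HeightOneSpectrum (𝓞 E), w'.under (𝓞 F) = w.under (𝓞 F) → w' = w := by
  classical
  have hs := sum_ld (E := E) (w.under (𝓞 F))
  rw [← Finset.add_sum_erase _ _ (mem_above.2 rfl : w ∈ above E (w.under (𝓞 F)))] at hs
  constructor
  · intro h w' hw'
    by_contra hne
    have h1 : w' ∈ (above E (w.under (𝓞 F))).erase w := Finset.mem_erase.2 ⟨hne, mem_above.2 hw'⟩
    have h2 := Finset.single_le_sum (f := fun w => ld F w) (fun _ _ => Nat.zero_le _) h1
    have h3 := ld_pos (F := F) w'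
    omega
  · intro h
    rw [Finset.sum_eq_zero] at hs
    · omega
    · intro w' hw'
      exact absurd (h w' (mem_above.1 (Finset.mem_erase.1 hw').2)) (Finset.mem_erase.1 hw').1

/-- in Galois extensions the local degree divides the degree -/
theorem ld_dvd [IsGalois F E] (w : HeightOneSpectrum (𝓞 E)) : ld F w ∣ Module.finrank F E := by
  rw [← sum_ld (w.under (𝓞 F))]
  apply Finset.dvd_sum
  intro w' hw'
  obtain ⟨σ, hσ⟩ := Pool.Agent.Q149.AR.trans_act (F := F) (w := w) (w' := w')
    (mem_above.1 hw').symm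
  rw [← hσ]
  unfold ld
  rw [ri_act, Pool.Agent.Q149.AR.rdeg_act]

end

section
variable (F L E : Type) [Field F] [NumberField F] [Field L] [NumberField L] [Field E]
  [NumberField E] [Algebra F L] [Algebra L E] [Algebra F E] [IsScalarTower F L E]

theorem ld_tower (w : HeightOneSpectrum (𝓞 E)) : ld F w = ld L w * ld F (w.under (𝓞 L)) := by
  unfold ld
  rw [ri_tower F L E w, rdeg_tower F L E w]
  ring

end

/-! ### Semilinear action -/

section
variable {k k' F F' : Type} [Field k] [NumberField k] [Field k'] [NumberField k'] [Field F]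
  [NumberField F] [Field F'] [NumberField F'] [Algebra k k'] [Algebra k F] [Algebra k F']
  [Algebra k' F'] [Algebra F F'] [IsScalarTower k k' F'] [IsScalarTower k F F']

/-- `σ` extends `τ` -/
def Xt (σ : F' ≃ₐ[F] F') (τ : k' ≃ₐ[k] k') : Prop :=
  ∀ x : k', σ (algebraMap k' F' x) = algebraMap k' F' (τ x)

variable {σ : F' ≃ₐ[F] F'} {τ : k' ≃ₐ[k] k'}

theorem under_act' (h : Xt σ τ) (w : HeightOneSpectrum (𝓞 F')) :
    (act σ w).under (𝓞 k') = act τ (w.under (𝓞 k')) := by
  ext x
  rw [mem_act]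
  change algebraMap (𝓞 k') (𝓞 F') x ∈ (act σ w).asIdeal ↔
    algebraMap (𝓞 k') (𝓞 F') ((RingOfIntegers.mapRingEquiv τ.toRingEquiv).symm x) ∈ w.asIdeal
  rw [mem_act]
  have e : (RingOfIntegers.mapRingEquiv σ.toRingEquiv).symm (algebraMap (𝓞 k') (𝓞 F') x) =
      algebraMap (𝓞 k') (𝓞 F') ((RingOfIntegers.mapRingEquiv τ.toRingEquiv).symm x) := by
    apply RingOfIntegers.ext
    change σ.symm (algebraMap k' F' (x : k')) = algebraMap k' F' (τ.symm (x : k'))
    rw [AlgEquiv.symm_apply_eq, h, AlgEquiv.apply_symm_apply]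
  rw [e]

theorem rdeg_act' (h : Xt σ τ) (w : HeightOneSpectrum (𝓞 F')) :
    rdeg k' (act σ w) = rdeg k' w := by
  have h1 := absNorm_rdeg (K := k') (act σ w)
  have h2 := absNorm_rdeg (K := k') w
  rw [Pool.Agent.Q149.AR.absNorm_act, under_act' h, Pool.Agent.Q149.AR.absNorm_act, h2] at h1
  exact (Nat.pow_right_injective
    (Pool.Agent.Q280.AR.two_le_absNorm k' (w.under (𝓞 k'))) h1).symm

theorem ri_act' (h : Xt σ τ) (w : HeightOneSpectrum (𝓞 F')) :
    ri k' (act σ w) = ri k' w := by
  obtain ⟨v, hv⟩ : ∃ v, v = w.under (𝓞 k') := ⟨_, rfl⟩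
  obtain ⟨x, hx⟩ := v.valuation_exists_uniformizer k'
  have hx0 : x ≠ 0 := by
    rintro rfl
    rw [map_zero] at hx
    exact WithZero.coe_ne_zero hx.symm
  obtain ⟨u, hu⟩ : ∃ u : k'ˣ, u = Units.mk0 x hx0 := ⟨_, rfl⟩
  have hpv : prin u v ≠ 0 := by
    rw [Pool.Agent.Q182.AR.prin_log, hu, Units.val_mk0, hx, WithZero.log_exp]
    norm_num
  have h2 : prin (sE σ (Additive.ofMul (up k' F' u))).toMul = sD σ (prin (up k' F' u)) :=
    Pool.Agent.Q149.AR.prin_sE σ _
  have h3 : (sE σ (Additive.ofMul (up k' F' u))).toMul =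
      up k' F' (sE τ (Additive.ofMul u)).toMul := by
    apply Units.ext
    exact h (u : k')
  have h4 : prin (sE τ (Additive.ofMul u)).toMul = sD τ (prin u) :=
    Pool.Agent.Q149.AR.prin_sE τ _
  have h1 := DFunLike.congr_fun h2 (act σ w)
  rw [Pool.Agent.Q225.AR.sD_act, h3, ← cn_prin, ← cn_prin, cn_apply, cn_apply, under_act' h, h4,
    Pool.Agent.Q225.AR.sD_act, ← hv] at h1
  exact_mod_cast mul_right_cancel₀ hpv h1

theorem sD_single (σ : F' ≃ₐ[F] F') (w : HeightOneSpectrum (𝓞 F')) (m : ℤ) :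
    sD σ (Finsupp.single w m) = Finsupp.single (act σ w) m := by
  classical
  exact Finsupp.mapDomain_single

theorem nmD_sD' (h : Xt σ τ) (D : Dv F') : nmD k' F' (sD σ D) = sD τ (nmD k' F' D) := by
  have e : (nmD k' F').comp (sD σ) = (AddMonoidHom.comp (sD τ) (nmD k' F')) := by
    refine Finsupp.addHom_ext fun w m => ?_
    change nmD k' F' (sD σ (Finsupp.single w m)) = sD τ (nmD k' F' (Finsupp.single w m))
    rw [sD_single, nmD_single, nmD_single, sD_single, under_act' h, rdeg_act' h]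
  exact DFunLike.congr_fun e D

theorem cn_sD' (h : Xt σ τ) (D : Dv k') : cn k' F' (sD τ D) = sD σ (cn k' F' D) := by
  ext w
  obtain ⟨w', rfl⟩ := Pool.Agent.Q225.AR.act_surj σ w
  rw [Pool.Agent.Q225.AR.sD_act, cn_apply, cn_apply, under_act' h, ri_act' h,
    Pool.Agent.Q225.AR.sD_act]

/-! ### The norm index of units -/

theorem nuA_upA (c : Additive k'ˣ) : nuA k' F' (upA k' F' c) = Module.finrank k' F' • c := by
  have h := Pool.Agent.Q225.AR.nu_up (F := k') (E := F') c.toMul
  exact h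

theorem nuA_nuA (x : Additive F'ˣ) : nuA k F (nuA F F' x) = nuA k k' (nuA k' F' x) := by
  apply Additive.toMul.injective
  apply Units.ext
  change Algebra.norm k (Algebra.norm F ((x.toMul : F'ˣ) : F')) =
    Algebra.norm k (Algebra.norm k' ((x.toMul : F'ˣ) : F'))
  rw [Algebra.norm_norm, Algebra.norm_norm]

theorem relIndex_dvd_right {A : Type} [AddCommGroup A] (H : AddSubgroup A) {K L : AddSubgroup A}
    (h : K ≤ L) : H.relIndex K ∣ H.relIndex L := by
  rw [← AddSubgroup.relIndex_sup_left K H, ← AddSubgroup.relIndex_sup_left L H,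
    ← AddSubgroup.relIndex_mul_relIndex H (H ⊔ K) (H ⊔ L) le_sup_left (sup_le_sup_left h H)]
  exact dvd_mul_right _ _

theorem ni_dvd {n : ℕ} (hn : Module.finrank k k' = n) (hc : (Module.finrank k F).Coprime n) :
    ni k k' ∣ ni F F' := by
  unfold ni
  have h1 : ((nuA F F').range.comap (upA k F)) ≤ (nuA k k').range := by
    rintro c ⟨x, hx⟩
    have a1 : Module.finrank k F • c ∈ (nuA k k').range := by
      rw [← nuA_upA (k' := k) (F' := F) c]
      exact ⟨nuA k' F' x, by rw [← nuA_nuA (F := F), hx]⟩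
    have a2 : n • c ∈ (nuA k k').range := by
      rw [← hn, ← nuA_upA (k' := k) (F' := k') c]
      exact ⟨_, rfl⟩
    have hb := Nat.gcd_eq_gcd_ab (Module.finrank k F) n
    rw [Nat.Coprime.gcd_eq_one hc] at hb
    have h3 : c = (Nat.gcdA (Module.finrank k F) n) • (Module.finrank k F • c) +
        (Nat.gcdB (Module.finrank k F) n) • (n • c) := by
      rw [← natCast_zsmul c (Module.finrank k F), ← natCast_zsmul c n, ← mul_zsmul, ← mul_zsmul,
        ← add_zsmul]
      rw [mul_comm (Nat.gcdA _ _), mul_comm (Nat.gcdB _ _), ← hb]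
      simp
    rw [h3]
    exact add_mem (zsmul_mem a1 _) (zsmul_mem a2 _)
  have h2 : (nuA k k').range.relIndex (UU k) ∣
      ((nuA F F').range.comap (upA k F)).relIndex (UU k) :=
    AddSubgroup.relIndex_dvd_of_le_left _ h1
  refine h2.trans ?_
  rw [AddSubgroup.relIndex_comap]
  apply relIndex_dvd_right
  rintro _ ⟨c, hc, rfl⟩
  exact (prinHom_upA_eq_zero c).2 hc

end

end Pool.Agent.H515.CH
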